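import Pool.Agent.Lib.Common.Subspace.Fil

/-! The auxiliary polynomial (Chebyshev's inequality and Siegel's lemma). -/

namespace Pool.Agent.Lib.Common.Subspace

open MvPolynomial Finset

theorem auxpoly_cheb {ι Y : Type*} [Fintype ι] [DecidableEq ι] (t : ι → Finset Y)
    (z : ι → Y → ℝ) (M a : ℝ) (ha : 0 ≤ a) (h0 : ∀ h, ∑ x ∈ t h, z h x = 0)
    (hM : ∀ h, ∀ x ∈ t h, |z h x| ≤ M) :
    (((Fintype.piFinset t).filter fun i => a < ∑ h, z h (i h)).card : ℝ) * a ^ 2
      ≤ Fintype.card ι * M ^ 2 * (Fintype.piFinset t).card := by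
  have cross : ∀ h h', h ≠ h' → ∑ i ∈ Fintype.piFinset t, z h (i h) * z h' (i h') = 0 := by
    intro h h' hne
    have e := Finset.prod_univ_sum t
      fun g x => (if g = h then z g x else 1) * (if g = h' then z g x else 1)
    simp only [Finset.prod_mul_distrib, Finset.prod_ite_eq', mem_univ, if_true] at e
    rw [← e]
    exact Finset.prod_eq_zero (mem_univ h) (by simp [hne, h0])
  have total : ∑ i ∈ Fintype.piFinset t, (∑ h, z h (i h)) ^ 2
      ≤ Fintype.card ι * M ^ 2 * (Fintype.piFinset t).card := by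
    simp only [sq, Finset.sum_mul_sum]
    rw [Finset.sum_comm]
    calc ∑ h, ∑ i ∈ Fintype.piFinset t, ∑ h', z h (i h) * z h' (i h')
        ≤ ∑ _h : ι, M * M * (Fintype.piFinset t).card := by
          refine Finset.sum_le_sum fun h _ => ?_
          rw [Finset.sum_comm, Finset.sum_eq_single_of_mem h (mem_univ h)
            fun h' _ hne => cross h h' hne.symm]
          refine (Finset.sum_le_card_nsmul _ _ (M * M) fun i hi => ?_).trans
            (by rw [nsmul_eq_mul, mul_comm])
          have := hM h _ (Fintype.mem_piFinset.mp hi h)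
          rw [← abs_mul_abs_self]
          exact mul_self_le_mul_self (abs_nonneg _) this
      _ = _ := by simp; ring
  refine le_trans ?_ total
  rw [← nsmul_eq_mul]
  refine (Finset.card_nsmul_le_sum _ (fun i => (∑ h, z h (i h)) ^ 2) _ fun i hi => ?_).trans
    (Finset.sum_le_sum_of_subset_of_nonneg (filter_subset _ _) fun _ _ _ => sq_nonneg _)
  exact pow_le_pow_left₀ ha (mem_filter.mp hi).2.le 2

theorem auxpoly_sum_coord {κ : Type*} [Fintype κ] [DecidableEq κ] (d : ℕ) (j : κ) :
    (Fintype.card κ : ℝ) * ∑ x ∈ piAntidiag (univ : Finset κ) d, (x j : ℝ)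
      = d * (piAntidiag (univ : Finset κ) d).card := by
  have sym : ∀ l, ∑ x ∈ piAntidiag (univ : Finset κ) d, (x l : ℝ)
      = ∑ x ∈ piAntidiag (univ : Finset κ) d, (x j : ℝ) := by
    intro l
    have hm : ∀ x ∈ piAntidiag (univ : Finset κ) d,
        x ∘ Equiv.swap j l ∈ piAntidiag (univ : Finset κ) d := by
      intro x hx
      simp only [mem_piAntidiag, mem_univ, implies_true, and_true] at hx ⊢
      rw [← hx]
      exact Equiv.sum_comp (Equiv.swap j l) x
    refine Finset.sum_nbij' (fun x => x ∘ Equiv.swap j l) (fun x => x ∘ Equiv.swap j l) hm hm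
      (fun x _ => by ext; simp) (fun x _ => by ext; simp) fun x _ => by simp
  calc _ = ∑ l : κ, ∑ x ∈ piAntidiag (univ : Finset κ) d, (x l : ℝ) := by simp [sym]
    _ = ∑ x ∈ piAntidiag (univ : Finset κ) d, (d : ℝ) := by
      rw [Finset.sum_comm]
      refine Finset.sum_congr rfl fun x hx => ?_
      exact_mod_cast (mem_piAntidiag.mp hx).1
    _ = _ := by simp [mul_comm]

theorem auxpoly_card {κ : Type*} [Fintype κ] [DecidableEq κ] (d : ℕ) :
    (piAntidiag (univ : Finset κ) d).card ≤ (2 ^ Fintype.card κ) ^ d := by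
  calc _ ≤ (Fintype.piFinset fun _ : κ => range (d + 1)).card := by
        refine card_le_card fun x hx => Fintype.mem_piFinset.mpr fun j => mem_range.mpr ?_
        rw [← (mem_piAntidiag.mp hx).1]
        exact Nat.lt_succ_of_le (Finset.single_le_sum (fun _ _ => Nat.zero_le _) (mem_univ j))
    _ = (d + 1) ^ Fintype.card κ := by simp
    _ ≤ (2 ^ d) ^ Fintype.card κ := Nat.pow_le_pow_left Nat.lt_two_pow_self _
    _ = _ := by rw [← pow_mul, ← pow_mul, mul_comm]

section Siegel

attribute [local instance] Matrix.seminormedAddCommGroup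

theorem auxpoly_siegel {α β : Type*} [Fintype α] [Fintype β] (A : Matrix α β ℤ) (K : ℝ)
    (hK : 1 ≤ K) (hA : ∀ i j, |(A i j : ℝ)| ≤ K) (h2 : 2 * Fintype.card α ≤ Fintype.card β)
    (hβ : 0 < Fintype.card β) :
    ∃ t : β → ℤ, t ≠ 0 ∧ A.mulVec t = 0 ∧ ∀ j, |(t j : ℝ)| ≤ Fintype.card β * K := by
  have hβ' : (1 : ℝ) ≤ Fintype.card β := by exact_mod_cast hβ
  have h1 : 1 ≤ Fintype.card β * K := one_le_mul_of_one_le_of_one_le hβ' hK
  rcases Nat.eq_zero_or_pos (Fintype.card α) with h0 | h0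
  · have := Fintype.card_eq_zero_iff.mp h0
    have := Fintype.card_pos_iff.mp hβ
    exact ⟨1, one_ne_zero, Subsingleton.elim _ _, fun j => by simpa using h1⟩
  · obtain ⟨t, t0, t1, t2⟩ := Int.Matrix.exists_ne_zero_int_vec_norm_le A (by omega) h0
    refine ⟨t, t0, t1, fun j => ?_⟩
    have a1 : ‖A‖ ≤ K := (Matrix.norm_le_iff (by linarith)).mpr fun i j => hA i j
    have a2 : (1 : ℝ) ≤ Fintype.card β * max 1 ‖A‖ :=
      one_le_mul_of_one_le_of_one_le hβ' (le_max_left _ _)
    have a3 : (Fintype.card α : ℝ) / (Fintype.card β - Fintype.card α) ≤ 1 := by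
      have b1 : (2 : ℝ) * Fintype.card α ≤ Fintype.card β := by exact_mod_cast h2
      have b2 : (0 : ℝ) < Fintype.card α := by exact_mod_cast h0
      rw [div_le_one (by linarith)]
      linarith
    calc |(t j : ℝ)| = ‖t j‖ := rfl
      _ ≤ ‖t‖ := norm_le_pi_norm t j
      _ ≤ _ := t2
      _ ≤ (Fintype.card β * max 1 ‖A‖) ^ (1 : ℝ) := Real.rpow_le_rpow_of_exponent_le a2 a3
      _ ≤ _ := by
        rw [Real.rpow_one]
        exact mul_le_mul_of_nonneg_left (max_le hK a1) (by linarith)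

end Siegel

theorem exists_aux {ι κ Pl : Type*} [Fintype ι] [Fintype κ] [Fintype Pl] [Nonempty ι]
    [Nonempty κ] (A : Pl → Matrix κ κ ℤ) (B : ℝ) (hB1 : 1 ≤ B)
    (hB : ∀ p i j, |((A p i j : ℤ) : ℝ)| ≤ B) (c : Pl → κ → ℝ) (Γ : ℝ) (hc : ∀ p j, |c p j| ≤ Γ)
    (η : ℝ) (hη : 0 < η) (hm : 8 * Fintype.card Pl * Γ ^ 2 ≤ η ^ 2 * Fintype.card ι)
    (ω : ι → ℝ) (hω : ∀ h, 0 ≤ ω h) (d : ι → ℕ) (D : ℝ) (hD : 0 < D)
    (hd : ∀ h, ω h * d h ≤ D) :
    ∃ P : MvPolynomial (ι × κ) ℚ, P ≠ 0 ∧ IsInt P ∧ BlockHom d P ∧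
      len P ≤ (4 ^ Fintype.card κ * Fintype.card κ * B) ^ (∑ h, d h) ∧
      ∀ p, ∀ ν ∈ (lin (fun _ => (A p).map (Int.cast : ℤ → ℚ)) P).support,
        Finsupp.weight (fun s : ι × κ => ω s.1 * c p s.2) ν ≤
          (∑ j, c p j) / Fintype.card κ * (∑ h, ω h * d h) + η * Fintype.card ι * D := by
  classical
  have hN : (1 : ℝ) ≤ Fintype.card κ := by exact_mod_cast Fintype.card_pos
  have hι : (1 : ℝ) ≤ Fintype.card ι := by exact_mod_cast Fintype.card_pos
  set Mon : Finset (ι → κ → ℕ) := Fintype.piFinset fun h => piAntidiag univ (d h) with hMon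
  let F : (ι → κ → ℕ) → ι × κ →₀ ℕ := fun i => Finsupp.equivFunOnFinite.symm fun s => i s.1 s.2
  have hF : ∀ i s, F i s = i s.1 s.2 := fun _ _ => rfl
  have hFi : Function.Injective F := fun i i' h => by
    funext a j
    exact DFunLike.congr_fun h (a, j)
  have hmem : ∀ i, i ∈ Mon ↔ ∀ h, ∑ j, i h j = d h := fun i => by
    simp [hMon, Fintype.mem_piFinset]
  have hmonB : ∀ i ∈ Mon, ∀ q : ℚ, BlockHom d (monomial (F i) q) := by
    intro i hi q μ hμ h
    rw [mem_singleton.mp (support_monomial_subset hμ)]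
    exact (hmem i).mp hi h
  let z : Pl → ι → (κ → ℕ) → ℝ := fun p h x =>
    ω h * (∑ j, c p j * x j - d h * ((∑ j, c p j) / Fintype.card κ))
  let Bad : Pl → Finset (ι → κ → ℕ) := fun p =>
    Mon.filter fun i => η * Fintype.card ι * D < ∑ h, z p h (i h)
  have hBad : ∀ p, 2 * Fintype.card Pl * (Bad p).card ≤ Mon.card := by
    intro p
    have hΓ : 0 ≤ Γ := (abs_nonneg _).trans (hc p (Classical.arbitrary κ))
    have h1 := auxpoly_cheb (fun h => piAntidiag univ (d h)) (z p) (2 * Γ * D)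
      (η * Fintype.card ι * D) (by positivity) (fun h => ?_) fun h x hx => ?_
    · have h2 : ((Bad p).card : ℝ) * (η ^ 2 * Fintype.card ι) ≤ 4 * Γ ^ 2 * Mon.card := by
        refine le_of_mul_le_mul_right ?_ (by positivity : 0 < Fintype.card ι * D ^ 2)
        calc _ = ((Bad p).card : ℝ) * (η * Fintype.card ι * D) ^ 2 := by ring
          _ ≤ _ := h1
          _ = _ := by ring
      have h3 : (2 * Fintype.card Pl * (Bad p).card : ℝ) ≤ Mon.card := by
        refine le_of_mul_le_mul_right ?_ (by positivity : 0 < η ^ 2 * Fintype.card ι)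
        calc _ = 2 * Fintype.card Pl * (((Bad p).card : ℝ) * (η ^ 2 * Fintype.card ι)) := by ring
          _ ≤ 2 * Fintype.card Pl * (4 * Γ ^ 2 * Mon.card) := by gcongr
          _ = 8 * Fintype.card Pl * Γ ^ 2 * Mon.card := by ring
          _ ≤ η ^ 2 * Fintype.card ι * Mon.card := by gcongr
          _ = _ := by ring
      exact_mod_cast h3
    · simp only [z, ← Finset.mul_sum, Finset.sum_sub_distrib]
      refine mul_eq_zero_of_right _ (sub_eq_zero.mpr ?_)
      rw [Finset.sum_comm]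
      have e : ∀ j, ∑ x ∈ piAntidiag (univ : Finset κ) (d h), c p j * (x j : ℝ)
          = c p j * (d h * (piAntidiag (univ : Finset κ) (d h)).card / Fintype.card κ) := by
        intro j
        rw [← Finset.mul_sum, ← auxpoly_sum_coord (d h) j]
        field_simp
      simp only [e, ← Finset.sum_mul, Finset.sum_const, nsmul_eq_mul]
      ring
    · have a0 : ∑ j, (x j : ℝ) = d h := by exact_mod_cast (mem_piAntidiag.mp hx).1
      have a1 : |∑ j, c p j * (x j : ℝ)| ≤ Γ * d h := by
        rw [← a0, Finset.mul_sum]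
        refine (Finset.abs_sum_le_sum_abs _ _).trans (Finset.sum_le_sum fun j _ => ?_)
        rw [abs_mul, Nat.abs_cast]
        exact mul_le_mul_of_nonneg_right (hc p j) (Nat.cast_nonneg _)
      have a2 : |(∑ j, c p j) / Fintype.card κ| ≤ Γ := by
        rw [abs_div, Nat.abs_cast, div_le_iff₀ (by linarith)]
        refine (Finset.abs_sum_le_sum_abs _ _).trans
          ((Finset.sum_le_card_nsmul _ _ Γ fun j _ => hc p j).trans ?_)
        simp [mul_comm]
      have a3 : |(d h : ℝ) * ((∑ j, c p j) / Fintype.card κ)| ≤ d h * Γ := by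
        rw [abs_mul, Nat.abs_cast]
        exact mul_le_mul_of_nonneg_left a2 (Nat.cast_nonneg _)
      simp only [z]
      rw [abs_mul, abs_of_nonneg (hω h)]
      calc _ ≤ ω h * (Γ * d h + d h * Γ) :=
            mul_le_mul_of_nonneg_left ((abs_sub _ _).trans (add_le_add a1 a3)) (hω h)
        _ = 2 * Γ * (ω h * d h) := by ring
        _ ≤ _ := mul_le_mul_of_nonneg_left (hd h) (by positivity)
  have hint : ∀ p (i : ι → κ → ℕ) (ν : ι × κ →₀ ℕ), ∃ w : ℤ,
      coeff ν (lin (fun _ => (A p).map (Int.cast : ℤ → ℚ)) (monomial (F i) 1)) = w := by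
    intro p i
    simpa [IsInt] using (isInt_monomial (F i) 1).lin fun _ => A p
  choose w hw using hint
  have hK : 1 ≤ (Fintype.card κ * B) ^ ∑ h, d h :=
    one_le_pow₀ (one_le_mul_of_one_le_of_one_le hN hB1)
  have hMon0 : 0 < Mon.card := by
    refine card_pos.mpr ⟨fun h => Pi.single (Classical.arbitrary κ) (d h), (hmem _).mpr ?_⟩
    simp
  obtain ⟨t, t0, t1, t2⟩ := auxpoly_siegel (α := Σ p, Bad p) (β := Mon)
    (Matrix.of fun e i => w e.1 i (F e.2)) _ hK (fun e i => by
      have b1 := abs_coeff_le_len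
        (lin (fun _ => (A e.1).map (Int.cast : ℤ → ℚ)) (monomial (F i) 1)) (F e.2)
      have b2 := len_lin_le (hmonB i i.2 1) (fun _ => (A e.1).map (Int.cast : ℤ → ℚ)) B
        fun _ a b => by simpa using hB e.1 a b
      have b3 : len (monomial (F i) (1 : ℚ)) = 1 := by simp [len, nrm_monomial, Finsupp.prod]
      rw [hw, Rat.cast_intCast] at b1
      rw [b3, mul_one] at b2
      exact b1.trans b2) (by
      rw [Fintype.card_sigma, Fintype.card_coe]
      simp only [Fintype.card_coe]
      rcases Nat.eq_zero_or_pos (Fintype.card Pl) with h0 | h0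
      · have := Fintype.card_eq_zero_iff.mp h0
        simp
      · refine Nat.le_of_mul_le_mul_left ?_ h0
        calc _ = ∑ p, 2 * Fintype.card Pl * (Bad p).card := by rw [← Finset.mul_sum]; ring
          _ ≤ ∑ _p : Pl, Mon.card := Finset.sum_le_sum fun p _ => hBad p
          _ = _ := by simp) (by rwa [Fintype.card_coe])
  have hP : BlockHom d (∑ i : Mon, monomial (F i) (t i : ℚ)) := by
    intro μ hμ
    obtain ⟨i, -, hi⟩ := mem_biUnion.mp (support_sum hμ)
    exact hmonB i i.2 _ μ hi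
  refine ⟨∑ i : Mon, monomial (F i) (t i : ℚ), fun h => t0 (funext fun i => ?_),
    isInt_sum _ _ fun i _ => isInt_monomial _ _, hP, ?_, fun p ν hν => ?_⟩
  · have h1 := congrArg (coeff (F i)) h
    rw [coeff_sum, Finset.sum_eq_single_of_mem i (mem_univ i), coeff_monomial, if_pos rfl,
      coeff_zero] at h1
    · exact_mod_cast h1
    · intro j _ hj
      rw [coeff_monomial, if_neg fun h' => hj (Subtype.ext (hFi h'))]
  · have b1 : (Mon.card : ℝ) ≤ (2 ^ Fintype.card κ) ^ ∑ h, d h := by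
      have : Mon.card ≤ (2 ^ Fintype.card κ) ^ ∑ h, d h := by
        rw [hMon, Fintype.card_piFinset, ← Finset.prod_pow_eq_pow_sum]
        exact Finset.prod_le_prod' fun h _ => auxpoly_card (d h)
      exact_mod_cast this
    refine (nrm_sum_le (fun _ => zero_le_one) _ _).trans
      ((Finset.sum_le_card_nsmul _ _ (Mon.card * (Fintype.card κ * B) ^ ∑ h, d h)
        fun i _ => ?_).trans ?_)
    · have := t2 i
      rw [Fintype.card_coe] at this
      simpa [nrm_monomial, Finsupp.prod] using this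
    · rw [Finset.card_univ, Fintype.card_coe, nsmul_eq_mul]
      calc _ ≤ (2 ^ Fintype.card κ) ^ (∑ h, d h) * ((2 ^ Fintype.card κ) ^ (∑ h, d h)
            * (Fintype.card κ * B) ^ ∑ h, d h) := by gcongr
        _ = _ := by
          rw [← mul_pow, ← mul_pow, ← mul_assoc, ← mul_assoc, ← mul_pow]
          norm_num
  · let i : ι → κ → ℕ := fun h j => ν (h, j)
    have hi : i ∈ Mon := (hmem i).mpr (hP.lin _ ν hν)
    have hFν : F i = ν := by ext s; rfl
    have hw' : Finsupp.weight (fun s : ι × κ => ω s.1 * c p s.2) ν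
        = (∑ j, c p j) / Fintype.card κ * (∑ h, ω h * d h) + ∑ h, z p h (i h) := by
      rw [Finsupp.weight_eq_sum, Fintype.sum_prod_type, Finset.mul_sum, ← Finset.sum_add_distrib]
      refine Finset.sum_congr rfl fun h _ => ?_
      simp only [z, i, mul_sub, Finset.mul_sum, nsmul_eq_mul]
      rw [Finset.sum_congr rfl fun j _ =>
        (by ring : (ν (h, j) : ℝ) * (ω h * c p j) = ω h * (c p j * ν (h, j)))]
      ring
    rw [hw', add_le_add_iff_left]
    by_contra hlt
    have hb : i ∈ Bad p := mem_filter.mpr ⟨hi, not_le.mp hlt⟩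
    refine mem_support_iff.mp hν ?_
    have h1 := congrFun t1 ⟨p, i, hb⟩
    simp only [Matrix.mulVec, dotProduct, Matrix.of_apply, Pi.zero_apply, hFν] at h1
    rw [map_sum, coeff_sum]
    have e : ∀ j : Mon, coeff ν (lin (fun _ => (A p).map (Int.cast : ℤ → ℚ))
        (monomial (F j) (t j : ℚ))) = ((w p j ν * t j : ℤ) : ℚ) := by
      intro j
      rw [← mul_one (t j : ℚ), ← smul_eq_mul, ← smul_monomial, map_smul, coeff_smul, hw]
      simp [mul_comm]
    simp only [e]
    exact_mod_cast h1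

end Pool.Agent.Lib.Common.Subspace
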