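import Pool.Agent.Lib.Common.Subspace.Defs

/-! Cauchy-Binet and compound matrices. -/

namespace Pool.Agent.Lib.Common.Subspace

open Finset Matrix

theorem enum_injective {n p : ℕ} (I : PS n p) : Function.Injective (enum I) :=
  (I.1.orderEmbOfFin I.2).injective

theorem enum_mem {n p : ℕ} (I : PS n p) (a : Fin p) : enum I a ∈ I.1 :=
  Finset.orderEmbOfFin_mem I.1 I.2 a

theorem exists_enum_eq {n p : ℕ} (I : PS n p) {l : Fin n} (hl : l ∈ I.1) :
    ∃ a, enum I a = l := by
  have h : l ∈ Set.range (I.1.orderEmbOfFin I.2) := by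
    rw [Finset.range_orderEmbOfFin]; exact hl
  exact h

theorem compound_sum_fun {M : Type*} [AddCommMonoid M] {n p : ℕ} (g : (Fin p → Fin n) → M)
    (hg : ∀ f, ¬ Function.Injective f → g f = 0) :
    ∑ x : PS n p × Equiv.Perm (Fin p), g (enum x.1 ∘ x.2) = ∑ f, g f := by
  classical
  refine Fintype.sum_of_injective (fun x : PS n p × Equiv.Perm (Fin p) => enum x.1 ∘ x.2)
    ?_ _ _ ?_ (fun _ => rfl)
  · rintro ⟨K, τ⟩ ⟨K', τ'⟩ h
    simp only at h
    have hsub : ∀ (K K' : PS n p) (τ τ' : Equiv.Perm (Fin p)), enum K ∘ τ = enum K' ∘ τ' →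
        K.1 ⊆ K'.1 := by
      intro K K' τ τ' h l hl
      obtain ⟨a, ha⟩ := exists_enum_eq K hl
      have := congrFun h (τ.symm a)
      simp only [Function.comp_apply, Equiv.apply_symm_apply] at this
      rw [← ha, this]
      exact enum_mem _ _
    have hK : K = K' := Subtype.ext (Finset.Subset.antisymm (hsub _ _ _ _ h) (hsub _ _ _ _ h.symm))
    subst hK
    have hτ : τ = τ' := Equiv.ext fun a => enum_injective K (congrFun h a)
    rw [hτ]
  · intro f hf
    refine hg f fun hinj => hf ?_
    let K : PS n p := ⟨univ.image f, by rw [card_image_of_injective _ hinj]; simp⟩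
    have hex : ∀ i, ∃ a, enum K a = f i := fun i =>
      exists_enum_eq K (mem_image_of_mem f (mem_univ i))
    choose τ hτ using hex
    have hτi : Function.Injective τ := fun i j hij => hinj (by rw [← hτ i, ← hτ j, hij])
    exact ⟨(K, Equiv.ofBijective τ (Finite.injective_iff_bijective.mp hτi)), funext hτ⟩

theorem cauchy_binet {R : Type*} [CommRing R] {n p : ℕ} (A : Matrix (Fin p) (Fin n) R)
    (B : Matrix (Fin n) (Fin p) R) :
    (A * B).det = ∑ K : PS n p, (A.submatrix id (enum K)).det * (B.submatrix (enum K) id).det := by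
  classical
  have h1 : (A * B).det =
      ∑ f : Fin p → Fin n, (A.submatrix id f).det * ∏ i, B (f i) i := by
    simp only [det_apply', mul_apply, prod_univ_sum, mul_sum, Fintype.piFinset_univ]
    rw [Finset.sum_comm]
    refine sum_congr rfl fun f _ => ?_
    rw [sum_mul]
    refine sum_congr rfl fun σ _ => ?_
    simp only [submatrix_apply, id_eq, prod_mul_distrib, mul_assoc]
  rw [h1, ← compound_sum_fun, Fintype.sum_prod_type]
  · refine sum_congr rfl fun K _ => ?_
    rw [det_apply' (B.submatrix (enum K) id), mul_sum]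
    refine sum_congr rfl fun τ _ => ?_
    have h2 : A.submatrix id (enum K ∘ τ) = (A.submatrix id (enum K)).submatrix id τ := rfl
    rw [h2, det_permute']
    simp only [submatrix_apply, id_eq, Function.comp_apply]
    ring
  · intro f hf
    obtain ⟨i, j, hij, hne⟩ := Function.not_injective_iff.mp hf
    rw [det_zero_of_column_eq hne (fun k => by simp [hij]), zero_mul]

theorem comp_mul {R : Type*} [CommRing R] {n : ℕ} (p : ℕ) (A B : Matrix (Fin n) (Fin n) R) :
    comp p (A * B) = comp p A * comp p B := by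
  ext I J
  have h : (A * B).submatrix (enum I) (enum J) =
      A.submatrix (enum I) id * B.submatrix id (enum J) := by
    ext a b
    simp [mul_apply]
  simp only [comp, of_apply, mul_apply]
  rw [h, cauchy_binet]
  rfl

theorem comp_transpose {R : Type*} [CommRing R] {n : ℕ} (p : ℕ)
    (A : Matrix (Fin n) (Fin n) R) : comp p Aᵀ = (comp p A)ᵀ := by
  ext I J
  simp only [comp, of_apply, transpose_apply]
  rw [← det_transpose]
  rfl

theorem compound_one {R : Type*} [CommRing R] {n : ℕ} (p : ℕ) :
    comp p (1 : Matrix (Fin n) (Fin n) R) = 1 := by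
  ext I J
  simp only [comp, of_apply]
  by_cases h : I = J
  · subst h
    rw [submatrix_one _ (enum_injective I), det_one, one_apply_eq]
  · rw [one_apply_ne h]
    have hsub : ¬ I.1 ⊆ J.1 := fun hs =>
      h (Subtype.ext (Finset.eq_of_subset_of_card_le hs (by rw [I.2, J.2])))
    obtain ⟨l, hlI, hlJ⟩ := Finset.not_subset.mp hsub
    obtain ⟨a, ha⟩ := exists_enum_eq I hlI
    refine det_eq_zero_of_row_eq_zero a fun b => ?_
    rw [submatrix_apply, one_apply_ne]
    intro hab
    exact hlJ (ha ▸ hab ▸ enum_mem J b)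

theorem compound_smul {R : Type*} [CommRing R] {n : ℕ} (p : ℕ) (c : R)
    (A : Matrix (Fin n) (Fin n) R) : comp p (c • A) = c ^ p • comp p A := by
  ext I J
  have h : (c • A).submatrix (enum I) (enum J) = c • A.submatrix (enum I) (enum J) := rfl
  simp only [comp, of_apply, Matrix.smul_apply]
  rw [h, det_smul, Fintype.card_fin, smul_eq_mul]

theorem det_comp_ne_zero {n : ℕ} (p : ℕ) (A : Matrix (Fin n) (Fin n) ℤ) (hA : A.det ≠ 0) :
    (comp p A).det ≠ 0 := by
  intro h
  have h1 : comp p A * comp p A.adjugate = A.det ^ p • (1 : Matrix (PS n p) (PS n p) ℤ) := by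
    rw [← comp_mul, mul_adjugate, compound_smul, compound_one]
  have h2 := congrArg det h1
  rw [det_mul, h, zero_mul, det_smul, det_one, mul_one] at h2
  exact pow_ne_zero _ (pow_ne_zero _ hA) h2.symm

/-- The entries of `comp L *ᵥ (comp X) I` are minors of the matrix of values `L (X i)`. -/
theorem comp_mulVec {n : ℕ} (p : ℕ) (L X : Matrix (Fin n) (Fin n) ℤ) (I J : PS n p) :
    (comp p L *ᵥ comp p X I) J =
      (Matrix.of fun a b : Fin p => (L *ᵥ X (enum I a)) (enum J b)).det := by
  have h1 : (comp p L *ᵥ comp p X I) J = (comp p X * (comp p L)ᵀ) I J := by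
    simp only [mulVec, dotProduct, mul_apply, transpose_apply]
    exact sum_congr rfl fun K _ => mul_comm _ _
  rw [h1, ← comp_transpose, ← comp_mul]
  simp only [comp, of_apply]
  refine congrArg det ?_
  ext a b
  simp only [submatrix_apply, mul_apply, transpose_apply, of_apply, mulVec, dotProduct]
  exact sum_congr rfl fun K _ => mul_comm _ _

theorem compound_sum_enum {n p : ℕ} (J : PS n p) (f : Fin n → ℝ) :
    ∑ b, f (enum J b) = ∑ l, if l ∈ J.1 then f l else 0 := by
  rw [← sum_filter, filter_mem_eq_inter, univ_inter]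
  refine sum_bij (fun b _ => enum J b) (fun b _ => enum_mem J b)
    (fun a _ b _ h => enum_injective J h) (fun l hl => ?_) (fun _ _ => rfl)
  obtain ⟨a, ha⟩ := exists_enum_eq J hl
  exact ⟨a, mem_univ _, ha⟩

theorem compound_card_eq {n p : ℕ} (l l' : Fin n) :
    (univ.filter fun J : PS n p => l ∈ J.1).card = (univ.filter fun J : PS n p => l' ∈ J.1).card := by
  let e : PS n p ≃ PS n p :=
    Equiv.subtypeEquiv (Equiv.finsetCongr (Equiv.swap l l')) (fun I => by simp)
  refine Finset.card_equiv e fun J => ?_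
  simp [e]

theorem sum_sum_enum (n p : ℕ) : ∃ c : ℕ, ∀ f : Fin n → ℝ,
    ∑ J : PS n p, ∑ b, f (enum J b) = c * ∑ l, f l := by
  have key : ∀ f : Fin n → ℝ, ∑ J : PS n p, ∑ b, f (enum J b) =
      ∑ l, ((univ.filter fun J : PS n p => l ∈ J.1).card : ℝ) * f l := by
    intro f
    simp only [compound_sum_enum]
    rw [sum_comm]
    refine sum_congr rfl fun l _ => ?_
    rw [← sum_filter, sum_const, nsmul_eq_mul]
  rcases Nat.eq_zero_or_pos n with rfl | hn
  · exact ⟨0, fun f => by rw [key]; simp⟩
  · refine ⟨(univ.filter fun J : PS n p => (⟨0, hn⟩ : Fin n) ∈ J.1).card, fun f => ?_⟩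
    rw [key, mul_sum]
    exact sum_congr rfl fun l _ => by rw [compound_card_eq l ⟨0, hn⟩]

/-- From a hyperplane in the exterior power back to a hyperplane in the space. -/
theorem exists_functional {n p : ℕ} (hp : 0 < p) (w : PS n p → ℤ) (hw : w ≠ 0) :
    ∃ w' : Fin n → ℤ, w' ≠ 0 ∧ ∀ (X : Matrix (Fin n) (Fin n) ℤ), X.det ≠ 0 →
      ∀ top : PS n p, (∀ I, I ≠ top → w ⬝ᵥ comp p X I = 0) →
      ∀ (y : Fin n → ℤ) (g : Fin n → ℚ), (∀ l ∈ top.1, g l = 0) →
        (∀ j, (y j : ℚ) = ∑ l, g l * X l j) → w' ⬝ᵥ y = 0 := by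
  classical
  obtain ⟨K, hK⟩ := Function.ne_iff.mp hw
  let z0 : Fin p := ⟨0, hp⟩
  let Z : Matrix (Fin p) (Fin n) ℤ := (1 : Matrix (Fin n) (Fin n) ℤ).submatrix (enum K) id
  let W : (Fin n → ℤ) → ℤ := fun y =>
    ∑ I : PS n p, w I * ((Z.updateRow z0 y).submatrix id (enum I)).det
  have hsub : ∀ (y : Fin n → ℤ) (I : PS n p), (Z.updateRow z0 y).submatrix id (enum I) =
      (Z.submatrix id (enum I)).updateRow z0 (y ∘ enum I) := by
    intro y I
    ext a b
    by_cases ha : a = z0 <;> simp [updateRow_apply, ha]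
  have hadd : ∀ y y', W (y + y') = W y + W y' := by
    intro y y'
    simp only [W, hsub, ← sum_add_distrib]
    refine sum_congr rfl fun I _ => ?_
    have : (y + y') ∘ enum I = y ∘ enum I + y' ∘ enum I := rfl
    rw [this, det_updateRow_add, mul_add]
  have hsmul : ∀ (c : ℤ) y, W (c • y) = c * W y := by
    intro c y
    simp only [W, hsub, mul_sum]
    refine sum_congr rfl fun I _ => ?_
    have : (c • y) ∘ enum I = c • (y ∘ enum I) := rfl
    rw [this, det_updateRow_smul]
    ring
  let Wl : (Fin n → ℤ) →ₗ[ℤ] ℤ := ⟨⟨W, hadd⟩, hsmul⟩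
  refine ⟨fun j => W (Pi.single j 1), ?_, ?_⟩
  · intro h0
    have h1 := congrFun h0 (enum K z0)
    have h2 : Z.updateRow z0 (Pi.single (enum K z0) 1) = Z := by
      ext a b
      by_cases ha : a = z0
      · subst ha
        simp [Z, one_apply, Pi.single_apply, eq_comm]
      · simp [updateRow_apply, ha]
    have h3 : ∀ I, (Z.submatrix id (enum I)).det = (1 : Matrix (PS n p) (PS n p) ℤ) K I := by
      intro I
      rw [← compound_one]
      rfl
    simp only [W, h2, h3, Pi.zero_apply, one_apply, mul_ite, mul_one, mul_zero, sum_ite_eq,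
      mem_univ, if_true] at h1
    exact hK h1
  · intro X hX top htop y g hg hy
    have h1 : (fun j => W (Pi.single j 1)) ⬝ᵥ y = W y := by
      have h2 : y = ∑ j, y j • (Pi.single j 1 : Fin n → ℤ) := by
        ext i
        simp [Finset.sum_apply, Pi.single_apply]
      have h3 : W y = Wl (∑ j, y j • (Pi.single j 1 : Fin n → ℤ)) := by rw [← h2]; rfl
      rw [h3, map_sum]
      refine sum_congr rfl fun j _ => ?_
      rw [map_smul, smul_eq_mul, mul_comm]
      rfl
    rw [h1]
    let c : ℤ →+* ℚ := Int.castRingHom ℚ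
    let Xq : Matrix (Fin n) (Fin n) ℚ := X.map c
    have hXq : IsUnit Xq.det := by
      have : Xq.det = c X.det := (RingHom.map_det c X).symm
      rw [this]
      exact isUnit_iff_ne_zero.mpr (by simpa [c] using hX)
    let G : Matrix (Fin p) (Fin n) ℚ := (Z.map c * Xq⁻¹).updateRow z0 g
    have hG : (Z.updateRow z0 y).map c = G * Xq := by
      ext a b
      by_cases ha : a = z0
      · subst ha
        simp only [map_apply, updateRow_self, mul_apply, G, Xq]
        exact hy b
      · have h4 : (G * Xq) a b = (Z.map c * Xq⁻¹ * Xq) a b := by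
          simp only [mul_apply (M := G), mul_apply (M := Z.map c * Xq⁻¹), G, updateRow_ne ha]
        rw [h4, Matrix.mul_assoc, nonsing_inv_mul _ hXq, Matrix.mul_one]
        simp [updateRow_apply, ha]
    have h5 : ∀ I : PS n p, c ((Z.updateRow z0 y).submatrix id (enum I)).det =
        ∑ J : PS n p, (G.submatrix id (enum J)).det * c (comp p X J I) := by
      intro I
      have h6 : ((Z.updateRow z0 y).submatrix id (enum I)).map c =
          G * Xq.submatrix id (enum I) := by
        ext a b
        have := congrFun (congrFun hG a) (enum I b)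
        simpa [mul_apply] using this
      rw [RingHom.map_det, RingHom.mapMatrix_apply, h6, cauchy_binet]
      refine sum_congr rfl fun J _ => ?_
      simp only [comp, of_apply]
      rw [RingHom.map_det]
      rfl
    have h7 : c (W y) = ∑ J : PS n p, (G.submatrix id (enum J)).det * c (w ⬝ᵥ comp p X J) := by
      simp only [W, map_sum, map_mul, h5, dotProduct, mul_sum]
      rw [sum_comm]
      refine sum_congr rfl fun J _ => sum_congr rfl fun I _ => ?_
      ring
    have h8 : c (W y) = 0 := by
      rw [h7]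
      refine sum_eq_zero fun J _ => ?_
      by_cases hJ : J = top
      · subst hJ
        rw [det_eq_zero_of_row_eq_zero z0, zero_mul]
        intro b
        simp only [submatrix_apply, id_eq, G, updateRow_self]
        exact hg _ (enum_mem J b)
      · rw [htop J hJ, map_zero, mul_zero]
    simpa [c] using h8

end Pool.Agent.Lib.Common.Subspace
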