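import Pool.Agent.Lib.Common.Subspace.GenRoth
import Pool.Agent.Lib.Common.Subspace.AuxPoly

/-! The Thue-Siegel-Roth-Schmidt argument for hyperplanes of large height. -/

namespace Pool.Agent.Lib.Common.Subspace

open MvPolynomial Finset Matrix

theorem core_prod_exp {σ : Type*} (μ : σ →₀ ℕ) (K : ℝ) (w : σ → ℝ) :
    μ.prod (fun s k => (K * Real.exp (w s)) ^ k) =
      K ^ μ.degree * Real.exp (Finsupp.weight w μ) := by
  rw [Finsupp.prod, Finsupp.weight_apply, Finsupp.sum, Finsupp.degree_apply, Real.exp_sum,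
    ← Finset.prod_pow_eq_pow_sum, ← Finset.prod_mul_distrib]
  refine Finset.prod_congr rfl fun s _ => ?_
  rw [mul_pow, nsmul_eq_mul, Real.exp_nat_mul]

theorem core_weight_mul {σ : Type*} (μ : σ →₀ ℕ) (a : ℝ) (w : σ → ℝ) :
    Finsupp.weight (fun s => a * w s) μ = a * Finsupp.weight w μ := by
  simp only [Finsupp.weight_apply, Finsupp.sum, Finset.mul_sum, nsmul_eq_mul]
  exact Finset.sum_congr rfl fun s _ => by ring

theorem core_mulVec {κ : Type*} [Fintype κ] [DecidableEq κ] (Y : Matrix κ κ ℤ) (ρ : κ → ℚ)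
    (j₀ α : κ) (h1 : ρ α = 1) (h2 : ∀ i, i ≠ j₀ → ∑ l, ρ l * (Y i l : ℚ) = 0) :
    ((Y.updateRow j₀ (Pi.single α 1)).map (Int.cast : ℤ → ℚ)) *ᵥ ρ = Pi.single j₀ 1 := by
  funext i
  by_cases hi : i = j₀
  · subst hi
    simp [Matrix.mulVec, dotProduct, Pi.single_apply, h1]
  · rw [Pi.single_eq_of_ne hi, ← h2 i hi]
    simp [Matrix.mulVec, dotProduct, Matrix.updateRow_ne hi, mul_comm]

theorem core_det_ne {κ : Type*} [Fintype κ] [DecidableEq κ] (Y : Matrix κ κ ℤ) (ρ : κ → ℚ)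
    (j₀ α : κ) (hY : Y.det ≠ 0) (h1 : ρ α = 1)
    (h2 : ∀ i, i ≠ j₀ → ∑ l, ρ l * (Y i l : ℚ) = 0) :
    ((Y.updateRow j₀ (Pi.single α 1)).map (Int.cast : ℤ → ℚ)).det ≠ 0 := by
  intro h
  obtain ⟨u, hu, h0⟩ := Matrix.exists_vecMul_eq_zero_iff.2 h
  have h3 : u j₀ = 0 := by
    have := Matrix.dotProduct_mulVec u
      ((Y.updateRow j₀ (Pi.single α 1)).map (Int.cast : ℤ → ℚ)) ρ
    rw [core_mulVec Y ρ j₀ α h1 h2, h0] at this
    simpa using this
  have h4 : (Y.map (Int.cast : ℤ → ℚ)).det = 0 := by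
    refine Matrix.exists_vecMul_eq_zero_iff.1 ⟨u, hu, ?_⟩
    rw [← h0]
    funext l
    simp only [Matrix.vecMul, dotProduct, Matrix.map_apply]
    refine Finset.sum_congr rfl fun i _ => ?_
    by_cases hi : i = j₀
    · rw [hi, h3, zero_mul, zero_mul]
    · rw [Matrix.updateRow_ne hi]
  exact hY (by exact_mod_cast (Int.cast_det Y).trans h4)

theorem core_hyp {ι κ : Type*} [Fintype κ] [DecidableEq κ] (ω : ι → ℝ) (hω : ∀ h, 0 ≤ ω h)
    (Z : ι → Matrix κ κ ℚ) (ρ : ι → κ → ℚ) (j₀ α : κ) (hZ : ∀ h, (Z h).det ≠ 0)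
    (h1 : ∀ h, ρ h α = 1) (h2 : ∀ h, Z h *ᵥ ρ h = Pi.single j₀ 1) {D : ℝ}
    {P : MvPolynomial (ι × κ) ℚ} (hP : InFil (bw ω j₀) D (lin (fun h => (Z h)ᵀ) P)) :
    InFil (bw ω α) D (lin (fun h => hypMat α (ρ h)) P) := by
  have hu : ∀ h, IsUnit (Z h)ᵀ.det := fun h => by
    rw [Matrix.det_transpose]; exact (hZ h).isUnit
  have e : lin (fun h => hypMat α (ρ h)) P =
      lin (fun h => (Z h)ᵀ⁻¹ * hypMat α (ρ h)) (lin (fun h => (Z h)ᵀ) P) := by
    rw [lin_lin]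
    simp only [Matrix.mul_nonsing_inv_cancel_left _ _ (hu _)]
  rw [e]
  refine InFil.aeval hP fun s => ?_
  obtain ⟨h, j⟩ := s
  by_cases hj : j = j₀
  · subst hj
    have h3 : Pi.single j (1 : ℚ) ᵥ* (Z h)ᵀ⁻¹ = ρ h := by
      rw [← h2 h, ← Matrix.vecMul_transpose, Matrix.vecMul_vecMul,
        Matrix.mul_nonsing_inv _ (hu h), Matrix.vecMul_one]
    have h4 : ∀ l, ((Z h)ᵀ⁻¹ * hypMat α (ρ h)) j l = if l = α then 1 else 0 := by
      intro l
      have h5 : ((Z h)ᵀ⁻¹ * hypMat α (ρ h)) j l = (ρ h ᵥ* hypMat α (ρ h)) l := by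
        rw [← h3, Matrix.vecMul_vecMul, h3]
        simp [Matrix.single_vecMul]
      rw [h5]
      simp only [Matrix.vecMul, dotProduct, hypMat, Matrix.of_apply]
      by_cases hl : l = α
      · subst hl
        rw [Finset.sum_eq_single l] <;> simp +contextual [h1]
      · rw [Finset.sum_eq_add l α hl] <;> simp +contextual [h1, hl, Ne.symm hl]
    have h6 : (∑ l, C (((Z h)ᵀ⁻¹ * hypMat α (ρ h)) j l) * X (h, l) : MvPolynomial (ι × κ) ℚ) =
        X (h, α) := by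
      rw [Finset.sum_eq_single α] <;> simp +contextual [h4]
    simp only [h6]
    simpa [bw] using inFil_X (ω := bw ω α) (h, α)
  · refine inFil_of_nonpos (fun s => ?_) (by simp [bw, hj]) _
    unfold bw
    split_ifs
    exacts [hω _, le_rfl]

theorem core_bound {ι κ : Type*} [Fintype ι] [Fintype κ] [DecidableEq κ]
    (v : AbsoluteValue ℚ ℝ) (hv1 : ∀ a : ℤ, v a ≤ |(a : ℝ)|)
    (hv2 : ∀ a : ℤ, a ≠ 0 → 1 ≤ v a * |(a : ℝ)|) (M : Matrix κ κ ℤ) (hM : M.det ≠ 0) (B : ℝ)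
    (hB1 : 1 ≤ B) (hB2 : ∀ i j, |((M i j : ℤ) : ℝ)| ≤ B)
    (hB3 : ∀ i j, |((M.adjugate i j : ℤ) : ℝ)| ≤ B) (hB4 : |((M.det : ℤ) : ℝ)| ≤ B)
    (c : κ → ℝ) (Γ : ℝ) (hΓ0 : 0 ≤ Γ) (hΓ : ∀ j, |c j| ≤ Γ) (ω : ι → ℝ) (hω : ∀ h, 0 ≤ ω h)
    (Y : ι → Matrix κ κ ℤ) (j₀ α : κ)
    (hY : ∀ h i j, i ≠ j₀ → v (((M *ᵥ Y h i) j : ℤ) : ℚ) ≤ Real.exp (c j * ω h))
    (d : ι → ℕ) (P : MvPolynomial (ι × κ) ℚ) (hP : IsInt P) (hd : BlockHom d P) (E D : ℝ)
    (hE : ∀ ν ∈ (lin (fun _ => M.adjugate.map (Int.cast : ℤ → ℚ)) P).support,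
      Finsupp.weight (fun s : ι × κ => ω s.1 * c s.2) ν ≤ E)
    (ν : ι × κ →₀ ℕ) (hν : Finsupp.weight (bw ω j₀) ν ≤ D) :
    v (coeff ν (lin (fun h =>
      (((Y h).updateRow j₀ (Pi.single α 1)).map (Int.cast : ℤ → ℚ))ᵀ) P)) ≤
      (B * (Fintype.card κ * B) ^ 2) ^ (∑ h, d h) * len P * Real.exp (Γ * D + E) := by
  set Z : ι → Matrix κ κ ℚ := fun h =>
    (((Y h).updateRow j₀ (Pi.single α 1)).map (Int.cast : ℤ → ℚ))ᵀ with hZ
  set R := lin (fun _ : ι => M.adjugate.map (Int.cast : ℤ → ℚ)) P with hR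
  set n := ∑ h, d h
  set K : ℝ := Fintype.card κ * B with hK
  have hK0 : 0 ≤ K := by positivity
  let r : ι × κ → ℝ := fun s => 1 * Real.exp (-Γ * bw ω j₀ s)
  have hr : ∀ s, 0 ≤ r s := fun s => by positivity
  have e : lin (fun h => M.map (Int.cast : ℤ → ℚ) * Z h) R = C ((M.det : ℚ) ^ n) * lin Z P := by
    rw [hR, lin_lin, ← hd.lin_smul]
    congr 2
    funext h
    have := (Int.castRingHom ℚ).map_adjugate M
    have h2 := (Int.castRingHom ℚ).map_det M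
    simp only [RingHom.mapMatrix_apply, Int.coe_castRingHom, eq_intCast] at this h2
    rw [this, ← Matrix.mul_assoc, Matrix.adjugate_mul, ← h2, Matrix.smul_mul, Matrix.one_mul]
  have hform : ∀ s : ι × κ, nrm v r (∑ l, C ((M.map (Int.cast : ℤ → ℚ) * Z s.1) s.2 l) *
      X (s.1, l)) ≤ K * Real.exp (ω s.1 * c s.2) := by
    rintro ⟨h, j⟩
    refine (nrm_sum_le hr _ _).trans ?_
    rw [hK, mul_assoc, ← nsmul_eq_mul, ← Finset.card_univ]
    refine Finset.sum_le_card_nsmul _ _ _ fun l _ => ?_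
    rw [nrm_C_mul, nrm_X]
    by_cases hl : l = j₀
    · subst hl
      have h1 : (M.map (Int.cast : ℤ → ℚ) * Z h) j l = (M j α : ℤ) := by
        simp [hZ, Matrix.mul_apply, Pi.single_apply]
      rw [h1]
      refine mul_le_mul ((hv1 _).trans (hB2 _ _)) ?_ (hr _) (by positivity)
      simp only [r, bw, one_mul, if_true]
      refine Real.exp_le_exp.2 ?_
      have := (abs_le.1 (hΓ j)).1
      nlinarith [hω h]
    · have h1 : (M.map (Int.cast : ℤ → ℚ) * Z h) j l = ((M *ᵥ Y h l) j : ℤ) := by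
        simp [hZ, Matrix.mul_apply, Matrix.mulVec, dotProduct, Matrix.updateRow_ne hl]
      rw [h1]
      simp only [r, bw, if_neg hl, mul_zero, Real.exp_zero, mul_one]
      refine (hY h l j hl).trans ?_
      rw [mul_comm (c j)]
      exact le_mul_of_one_le_left (Real.exp_pos _).le hB1
  have hRd : BlockHom d R := hd.lin _
  have h1 : nrm v r (C ((M.det : ℚ) ^ n) * lin Z P) ≤ K ^ n * Real.exp E * (K ^ n * len P) := by
    rw [← e]
    refine (nrm_aeval_le hr _ R).trans ((nrm_mono (fun s => nrm_nonneg hr _) hform R).trans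
      ((nrm_le_mul R (K ^ n * Real.exp E) fun μ hμ => ?_).trans ?_))
    · rw [core_prod_exp, hRd.degree_eq hμ]
      exact mul_le_mul_of_nonneg_left (Real.exp_le_exp.2 (hE μ hμ)) (by positivity)
    · refine mul_le_mul_of_nonneg_left ((nrm_le_len (hP.lin fun _ => M.adjugate) hv1).trans
        (len_lin_le hd _ B fun _ i j => ?_)) (by positivity)
      simpa using hB3 i j
  have h2 := (coeff_le_nrm hr _ ν).trans h1
  rw [coeff_C_mul, map_mul, map_pow, core_prod_exp, core_weight_mul, one_pow, one_mul] at h2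
  have h3 : 1 ≤ v M.det * B :=
    (hv2 _ hM).trans (mul_le_mul_of_nonneg_left hB4 (v.nonneg _))
  have h4 : 1 ≤ Real.exp (-Γ * Finsupp.weight (bw ω j₀) ν) * Real.exp (Γ * D) := by
    rw [← Real.exp_add]
    exact Real.one_le_exp (by nlinarith)
  set z := v (coeff ν (lin Z P))
  have hz : 0 ≤ z := v.nonneg _
  calc z = 1 * z * 1 := by ring
    _ ≤ (v M.det * B) ^ n * z *
        (Real.exp (-Γ * Finsupp.weight (bw ω j₀) ν) * Real.exp (Γ * D)) := by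
      have := one_le_pow₀ (n := n) h3
      gcongr
    _ = (v M.det ^ n * z * Real.exp (-Γ * Finsupp.weight (bw ω j₀) ν)) *
        (B ^ n * Real.exp (Γ * D)) := by ring
    _ ≤ K ^ n * Real.exp E * (K ^ n * len P) * (B ^ n * Real.exp (Γ * D)) := by gcongr
    _ = _ := by rw [Real.exp_add]; ring

theorem core {Pl κ : Type*} [Fintype Pl] [Fintype κ] [DecidableEq κ]
    (v : Pl → AbsoluteValue ℚ ℝ) (hv : Places v) (M : Pl → Matrix κ κ ℤ)
    (hM : ∀ p, (M p).det ≠ 0) (c : Pl → κ → ℝ) (δ : ℝ) (hδ : 0 < δ)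
    (hc : ∑ p, ∑ j, c p j ≤ -δ) (γ : ℝ) (hγ : 0 < γ) (j₀ α β : κ) (hαβ : α ≠ β) :
    ∃ (m : ℕ) (ε : ℝ), 0 < ε ∧ ∀ (ω : Fin m → ℝ) (Y : Fin m → Matrix κ κ ℤ)
      (ρ : Fin m → κ → ℚ), (∀ h, 1 ≤ ε * ω h) →
      (∀ h h', h ≠ h' → ω h ≤ ε * ω h' ∨ ω h' ≤ ε * ω h) →
      (∀ h, (Y h).det ≠ 0) → (∀ h, ρ h α = 1) →
      (∀ h i, i ≠ j₀ → ∑ l, ρ h l * (Y h i l : ℚ) = 0) →
      (∀ h, γ * ω h ≤ Real.log (ρ h β).den) →
      (∀ h p i j, i ≠ j₀ → v p (((M p *ᵥ Y h i) j : ℤ) : ℚ) ≤ Real.exp (c p j * ω h)) →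
      False := by
  classical
  have : Nonempty κ := ⟨α⟩
  have : Nonempty Pl := by
    by_contra h
    rw [not_nonempty_iff] at h
    simp at hc
    linarith
  set N : ℝ := (Fintype.card κ : ℝ) with hN
  set s : ℝ := (Fintype.card Pl : ℝ) with hs
  have hN1 : 1 ≤ N := Nat.one_le_cast.2 Fintype.card_pos
  have hs1 : 1 ≤ s := Nat.one_le_cast.2 Fintype.card_pos
  obtain ⟨Γ, hΓ0, hΓ⟩ : ∃ Γ : ℝ, 0 ≤ Γ ∧ ∀ p j, |c p j| ≤ Γ := by
    obtain ⟨Γ, h⟩ := Finite.exists_le fun z : Pl × κ => |c z.1 z.2|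
    exact ⟨max 0 Γ, le_max_left _ _, fun p j => (h (p, j)).trans (le_max_right _ _)⟩
  obtain ⟨B, hB1, hB2, hB3, hB4⟩ : ∃ B : ℝ, 1 ≤ B ∧ (∀ p i j, |((M p i j : ℤ) : ℝ)| ≤ B) ∧
      (∀ p i j, |(((M p).adjugate i j : ℤ) : ℝ)| ≤ B) ∧ ∀ p, |(((M p).det : ℤ) : ℝ)| ≤ B := by
    obtain ⟨B, h⟩ := Finite.exists_le fun z : Pl × κ × κ => max |((M z.1 z.2.1 z.2.2 : ℤ) : ℝ)|
      (max |(((M z.1).adjugate z.2.1 z.2.2 : ℤ) : ℝ)| |(((M z.1).det : ℤ) : ℝ)|)
    simp only [max_le_iff] at h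
    exact ⟨max 1 B, le_max_left _ _, fun p i j => le_max_of_le_right (h (p, i, j)).1,
      fun p i j => le_max_of_le_right (h (p, i, j)).2.1,
      fun p => le_max_of_le_right (h (p, α, α)).2.2⟩
  set η := δ / (8 * N * s) with hη
  have hη0 : 0 < η := by positivity
  obtain ⟨m, hm⟩ := exists_nat_ge (max 1 (max (8 * s * Γ ^ 2 / η ^ 2) (8 * N * s * Γ / δ)))
  simp only [max_le_iff] at hm
  obtain ⟨hm1, hm2, hm3⟩ := hm
  rw [div_le_iff₀ (by positivity)] at hm2 hm3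
  have : Nonempty (Fin m) := ⟨⟨0, Nat.one_le_cast.1 hm1⟩⟩
  obtain ⟨ε₀, hε₀, hroth⟩ := genRoth (Fin m) κ γ hγ
  set C₁ : ℝ := 4 ^ Fintype.card κ * N * B with hC₁
  set C₂ : ℝ := B * (N * B) ^ 2 * C₁ with hC₂
  have hC₁1 : 1 ≤ C₁ := one_le_mul_of_one_le_of_one_le
    (one_le_mul_of_one_le_of_one_le (one_le_pow₀ (by norm_num)) hN1) hB1
  have hC₂1 : 1 ≤ C₂ := one_le_mul_of_one_le_of_one_le (one_le_mul_of_one_le_of_one_le hB1
    (one_le_pow₀ (one_le_mul_of_one_le_of_one_le hN1 hB1))) hC₁1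
  have hl₁ := Real.log_nonneg hC₁1
  have hl₂ := Real.log_nonneg hC₂1
  obtain ⟨ε, hε, hε1, hε2, hε3⟩ : ∃ ε : ℝ, 0 < ε ∧ ε ≤ ε₀ ∧ m * ε * Real.log C₁ ≤ ε₀ ∧
      s * ε * Real.log C₂ ≤ δ / (8 * N) := by
    refine ⟨min ε₀ (min (ε₀ / (m * Real.log C₁ + 1)) (δ / (8 * N) / (s * Real.log C₂ + 1))),
      by positivity, min_le_left _ _, ?_, ?_⟩
    · have := (le_div_iff₀ (by positivity)).1 ((min_le_right ε₀ _).trans
        (min_le_left (ε₀ / (m * Real.log C₁ + 1)) (δ / (8 * N) / (s * Real.log C₂ + 1))))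
      have h0 : 0 < min ε₀ (min (ε₀ / (m * Real.log C₁ + 1))
        (δ / (8 * N) / (s * Real.log C₂ + 1))) := by positivity
      nlinarith
    · have := (le_div_iff₀ (by positivity)).1 ((min_le_right ε₀ _).trans
        (min_le_right (ε₀ / (m * Real.log C₁ + 1)) (δ / (8 * N) / (s * Real.log C₂ + 1))))
      have h0 : 0 < min ε₀ (min (ε₀ / (m * Real.log C₁ + 1))
        (δ / (8 * N) / (s * Real.log C₂ + 1))) := by positivity
      nlinarith
  refine ⟨m, ε, hε, fun ω Y ρ h1 h2 hY hρ1 hρ2 hρ3 hb => ?_⟩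
  have hω : ∀ h, 0 < ω h := fun h => (mul_pos_iff_of_pos_left hε).1 (one_pos.trans_le (h1 h))
  set D := 2 * ∑ h, ω h + 1 with hD
  have hωD : ∀ h, 2 * ω h ≤ D := fun h => by
    have := Finset.single_le_sum (f := ω) (fun h _ => (hω h).le) (Finset.mem_univ h)
    linarith
  have hD0 : 0 < D := by
    have := Finset.sum_nonneg (s := Finset.univ) (f := ω) fun h _ => (hω h).le
    linarith
  let d : Fin m → ℕ := fun h => ⌊D / ω h⌋₊
  have hd1 : ∀ h, ω h * d h ≤ D := fun h => by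
    rw [mul_comm, ← le_div_iff₀ (hω h)]
    exact Nat.floor_le (div_pos hD0 (hω h)).le
  have hd2 : ∀ h, D / 2 ≤ ω h * d h := fun h => by
    have := (div_lt_iff₀ (hω h)).1 (Nat.lt_floor_add_one (D / ω h))
    have := hωD h
    nlinarith
  have hd3 : ((∑ h, d h : ℕ) : ℝ) ≤ m * ε * D := by
    push_cast
    refine (Finset.sum_le_card_nsmul _ _ (ε * D) fun h _ => ?_).trans (by simp [mul_assoc])
    have := hd1 h
    have := h1 h
    have : (0 : ℝ) ≤ d h := Nat.cast_nonneg _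
    nlinarith
  have hW : m * (D / 2) ≤ ∑ h, ω h * d h := by
    simpa using Finset.card_nsmul_le_sum Finset.univ _ _ fun h _ => hd2 h
  have hpow : ∀ C : ℝ, 1 ≤ C → C ^ (∑ h, d h) ≤ Real.exp (m * ε * D * Real.log C) := by
    intro C hC
    rw [← Real.exp_log (pow_pos (one_pos.trans_le hC) _), Real.log_pow]
    exact Real.exp_le_exp.2 (mul_le_mul_of_nonneg_right hd3 (Real.log_nonneg hC))
  obtain ⟨P, hP0, hP1, hP2, hP3, hP4⟩ := exists_aux (ι := Fin m) (fun p => (M p).adjugate) B hB1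
    hB3 c Γ hΓ η hη0 (by simpa [mul_comm] using hm2) ω (fun h => (hω h).le) d D hD0 hd1
  refine hroth α β hαβ ω (fun h => (h1 h).trans (by gcongr; exact (hω h).le))
    (fun h h' hne => (h2 h h' hne).imp (fun e => e.trans (by gcongr; exact (hω _).le))
      fun e => e.trans (by gcongr; exact (hω _).le)) ρ hρ3 D hD0 d hd1 P hP0 hP1 hP2
    (hP3.trans ((hpow C₁ hC₁1).trans (Real.exp_le_exp.2 (by nlinarith)))) ?_
  refine core_hyp ω (fun h => (hω h).le)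
    (fun h => ((Y h).updateRow j₀ (Pi.single α 1)).map (Int.cast : ℤ → ℚ)) ρ j₀ α
    (fun h => core_det_ne _ (ρ h) j₀ α (hY h) (hρ1 h) (hρ2 h)) hρ1
    (fun h => core_mulVec _ (ρ h) j₀ α (hρ1 h) (hρ2 h)) fun ν hν => ?_
  by_contra hlt
  obtain ⟨z, hz⟩ := hP1.lin (fun h => ((Y h).updateRow j₀ (Pi.single α 1))ᵀ) ν
  simp only [Matrix.transpose_map] at hz
  have hz0 : z ≠ 0 := by
    rintro rfl
    exact mem_support_iff.1 hν (by simpa using hz)
  have key : ∀ p, v p z ≤ Real.exp (m * ε * D * Real.log C₂ + Γ * D + η * m * D +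
      (∑ j, c p j) / N * ∑ h, ω h * d h) := by
    intro p
    have := core_bound (v p) (hv.1 p) (hv.2.1 p) (M p) (hM p) B hB1 (hB2 p) (hB3 p) (hB4 p) (c p)
      Γ hΓ0 (hΓ p) ω (fun h => (hω h).le) Y j₀ α (fun h => hb h p) d P hP1 hP2 _ D (hP4 p) ν
      (not_le.1 hlt).le
    rw [hz] at this
    refine this.trans ?_
    calc _ ≤ (B * (N * B) ^ 2) ^ (∑ h, d h) * C₁ ^ (∑ h, d h) * Real.exp _ := by gcongr
      _ ≤ Real.exp (m * ε * D * Real.log C₂) * Real.exp _ := by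
        rw [← mul_pow]
        exact mul_le_mul_of_nonneg_right (hpow C₂ hC₂1) (Real.exp_pos _).le
      _ = _ := by
        rw [← Real.exp_add, Fintype.card_fin]
        congr 1
        ring
  have hfin := (hv.2.2 z hz0).trans (Finset.prod_le_prod (fun p _ => (v p).nonneg _)
    fun p _ => key p)
  rw [← Real.exp_sum, Real.one_le_exp_iff, Finset.sum_add_distrib, ← Finset.sum_mul,
    ← Finset.sum_div, Finset.sum_const, nsmul_eq_mul, Finset.card_univ, ← hs] at hfin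
  have hmD : 0 < m * D := by positivity
  have e1 : s * (m * ε * D * Real.log C₂) ≤ m * D * (δ / (8 * N)) := by nlinarith
  have e2 : s * (Γ * D) ≤ m * D * (δ / (8 * N)) := by
    rw [← mul_div_assoc, le_div_iff₀ (by positivity)]
    nlinarith
  have e3 : s * (η * m * D) = m * D * (δ / (8 * N)) := by
    rw [hη]
    field_simp
  have e4 : (∑ p, ∑ j, c p j) / N * ∑ h, ω h * d h ≤ -(4 * (m * D * (δ / (8 * N)))) := by
    have f1 : (∑ p, ∑ j, c p j) / N ≤ -δ / N := by gcongr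
    have f2 : 0 < δ / N := by positivity
    have f3 : -(4 * (m * D * (δ / (8 * N)))) = -δ / N * (m * (D / 2)) := by
      field_simp
      ring
    rw [f3]
    rw [neg_div] at f1 ⊢
    nlinarith
  have e5 : 0 < m * D * (δ / (8 * N)) := by positivity
  nlinarith

end Pool.Agent.Lib.Common.Subspace
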