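import Mathlib

/-! Definitions for the p-adic Subspace Theorem over the rationals. -/

namespace Pool.Agent.Lib.Common.Subspace

open MvPolynomial Finset

variable {σ : Type*}

/-- Weighted l1 norm of a polynomial with respect to an absolute value `v` and radii `ρ`. -/
noncomputable def nrm (v : AbsoluteValue ℚ ℝ) (ρ : σ → ℝ) (P : MvPolynomial σ ℚ) : ℝ :=
  ∑ μ ∈ P.support, v (coeff μ P) * μ.prod (fun s k => ρ s ^ k)

/-- The length: sum of the usual absolute values of the coefficients. -/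
noncomputable def len (P : MvPolynomial σ ℚ) : ℝ :=
  nrm Rat.AbsoluteValue.real (fun _ => 1) P

/-- All coefficients are integers. -/
def IsInt (P : MvPolynomial σ ℚ) : Prop := ∀ μ, ∃ z : ℤ, coeff μ P = z

/-- Every monomial of `P` has `ω`-weight at least `θ`. -/
def InFil (ω : σ → ℝ) (θ : ℝ) (P : MvPolynomial σ ℚ) : Prop :=
  ∀ μ ∈ P.support, θ ≤ Finsupp.weight ω μ

/-- Product of binomial coefficients. -/
def bin (μ ν : σ →₀ ℕ) : ℕ := μ.prod (fun s k => (ν s).choose k)

/-- The diagonal operator multiplying the coefficient of `X ^ ν` by `c ν`. -/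
noncomputable def diag (c : (σ →₀ ℕ) → ℚ) : MvPolynomial σ ℚ →ₗ[ℚ] MvPolynomial σ ℚ :=
  (basisMonomials σ ℚ).constr ℚ (fun ν => monomial ν (c ν))

/-- `X ^ μ` times the Hasse derivative of order `μ`. -/
noncomputable def hd (μ : σ →₀ ℕ) : MvPolynomial σ ℚ →ₗ[ℚ] MvPolynomial σ ℚ :=
  diag (fun ν => (bin μ ν : ℚ))

/-- Translation of the variables by `ξ`. -/
noncomputable def shift (ξ : σ → ℚ) : MvPolynomial σ ℚ →ₐ[ℚ] MvPolynomial σ ℚ :=
  aeval (fun s => X s + C (ξ s))

variable {ι κ : Type*}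

/-- Blockwise linear substitution. -/
noncomputable def lin [Fintype κ] (A : ι → Matrix κ κ ℚ) :
    MvPolynomial (ι × κ) ℚ →ₐ[ℚ] MvPolynomial (ι × κ) ℚ :=
  aeval (fun s => ∑ l, C (A s.1 s.2 l) * X (s.1, l))

/-- Homogeneous of degree `d h` in the block `h`. -/
def BlockHom [Fintype κ] (d : ι → ℕ) (P : MvPolynomial (ι × κ) ℚ) : Prop :=
  ∀ μ ∈ P.support, ∀ h, ∑ j, μ (h, j) = d h

/-- Weight `ω h` on the variable `(h, α)`, zero on the others. -/
def bw [DecidableEq κ] (ω : ι → ℝ) (α : κ) : ι × κ → ℝ := fun s => if s.2 = α then ω s.1 else 0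

/-- Matrix of the substitution `X α ↦ X α - ∑ l ≠ α, ρ l * X l`. -/
def hypMat [DecidableEq κ] (α : κ) (ρ : κ → ℚ) : Matrix κ κ ℚ :=
  Matrix.of fun j l => if j = l then 1 else if j = α then -ρ l else 0

/-- The three properties of a finite family of absolute values that the proof uses. -/
def Places {Pl : Type*} [Fintype Pl] (v : Pl → AbsoluteValue ℚ ℝ) : Prop :=
  (∀ p (a : ℤ), v p a ≤ |(a : ℝ)|) ∧ (∀ p (a : ℤ), a ≠ 0 → 1 ≤ v p a * |(a : ℝ)|) ∧
    ∀ a : ℤ, a ≠ 0 → 1 ≤ ∏ p, v p a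

/-- Subsets of `Fin n` of cardinality `p`. -/
abbrev PS (n p : ℕ) := {I : Finset (Fin n) // I.card = p}

/-- Increasing enumeration of a `p`-subset. -/
def enum {n p : ℕ} (I : PS n p) : Fin p → Fin n := I.1.orderEmbOfFin I.2

/-- The `p`-th compound matrix. -/
def comp {R : Type*} [CommRing R] {n : ℕ} (p : ℕ) (A : Matrix (Fin n) (Fin n) R) :
    Matrix (PS n p) (PS n p) R :=
  Matrix.of fun I J => (A.submatrix (enum I) (enum J)).det

end Pool.Agent.Lib.Common.Subspace
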