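import Pool.Agent.Lib.Common.Subspace.Norm

/-! The weight filtration, the operators `hd μ`, and blockwise linear substitutions. -/

namespace Pool.Agent.Lib.Common.Subspace

open MvPolynomial Finset

variable {σ τ : Type*} {ω : σ → ℝ}

theorem fil_monomial (μ : σ →₀ ℕ) (c : ℚ) : InFil ω (Finsupp.weight ω μ) (monomial μ c) := by
  intro ν hν
  rw [Finset.mem_singleton.1 (support_monomial_subset hν)]

theorem fil_diag_monomial (c : (σ →₀ ℕ) → ℚ) (ν : σ →₀ ℕ) (a : ℚ) :
    diag c (monomial ν a) = monomial ν (c ν * a) := by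
  have h1 : (monomial ν a : MvPolynomial σ ℚ) = a • basisMonomials σ ℚ ν := by
    simp [smul_monomial]
  rw [h1, map_smul, diag, Module.Basis.constr_basis, smul_monomial, smul_eq_mul, mul_comm]

theorem fil_bin_eq (μ ν : σ →₀ ℕ) (t : Finset σ) (ht : μ.support ⊆ t) :
    bin μ ν = ∏ s ∈ t, (ν s).choose (μ s) :=
  Finsupp.prod_of_support_subset μ ht _ fun _ _ => Nat.choose_zero_right _

theorem fil_coeff_X_mul_pderiv (s : σ) (R : MvPolynomial σ ℚ) (ν : σ →₀ ℕ) :
    coeff ν (X s * pderiv s R) = (ν s : ℚ) * coeff ν R := by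
  classical
  induction R using MvPolynomial.induction_on' with
  | monomial μ a =>
    rw [X_mul_pderiv_monomial, coeff_smul, coeff_monomial]
    split_ifs with h
    · rw [h, nsmul_eq_mul]
    · simp
  | add p q hp hq => rw [map_add, mul_add, coeff_add, coeff_add, hp, hq, mul_add]

theorem fil_shift_pderiv (ξ : σ → ℚ) (s : σ) (R : MvPolynomial σ ℚ) :
    shift ξ (pderiv s R) = pderiv s (shift ξ R) := by
  classical
  induction R using MvPolynomial.induction_on with
  | C a => simp [shift]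
  | add p q hp hq => simp only [map_add, hp, hq]
  | mul_X p t hp =>
    have h1 : shift ξ (X t) = X t + C (ξ t) := aeval_X _ _
    have h2 : shift ξ (pderiv s (X t)) = pderiv s (X t) := by
      rw [pderiv_X]
      by_cases h : t = s
      · subst h; simp
      · simp [Pi.single_eq_of_ne h]
    simp only [map_mul, Derivation.leibniz, smul_eq_mul, map_add, hp, h1, h2, pderiv_C, add_zero]

theorem fil_weight_block {ι κ : Type*} [Fintype κ] [DecidableEq ι] (h : ι) (c : ℝ)
    (μ : ι × κ →₀ ℕ) :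
    Finsupp.weight (fun s : ι × κ => if s.1 = h then c else 0) μ = (∑ j, μ (h, j) : ℕ) * c := by
  classical
  induction μ using Finsupp.induction_linear with
  | zero => simp
  | add f g hf hg =>
    rw [map_add, hf, hg]
    simp only [Finsupp.add_apply, Finset.sum_add_distrib]
    push_cast
    ring
  | single a b =>
    obtain ⟨i, j⟩ := a
    rw [Finsupp.weight_single]
    by_cases hi : i = h
    · subst hi
      simp [Finsupp.single_apply]
    · simp [hi]

theorem InFil.mono {θ θ' : ℝ} {P : MvPolynomial σ ℚ} (h : InFil ω θ P) (hθ : θ' ≤ θ) :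
    InFil ω θ' P := by
  exact fun μ hμ => hθ.trans (h μ hμ)

theorem inFil_of_nonpos (hω : ∀ s, 0 ≤ ω s) {θ : ℝ} (hθ : θ ≤ 0) (P : MvPolynomial σ ℚ) :
    InFil ω θ P := by
  refine fun μ _ => hθ.trans ?_
  rw [Finsupp.weight_apply]
  exact Finset.sum_nonneg fun s _ => nsmul_nonneg (hω s) _

theorem inFil_zero (θ : ℝ) : InFil ω θ (0 : MvPolynomial σ ℚ) := by
  intro μ hμ
  simp at hμ

theorem inFil_C (c : ℚ) : InFil ω 0 (C c : MvPolynomial σ ℚ) := by
  have := fil_monomial (ω := ω) 0 c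
  simpa using this

theorem inFil_one : InFil ω 0 (1 : MvPolynomial σ ℚ) := by
  have := inFil_C (ω := ω) 1
  simpa using this

theorem inFil_X (s : σ) : InFil ω (ω s) (X s : MvPolynomial σ ℚ) := by
  have := fil_monomial (ω := ω) (Finsupp.single s 1) 1
  simpa [Finsupp.weight_single, X] using this

theorem InFil.of_support_subset {θ : ℝ} {P Q : MvPolynomial σ ℚ} (h : InFil ω θ P)
    (hQ : Q.support ⊆ P.support) : InFil ω θ Q := by
  exact fun μ hμ => h μ (hQ hμ)

theorem InFil.add {θ : ℝ} {P Q : MvPolynomial σ ℚ} (hP : InFil ω θ P) (hQ : InFil ω θ Q) :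
    InFil ω θ (P + Q) := by
  classical
  intro μ hμ
  rcases Finset.mem_union.1 (support_add hμ) with h | h
  · exact hP μ h
  · exact hQ μ h

theorem InFil.neg {θ : ℝ} {P : MvPolynomial σ ℚ} (hP : InFil ω θ P) : InFil ω θ (-P) := by
  exact hP.of_support_subset (by simp)

theorem InFil.smul {θ : ℝ} {P : MvPolynomial σ ℚ} (hP : InFil ω θ P) (c : ℚ) :
    InFil ω θ (c • P) := by
  exact hP.of_support_subset support_smul

theorem inFil_sum {θ : ℝ} {I : Type*} (s : Finset I) (f : I → MvPolynomial σ ℚ)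
    (h : ∀ i ∈ s, InFil ω θ (f i)) : InFil ω θ (∑ i ∈ s, f i) := by
  classical
  induction s using Finset.induction_on with
  | empty => simpa using inFil_zero θ
  | insert a s ha ih =>
    rw [Finset.sum_insert ha]
    exact (h a (Finset.mem_insert_self _ _)).add (ih fun i hi => h i (Finset.mem_insert_of_mem hi))

theorem InFil.mul {θ θ' : ℝ} {P Q : MvPolynomial σ ℚ} (hP : InFil ω θ P) (hQ : InFil ω θ' Q) :
    InFil ω (θ + θ') (P * Q) := by
  classical
  intro μ hμ
  obtain ⟨a, ha, b, hb, rfl⟩ := Finset.mem_add.1 (support_mul P Q hμ)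
  rw [map_add]
  exact add_le_add (hP a ha) (hQ b hb)

theorem inFil_prod {I : Type*} (s : Finset I) (θ : I → ℝ) (f : I → MvPolynomial σ ℚ)
    (h : ∀ i ∈ s, InFil ω (θ i) (f i)) : InFil ω (∑ i ∈ s, θ i) (∏ i ∈ s, f i) := by
  classical
  induction s using Finset.induction_on with
  | empty => simpa using inFil_one
  | insert a s ha ih =>
    rw [Finset.sum_insert ha, Finset.prod_insert ha]
    exact (h a (Finset.mem_insert_self _ _)).mul (ih fun i hi => h i (Finset.mem_insert_of_mem hi))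

theorem InFil.pow {θ : ℝ} {P : MvPolynomial σ ℚ} (hP : InFil ω θ P) (k : ℕ) :
    InFil ω (k * θ) (P ^ k) := by
  have := inFil_prod (ω := ω) (Finset.range k) (fun _ => θ) (fun _ => P) fun _ _ => hP
  simpa using this

theorem inFil_det {n : Type*} [Fintype n] [DecidableEq n] (A : Matrix n n (MvPolynomial σ ℚ))
    (θ : n → ℝ) (h : ∀ i j, InFil ω (θ j) (A i j)) : InFil ω (∑ j, θ j) A.det := by
  rw [Matrix.det_apply]
  refine inFil_sum _ _ fun g _ => ?_
  have h1 := inFil_prod Finset.univ θ (fun i => A (g i) i) fun i _ => h _ _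
  rcases Int.units_eq_one_or (Equiv.Perm.sign g) with h2 | h2
  · simpa [h2] using h1
  · simpa [h2] using h1.neg

theorem InFil.aeval {ω' : τ → ℝ} {θ : ℝ} {P : MvPolynomial σ ℚ} (hP : InFil ω θ P)
    {f : σ → MvPolynomial τ ℚ} (hf : ∀ s, InFil ω' (ω s) (f s)) : InFil ω' θ (aeval f P) := by
  rw [P.as_sum, map_sum]
  refine inFil_sum _ _ fun μ hμ => ?_
  rw [aeval_monomial, algebraMap_eq]
  have h1 := (inFil_C (ω := ω') (coeff μ P)).mul
    (inFil_prod μ.support (fun s => μ s * ω s) (fun s => f s ^ μ s) fun s _ => (hf s).pow _)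
  refine h1.mono ?_
  have h2 := hP μ hμ
  rw [Finsupp.weight_apply] at h2
  simpa [Finsupp.sum] using h2

theorem InFil.pderiv {θ : ℝ} {P : MvPolynomial σ ℚ} (hP : InFil ω θ P) (s : σ) :
    InFil ω (θ - ω s) (pderiv s P) := by
  rw [P.as_sum, map_sum]
  refine inFil_sum _ _ fun μ hμ => ?_
  rw [pderiv_monomial]
  by_cases h : μ s = 0
  · simpa [h] using inFil_zero (θ - ω s)
  · refine (fil_monomial _ _).mono ?_
    have h1 : μ - Finsupp.single s 1 + Finsupp.single s 1 = μ :=
      Finsupp.sub_add_single_one_cancel h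
    have h2 := hP μ hμ
    rw [← h1, map_add, Finsupp.weight_single, one_smul] at h2
    linarith

/-- Cancelling a monomial factor. -/
theorem InFil.of_monomial_mul {θ : ℝ} {P : MvPolynomial σ ℚ} (μ : σ →₀ ℕ)
    (h : InFil ω θ (monomial μ 1 * P)) : InFil ω (θ - Finsupp.weight ω μ) P := by
  intro ν hν
  have h1 : μ + ν ∈ (monomial μ (1 : ℚ) * P).support := by
    rw [mem_support_iff, coeff_monomial_mul, one_mul]
    exact mem_support_iff.1 hν
  have h2 := h _ h1
  rw [map_add] at h2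
  linarith

theorem coeff_diag (c : (σ →₀ ℕ) → ℚ) (P : MvPolynomial σ ℚ) (ν : σ →₀ ℕ) :
    coeff ν (diag c P) = c ν * coeff ν P := by
  classical
  induction P using MvPolynomial.induction_on' with
  | monomial μ a =>
    rw [fil_diag_monomial, coeff_monomial, coeff_monomial]
    split_ifs with h
    · rw [h]
    · rw [mul_zero]
  | add p q hp hq => rw [map_add, coeff_add, coeff_add, hp, hq, mul_add]

theorem coeff_hd (μ : σ →₀ ℕ) (P : MvPolynomial σ ℚ) (ν : σ →₀ ℕ) :
    coeff ν (hd μ P) = (bin μ ν : ℚ) * coeff ν P := by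
  exact coeff_diag _ P ν

theorem hd_monomial (μ ν : σ →₀ ℕ) (c : ℚ) :
    hd μ (monomial ν c) = monomial ν ((bin μ ν : ℚ) * c) := by
  exact fil_diag_monomial _ ν c

theorem support_hd_subset (μ : σ →₀ ℕ) (P : MvPolynomial σ ℚ) :
    (hd μ P).support ⊆ P.support := by
  intro ν hν
  rw [mem_support_iff] at hν ⊢
  intro h
  exact hν (by rw [coeff_hd, h, mul_zero])

theorem IsInt.hd {P : MvPolynomial σ ℚ} (hP : IsInt P) (μ : σ →₀ ℕ) : IsInt (hd μ P) := by
  intro ν
  obtain ⟨z, hz⟩ := hP ν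
  exact ⟨bin μ ν * z, by rw [coeff_hd, hz]; push_cast; rfl⟩

theorem bin_zero (ν : σ →₀ ℕ) : bin 0 ν = 1 := by
  simp [bin]

/-- The recursion `(k+1) * choose n (k+1) = (n - k) * choose n k`, in one coordinate. -/
theorem bin_add_single (μ ν : σ →₀ ℕ) (s : σ) :
    ((μ s : ℚ) + 1) * (bin (μ + Finsupp.single s 1) ν : ℚ) = ((ν s : ℚ) - μ s) * bin μ ν := by
  classical
  rw [fil_bin_eq (μ + Finsupp.single s 1) ν (insert s μ.support) ?_,
    fil_bin_eq μ ν (insert s μ.support) (Finset.subset_insert _ _),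
    ← Finset.mul_prod_erase _ _ (Finset.mem_insert_self s μ.support),
    ← Finset.mul_prod_erase _ _ (Finset.mem_insert_self s μ.support)]
  · have h1 : ∏ x ∈ (insert s μ.support).erase s, (ν x).choose ((μ + Finsupp.single s 1 : σ →₀ ℕ) x) =
        ∏ x ∈ (insert s μ.support).erase s, (ν x).choose (μ x) := by
      refine Finset.prod_congr rfl fun x hx => ?_
      rw [Finsupp.add_apply, Finsupp.single_eq_of_ne (Finset.ne_of_mem_erase hx), add_zero]
    have h2 : ((μ s : ℚ) + 1) * ((ν s).choose (μ s + 1) : ℚ) =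
        ((ν s : ℚ) - μ s) * ((ν s).choose (μ s) : ℚ) := by
      rcases le_or_gt (μ s) (ν s) with h | h
      · have h3 := Nat.choose_succ_right_eq (ν s) (μ s)
        have h4 : (((ν s).choose (μ s + 1) * (μ s + 1) : ℕ) : ℚ) =
            (((ν s).choose (μ s) * (ν s - μ s) : ℕ) : ℚ) := by rw [h3]
        push_cast [Nat.cast_sub h] at h4
        linarith
      · rw [Nat.choose_eq_zero_of_lt h, Nat.choose_eq_zero_of_lt (Nat.lt_succ_of_lt h)]
        simp
    rw [h1, Finsupp.add_apply, Finsupp.single_eq_same]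
    push_cast
    rw [← mul_assoc, h2, mul_assoc]
  · refine Finsupp.support_add.trans (Finset.union_subset (Finset.subset_insert _ _) ?_)
    exact Finsupp.support_single_subset.trans (by simp)

theorem bin_le_two_pow (μ ν : σ →₀ ℕ) : bin μ ν ≤ 2 ^ ν.degree := by
  classical
  rw [fil_bin_eq μ ν (μ.support ∪ ν.support) Finset.subset_union_left]
  have h1 : ν.degree = ∑ s ∈ μ.support ∪ ν.support, ν s := by
    rw [Finsupp.degree_apply]
    exact Finset.sum_subset Finset.subset_union_right fun s _ hs => Finsupp.notMem_support_iff.1 hs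
  rw [h1, ← Finset.prod_pow_eq_pow_sum]
  exact Finset.prod_le_prod' fun s _ => Nat.choose_le_two_pow _ _

theorem bin_eq_zero_of_lt {μ ν : σ →₀ ℕ} {s : σ} (h : ν s < μ s) : bin μ ν = 0 := by
  exact Finset.prod_eq_zero (Finsupp.mem_support_iff.2 (by omega)) (Nat.choose_eq_zero_of_lt h)

/-- Multiplicativity for exponents living on disjoint sets of variables. -/
theorem bin_add_add {μ μ' ν ν' : σ →₀ ℕ}
    (h : ∀ s, (μ s = 0 ∧ ν s = 0) ∨ (μ' s = 0 ∧ ν' s = 0)) :
    bin (μ + μ') (ν + ν') = bin μ ν * bin μ' ν' := by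
  classical
  rw [fil_bin_eq (μ + μ') _ (μ.support ∪ μ'.support) Finsupp.support_add,
    fil_bin_eq μ _ (μ.support ∪ μ'.support) Finset.subset_union_left,
    fil_bin_eq μ' _ (μ.support ∪ μ'.support) Finset.subset_union_right, ← Finset.prod_mul_distrib]
  refine Finset.prod_congr rfl fun s _ => ?_
  rcases h s with ⟨h1, h2⟩ | ⟨h1, h2⟩ <;> simp [h1, h2]

theorem len_hd_le (μ : σ →₀ ℕ) (P : MvPolynomial σ ℚ) (N : ℝ)
    (hN : ∀ ν ∈ P.support, (ν.degree : ℝ) ≤ N) : len (hd μ P) ≤ (2 : ℝ) ^ N * len P := by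
  rw [len, norm_nrm_eq_sum (support_hd_subset μ P), len_eq, Finset.mul_sum]
  refine Finset.sum_le_sum fun ν hν => ?_
  have h1 : ((bin μ ν : ℕ) : ℝ) ≤ (2 : ℝ) ^ N := by
    have h2 : ((bin μ ν : ℕ) : ℝ) ≤ (2 : ℝ) ^ ν.degree := by exact_mod_cast bin_le_two_pow μ ν
    refine h2.trans ?_
    rw [← Real.rpow_natCast]
    exact Real.rpow_le_rpow_of_exponent_le one_le_two (hN ν hν)
  have h3 := mul_le_mul_of_nonneg_right h1 (abs_nonneg ((coeff ν P : ℚ) : ℝ))
  simpa [Finsupp.prod, coeff_hd, Rat.AbsoluteValue.real_eq_abs, abs_mul] using h3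

/-- `hd μ` lowers the order of vanishing at `ξ` by at most the weight of `μ`. -/
theorem inFil_shift_hd (hω : ∀ s, 0 ≤ ω s) (ξ : σ → ℚ) {θ : ℝ} {P : MvPolynomial σ ℚ}
    (hP : InFil ω θ (shift ξ P)) (μ : σ →₀ ℕ) :
    InFil ω (θ - Finsupp.weight ω μ) (shift ξ (hd μ P)) := by
  obtain ⟨n, hn⟩ : ∃ n, μ.degree = n := ⟨_, rfl⟩
  induction n generalizing μ with
  | zero =>
    have h0 : μ = 0 := (Finsupp.degree_eq_zero_iff μ).1 hn
    subst h0
    have : hd 0 P = P := by
      ext ν
      rw [coeff_hd, bin_zero, Nat.cast_one, one_mul]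
    simpa [this] using hP
  | succ n ih =>
    have h0 : μ ≠ 0 := by
      rintro rfl
      simp at hn
    obtain ⟨s, hs⟩ := Finsupp.support_nonempty_iff.2 h0
    have h1 : μ - Finsupp.single s 1 + Finsupp.single s 1 = μ :=
      Finsupp.sub_add_single_one_cancel (Finsupp.mem_support_iff.1 hs)
    generalize μ - Finsupp.single s 1 = μ' at h1
    subst h1
    have h2 := ih μ' (by
      rw [map_add, Finsupp.degree_single] at hn
      omega)
    have hpos : ((μ' s : ℚ) + 1) ≠ 0 := by positivity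
    have h3 : hd (μ' + Finsupp.single s 1) P =
        ((μ' s : ℚ) + 1)⁻¹ • (X s * MvPolynomial.pderiv s (hd μ' P) + (-(μ' s : ℚ)) • hd μ' P) := by
      ext ν
      rw [coeff_smul, coeff_add, fil_coeff_X_mul_pderiv, coeff_smul, coeff_hd, coeff_hd,
        smul_eq_mul, smul_eq_mul, eq_inv_mul_iff_mul_eq₀ hpos, ← mul_assoc, bin_add_single]
      ring
    rw [h3, map_smul, map_add (shift ξ), map_smul, map_mul, fil_shift_pderiv]
    have h4 : InFil ω 0 (shift ξ (X s)) := inFil_of_nonpos hω le_rfl _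
    refine InFil.smul (InFil.add ((h4.mul (h2.pderiv s)).mono ?_) ((h2.smul _).mono ?_)) _
    · rw [map_add, Finsupp.weight_single, one_smul]
      linarith
    · rw [map_add, Finsupp.weight_single, one_smul]
      linarith [hω s]

section Lin

variable {ι κ : Type*} [Fintype κ]

theorem lin_X (A : ι → Matrix κ κ ℚ) (s : ι × κ) :
    lin A (X s) = ∑ l, C (A s.1 s.2 l) * X (s.1, l) := by
  exact aeval_X _ _

theorem lin_lin (A B : ι → Matrix κ κ ℚ) (P : MvPolynomial (ι × κ) ℚ) :
    lin A (lin B P) = lin (fun h => B h * A h) P := by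
  have : (lin A).comp (lin B) = lin (fun h => B h * A h) := by
    refine MvPolynomial.algHom_ext fun s => ?_
    rw [AlgHom.comp_apply, lin_X, lin_X, map_sum]
    simp only [map_mul, algHom_C, algebraMap_eq, lin_X, Matrix.mul_apply, map_sum, Finset.mul_sum,
      Finset.sum_mul, mul_assoc]
    exact Finset.sum_comm
  exact congrArg (fun φ => φ P) this

theorem BlockHom.lin {d : ι → ℕ} {P : MvPolynomial (ι × κ) ℚ} (hP : BlockHom d P)
    (A : ι → Matrix κ κ ℚ) : BlockHom d (lin A P) := by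
  classical
  intro μ hμ h
  have key : ∀ c : ℝ, InFil (fun s : ι × κ => if s.1 = h then c else 0) (d h * c)
      (Subspace.lin A P) := by
    intro c
    refine InFil.aeval (ω := fun s : ι × κ => if s.1 = h then c else 0) (fun ν hν => ?_) fun s => ?_
    · rw [fil_weight_block, ← hP ν hν h]
    · refine inFil_sum _ _ fun l _ => ?_
      have := (inFil_C (ω := fun s : ι × κ => if s.1 = h then c else 0) (A s.1 s.2 l)).mul
        (inFil_X (s.1, l))
      simpa using this
  have h1 := key 1 μ hμ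
  have h2 := key (-1) μ hμ
  rw [fil_weight_block] at h1 h2
  have h3 : ((∑ j, μ (h, j) : ℕ) : ℝ) = d h := by linarith
  exact_mod_cast h3

theorem BlockHom.degree_eq [Fintype ι] {d : ι → ℕ} {P : MvPolynomial (ι × κ) ℚ}
    (hP : BlockHom d P) {μ : ι × κ →₀ ℕ} (hμ : μ ∈ P.support) : μ.degree = ∑ h, d h := by
  rw [Finsupp.degree_eq_sum, Fintype.sum_prod_type]
  exact Finset.sum_congr rfl fun h _ => hP μ hμ h

theorem BlockHom.lin_smul [Fintype ι] {d : ι → ℕ} {P : MvPolynomial (ι × κ) ℚ}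
    (hP : BlockHom d P) (c : ℚ) (A : ι → Matrix κ κ ℚ) :
    Subspace.lin (fun h => c • A h) P = C (c ^ ∑ h, d h) * Subspace.lin A P := by
  conv_lhs => rw [P.as_sum]
  conv_rhs => rw [P.as_sum]
  rw [map_sum, map_sum, Finset.mul_sum]
  refine Finset.sum_congr rfl fun μ hμ => ?_
  have h1 : ∀ s : ι × κ, ∑ l, C ((c • A s.1) s.2 l) * X (s.1, l) =
      C c * ∑ l, C (A s.1 s.2 l) * (X (s.1, l) : MvPolynomial (ι × κ) ℚ) := by
    intro s
    simp only [Matrix.smul_apply, smul_eq_mul, map_mul, Finset.mul_sum, mul_assoc]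
  rw [← hP.degree_eq hμ, Subspace.lin, Subspace.lin, aeval_monomial, aeval_monomial]
  simp only [h1, mul_pow, Finsupp.prod, Finset.prod_mul_distrib, Finset.prod_pow_eq_pow_sum,
    Finsupp.degree_apply, map_pow]
  ring

theorem IsInt.lin {P : MvPolynomial (ι × κ) ℚ} (hP : IsInt P) (A : ι → Matrix κ κ ℤ) :
    IsInt (lin (fun h => (A h).map (Int.cast : ℤ → ℚ)) P) := by
  exact hP.aeval fun s => isInt_sum _ _ fun l _ => (isInt_C _).mul (isInt_X _)

/-- Length of a linear substitution with entries bounded by `B`. -/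
theorem len_lin_le [Fintype ι] {d : ι → ℕ} {P : MvPolynomial (ι × κ) ℚ} (hP : BlockHom d P)
    (A : ι → Matrix κ κ ℚ) (B : ℝ) (hB : ∀ h i j, |((A h i j : ℚ) : ℝ)| ≤ B) :
    len (lin A P) ≤ (Fintype.card κ * B) ^ (∑ h, d h) * len P := by
  refine (nrm_aeval_le (fun _ => zero_le_one) _ P).trans (nrm_le_mul P _ fun μ hμ => ?_)
  rw [← hP.degree_eq hμ, Finsupp.degree_apply, ← Finset.prod_pow_eq_pow_sum]
  refine Finset.prod_le_prod (fun s _ => pow_nonneg (nrm_nonneg (fun _ => zero_le_one) _) _)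
    fun s _ => pow_le_pow_left₀ (nrm_nonneg (fun _ => zero_le_one) _) ?_ _
  refine (nrm_sum_le (fun _ => zero_le_one) _ _).trans ?_
  refine (Finset.sum_le_sum (g := fun _ => B) fun l _ => ?_).trans (by simp)
  rw [nrm_C_mul, nrm_X, mul_one, Rat.AbsoluteValue.real_eq_abs]
  simpa using hB s.1 s.2 l

end Lin

end Pool.Agent.Lib.Common.Subspace
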