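import Pool.Agent.Lib.Common.Subspace.Roth

/-! Roth's lemma for products of hyperplanes. -/

namespace Pool.Agent.Lib.Common.Subspace

open MvPolynomial Finset

/-- Setting the variables of `K` to zero. -/
noncomputable def genrothKill {σ : Type*} [DecidableEq σ] (K : Finset σ) :
    MvPolynomial σ ℚ →ₐ[ℚ] MvPolynomial σ ℚ :=
  aeval (fun s => if s ∈ K then 0 else X s)

theorem genroth_kill_X {σ : Type*} [DecidableEq σ] (K : Finset σ) (s : σ) :
    genrothKill K (X s) = if s ∈ K then 0 else X s := aeval_X _ _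

theorem genroth_kill_monomial {σ : Type*} [DecidableEq σ] (s : σ) (ν : σ →₀ ℕ) (c : ℚ) :
    genrothKill {s} (monomial ν c) = if ν s = 0 then monomial ν c else 0 := by
  rw [genrothKill, aeval_monomial]
  split_ifs with h
  · rw [monomial_eq, algebraMap_eq]
    congr 1
    refine Finsupp.prod_congr fun t ht => ?_
    rw [if_neg]
    rw [mem_singleton]
    rintro rfl
    exact Finsupp.mem_support_iff.mp ht h
  · rw [Finsupp.prod, Finset.prod_eq_zero (Finsupp.mem_support_iff.mpr h), mul_zero]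
    simp [h]

theorem genroth_coeff_kill {σ : Type*} [DecidableEq σ] (s : σ) (μ : σ →₀ ℕ)
    (Q : MvPolynomial σ ℚ) :
    coeff μ (genrothKill {s} Q) = if μ s = 0 then coeff μ Q else 0 := by
  induction Q using MvPolynomial.induction_on' with
  | monomial ν c =>
    rw [genroth_kill_monomial]
    by_cases h : ν = μ
    · subst h
      split_ifs <;> simp
    · split_ifs <;> simp [h]
  | add p q hp hq =>
    rw [map_add, coeff_add, coeff_add, hp, hq]
    split_ifs <;> simp

theorem genroth_kill_kill {σ : Type*} [DecidableEq σ] (K : Finset σ) (s : σ)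
    (Q : MvPolynomial σ ℚ) : genrothKill {s} (genrothKill K Q) = genrothKill (insert s K) Q := by
  have : (genrothKill {s}).comp (genrothKill K) = genrothKill (insert s K) := by
    refine MvPolynomial.algHom_ext fun t => ?_
    rw [AlgHom.comp_apply, genroth_kill_X, genroth_kill_X]
    by_cases h : t ∈ K
    · simp [h]
    · simp [h, genroth_kill_X]
  exact DFunLike.congr_fun this Q

theorem genroth_hyp_X {ι κ : Type*} [Fintype κ] [DecidableEq κ] {α : κ} (ρ : ι → κ → ℚ)
    {s : ι × κ} (hs : s.2 ≠ α) : lin (fun h => hypMat α (ρ h)) (X s) = X s := by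
  rw [lin_X, Finset.sum_eq_single s.2]
  · simp [hypMat]
  · intro l _ hl
    simp [hypMat, hs, hl.symm]
  · simp

theorem genroth_step {ι κ : Type*} [Fintype κ] [DecidableEq ι] [DecidableEq κ] {α : κ}
    (ω : ι → ℝ) (ρ : ι → κ → ℚ) (D : ℝ) {d : ι → ℕ} {P : MvPolynomial (ι × κ) ℚ} (h0 : P ≠ 0)
    (hI : IsInt P) (hB : BlockHom d P)
    (hF : InFil (bw ω α) D (lin (fun h => hypMat α (ρ h)) P)) (K : Finset (ι × κ)) :
    (∀ s ∈ K, s.2 ≠ α) → ∃ (Q : MvPolynomial (ι × κ) ℚ) (e : ι → ℕ), Q ≠ 0 ∧ IsInt Q ∧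
      BlockHom e Q ∧ (∀ h, e h ≤ d h) ∧ len Q ≤ len P ∧ (∀ μ ∈ Q.support, ∀ s ∈ K, μ s = 0) ∧
      InFil (bw ω α) D (genrothKill K (lin (fun h => hypMat α (ρ h)) Q)) := by
  induction K using Finset.induction_on with
  | empty =>
    intro _
    refine ⟨P, d, h0, hI, hB, fun _ => le_rfl, le_rfl, by simp, ?_⟩
    have : genrothKill (∅ : Finset (ι × κ)) = AlgHom.id ℚ _ :=
      MvPolynomial.algHom_ext fun t => by simp [genroth_kill_X]
    rw [this]
    exact hF
  | insert s K hsK ih =>
    intro hK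
    obtain ⟨Q, e, q0, qI, qB, qe, qL, qK, qF⟩ := ih fun t ht => hK t (mem_insert_of_mem ht)
    have hs : s.2 ≠ α := hK s (mem_insert_self _ _)
    obtain ⟨μ₀, hμ₀, hmin⟩ := Finset.exists_min_image Q.support (fun μ => μ s)
      (support_nonempty.mpr q0)
    set ν : ι × κ →₀ ℕ := Finsupp.single s (μ₀ s) with hν
    have hdiv : Q = monomial ν 1 * Q.divMonomial ν := by
      ext μ
      rw [coeff_monomial_mul']
      split_ifs with h
      · rw [one_mul, coeff_divMonomial, add_tsub_cancel_of_le h]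
      · by_contra h'
        exact h (Finsupp.single_le_iff.mpr (hmin μ (mem_support_iff.mpr h')))
    have hc : ∀ μ, coeff μ (genrothKill {s} (Q.divMonomial ν))
        = if μ s = 0 then coeff (ν + μ) Q else 0 := fun μ => genroth_coeff_kill s μ _
    have hsup : ∀ μ ∈ (genrothKill {s} (Q.divMonomial ν)).support,
        μ s = 0 ∧ ν + μ ∈ Q.support := by
      intro μ hμ
      have := mem_support_iff.mp hμ
      rw [hc] at this
      split_ifs at this with h
      · exact ⟨h, mem_support_iff.mpr this⟩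
      · exact absurd rfl this
    refine ⟨genrothKill {s} (Q.divMonomial ν), fun h => e h - ∑ j, ν (h, j), ?_, fun μ => ?_,
      fun μ hμ h => ?_, fun h => (Nat.sub_le _ _).trans (qe h), ?_, fun μ hμ t ht => ?_, ?_⟩
    · intro h
      have h1 := hc (μ₀ - ν)
      rw [h, coeff_zero, if_pos (by simp [hν]),
        add_tsub_cancel_of_le (Finsupp.single_le_iff.mpr le_rfl)] at h1
      exact mem_support_iff.mp hμ₀ h1.symm
    · rw [hc]
      split_ifs
      · exact qI _
      · exact ⟨0, by simp⟩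
    · have := qB _ (hsup μ hμ).2 h
      simp only [Finsupp.add_apply, Finset.sum_add_distrib] at this
      show _ = e h - ∑ j, ν (h, j)
      omega
    · refine (len_le_of_injOn _ Q (fun μ => ν + μ) (fun _ _ _ _ h => add_left_cancel h)
        fun μ hμ => ?_).trans qL
      rw [hc, if_pos (hsup μ hμ).1]
    · rcases mem_insert.mp ht with rfl | ht
      · exact (hsup μ hμ).1
      · have := qK _ (hsup μ hμ).2 t ht
        simp only [Finsupp.add_apply] at this
        omega
    · have e1 : ((genrothKill (insert s K)).comp (lin fun h => hypMat α (ρ h))).comp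
          (genrothKill {s}) = (genrothKill (insert s K)).comp (lin fun h => hypMat α (ρ h)) := by
        refine MvPolynomial.algHom_ext fun t => ?_
        rw [AlgHom.comp_apply, genroth_kill_X]
        split_ifs with h
        · rw [mem_singleton.mp h, map_zero, AlgHom.comp_apply, genroth_hyp_X ρ hs, genroth_kill_X,
            if_pos (mem_insert_self _ _)]
        · rfl
      have e2 := DFunLike.congr_fun e1 (Q.divMonomial ν)
      simp only [AlgHom.comp_apply] at e2
      rw [e2, ← genroth_kill_kill]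
      rw [hdiv, hν, ← X_pow_eq_monomial, map_mul, map_mul, map_pow, map_pow, genroth_hyp_X ρ hs,
        genroth_kill_X, if_neg hsK, X_pow_eq_monomial] at qF
      have e3 := qF.of_monomial_mul
      rw [Finsupp.weight_single, bw, if_neg hs, smul_zero, sub_zero] at e3
      refine e3.aeval fun t => ?_
      split_ifs
      · exact inFil_zero _
      · exact inFil_X t

theorem genRoth (ι κ : Type*) [Fintype ι] [Fintype κ] [DecidableEq κ] (γ : ℝ) (hγ : 0 < γ) :
    ∃ ε : ℝ, 0 < ε ∧ ∀ (α β : κ), α ≠ β → ∀ (ω : ι → ℝ), (∀ h, 1 ≤ ε * ω h) →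
      (∀ h h', h ≠ h' → ω h ≤ ε * ω h' ∨ ω h' ≤ ε * ω h) →
      ∀ (ρ : ι → κ → ℚ), (∀ h, γ * ω h ≤ Real.log (ρ h β).den) →
      ∀ (D : ℝ), 0 < D → ∀ (d : ι → ℕ), (∀ h, ω h * d h ≤ D) →
      ∀ (P : MvPolynomial (ι × κ) ℚ), P ≠ 0 → IsInt P → BlockHom d P →
      len P ≤ Real.exp (ε * D) →
      ¬ InFil (bw ω α) D (lin (fun h => hypMat α (ρ h)) P) := by
  classical
  obtain ⟨ε, hε, H⟩ := roth (σ := ι) (Fintype.card ι) 1 γ one_pos hγ
  refine ⟨ε, hε, fun α β hαβ ω hω hω' ρ hρ D hD d hd P h0 hI hB hL hF => ?_⟩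
  have hω0 : ∀ h, 0 ≤ ω h := fun h => by
    have := hω h
    by_contra h'
    nlinarith
  set K : Finset (ι × κ) := univ.filter fun s => s.2 ≠ α ∧ s.2 ≠ β with hK
  obtain ⟨Q, e, q0, qI, qB, qe, qL, qK, qF⟩ :=
    genroth_step ω ρ D h0 hI hB hF K fun s hs => (mem_filter.mp hs).2.1
  let f : ι × κ → MvPolynomial ι ℚ := fun s =>
    if s.2 = α then X s.1 else if s.2 = β then 1 else 0
  let r : (ι × κ →₀ ℕ) → ι →₀ ℕ := fun μ => Finsupp.equivFunOnFinite.symm fun h => μ (h, α)
  have hr : ∀ μ h, r μ h = μ (h, α) := fun _ _ => rfl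
  have hz : ∀ μ ∈ Q.support, ∀ h j, j ≠ α → j ≠ β → μ (h, j) = 0 := fun μ hμ h j h1 h2 =>
    qK μ hμ (h, j) (mem_filter.mpr ⟨mem_univ _, h1, h2⟩)
  have hsum : ∀ μ ∈ Q.support, ∀ h, μ (h, α) + μ (h, β) = e h := by
    intro μ hμ h
    rw [← qB μ hμ h, ← Finset.sum_pair (f := fun j => μ (h, j)) hαβ]
    refine Finset.sum_subset (subset_univ _) fun j _ hj => ?_
    simp only [mem_insert, mem_singleton, not_or] at hj
    exact hz μ hμ h j hj.1 hj.2
  have hinj : ∀ μ ∈ Q.support, ∀ μ' ∈ Q.support, r μ = r μ' → μ = μ' := by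
    intro μ hμ μ' hμ' h
    ext ⟨a, j⟩
    have h1 : μ (a, α) = μ' (a, α) := by rw [← hr, h, hr]
    have h2 := hsum μ hμ a
    have h3 := hsum μ' hμ' a
    by_cases a1 : j = α
    · rw [a1, h1]
    · by_cases a2 : j = β
      · rw [a2]; omega
      · rw [hz μ hμ a j a1 a2, hz μ' hμ' a j a1 a2]
  have hmon : ∀ μ ∈ Q.support, ∀ c : ℚ, aeval f (monomial μ c) = monomial (r μ) c := by
    intro μ hμ c
    rw [aeval_monomial, monomial_eq, algebraMap_eq, Finsupp.prod_fintype _ _ (by simp),
      Finsupp.prod_fintype _ _ (by simp), Fintype.prod_prod_type]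
    congr 1
    refine Finset.prod_congr rfl fun h _ => ?_
    rw [Finset.prod_eq_single α]
    · simp [f, hr]
    · intro j _ hj
      by_cases a2 : j = β
      · simp [f, a2, hαβ.symm]
      · simp [hz μ hμ h j hj a2]
    · simp
  have hφ : aeval f Q = ∑ μ ∈ Q.support, monomial (r μ) (coeff μ Q) := by
    conv_lhs => rw [Q.as_sum]
    rw [map_sum]
    exact Finset.sum_congr rfl fun μ hμ => hmon μ hμ _
  have hsup : ∀ ν ∈ (aeval f Q).support, ∃ μ ∈ Q.support, r μ = ν := by
    intro ν hν
    by_contra h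
    push Not at h
    refine mem_support_iff.mp hν ?_
    rw [hφ, coeff_sum]
    exact Finset.sum_eq_zero fun μ hμ => by rw [coeff_monomial, if_neg (h μ hμ)]
  have hcomm : (shift fun h => -ρ h β).comp (aeval f)
      = ((aeval f).comp (genrothKill K)).comp (lin fun h => hypMat α (ρ h)) := by
    have e1 : (aeval f).comp (genrothKill K) = aeval f := by
      refine MvPolynomial.algHom_ext fun t => ?_
      rw [AlgHom.comp_apply, genroth_kill_X]
      split_ifs with h
      · obtain ⟨h1, h2⟩ := (mem_filter.mp h).2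
        simp [f, h1, h2]
      · rfl
    rw [e1]
    refine MvPolynomial.algHom_ext fun t => ?_
    rw [AlgHom.comp_apply, AlgHom.comp_apply]
    by_cases a1 : t.2 = α
    · rw [lin_X, map_sum, ← Finset.sum_subset (subset_univ {α, β}), Finset.sum_pair hαβ]
      · simp [f, a1, hypMat, shift, hαβ, hαβ.symm]
      · intro j _ hj
        simp only [mem_insert, mem_singleton, not_or] at hj
        simp [f, hj.1, hj.2]
    · rw [genroth_hyp_X ρ a1, aeval_X]
      simp only [f, if_neg a1]
      split_ifs <;> simp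
  refine H univ rfl ω hω0 (fun a _ => hω a) (fun a _ b _ hab => hω' a b hab) (fun h => -ρ h β)
    (fun a _ => by rw [Rat.neg_den]; exact hρ a) D hD (aeval f Q) ?_ (qI.aeval fun s => ?_)
    (fun _ _ a ha => absurd (mem_univ a) ha) (fun ν hν a => ?_) ?_ ?_
  · obtain ⟨μ₀, hμ₀⟩ := support_nonempty.mpr q0
    intro h
    have h1 := congrArg (coeff (r μ₀)) hφ
    rw [h, coeff_zero, coeff_sum, Finset.sum_eq_single_of_mem μ₀ hμ₀, coeff_monomial,
      if_pos rfl] at h1
    · exact mem_support_iff.mp hμ₀ h1.symm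
    · intro μ hμ hne
      rw [coeff_monomial, if_neg fun h' => hne (hinj μ hμ μ₀ hμ₀ h')]
  · simp only [f]
    split_ifs
    · exact isInt_X _
    · exact isInt_one
    · exact isInt_zero
  · obtain ⟨μ, hμ, rfl⟩ := hsup ν hν
    have h1 := hsum μ hμ a
    have h2 := qe a
    have h3 : ((r μ a : ℕ) : ℝ) ≤ d a := by rw [hr]; exact_mod_cast (by omega)
    exact (mul_le_mul_of_nonneg_left h3 (hω0 a)).trans (hd a)
  · refine le_trans ?_ (qL.trans hL)
    refine (nrm_aeval_le (fun _ => zero_le_one) f Q).trans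
      (nrm_mono (fun s => nrm_nonneg (fun _ => zero_le_one) _) (fun s => ?_) Q)
    simp only [f]
    split_ifs
    · rw [nrm_X]
    · rw [nrm_one]
    · rw [nrm_zero]; exact zero_le_one
  · have e2 := DFunLike.congr_fun hcomm Q
    simp only [AlgHom.comp_apply] at e2
    rw [one_mul, e2]
    refine qF.aeval fun s => ?_
    simp only [f, bw]
    split_ifs
    · exact inFil_X _
    · exact inFil_one
    · exact inFil_zero _

end Pool.Agent.Lib.Common.Subspace
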