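import Pool.Agent.Lib.Common.Subspace.Defs

/-! Geometry of numbers: successive minima, Minkowski's second theorem up to a constant, and
Evertse's lemma. -/

namespace Pool.Agent.Lib.Common.Subspace

open Finset Matrix

lemma minima_mink {σ : Type*} [Fintype σ] [DecidableEq σ] (M : Matrix σ σ ℤ) (hM : M.det ≠ 0)
    (r : σ → ℝ) (hr : ∀ i, 0 < r i) (h : |(M.det : ℝ)| < ∏ i, r i) :
    ∃ x : σ → ℤ, x ≠ 0 ∧ ∀ i, |(((M *ᵥ x) i : ℤ) : ℝ)| < r i := by
  set Mr : Matrix σ σ ℝ := M.map (Int.castRingHom ℝ) with hMr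
  have hdet : Mr.det = (M.det : ℝ) := ((Int.castRingHom ℝ).map_det M).symm
  have hdet0 : (M.det : ℝ) ≠ 0 := by exact_mod_cast hM
  set f : (σ → ℝ) →ₗ[ℝ] (σ → ℝ) := Matrix.toLin' Mr with hf
  have hfd : LinearMap.det f = (M.det : ℝ) := by rw [hf, LinearMap.det_toLin', hdet]
  set box : Set (σ → ℝ) := Set.pi Set.univ fun i => Set.Ioo (-r i) (r i) with hbox
  have hconv : Convex ℝ (f ⁻¹' box) :=
    (convex_pi fun i _ => convex_Ioo _ _).linear_preimage f
  have hsymm : ∀ x ∈ f ⁻¹' box, -x ∈ f ⁻¹' box := by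
    intro x hx i hi
    have := hx i hi
    simp only [map_neg, Pi.neg_apply, Set.mem_Ioo] at this ⊢
    constructor <;> linarith [this.1, this.2]
  have fund := ZSpan.isAddFundamentalDomain' (Pi.basisFun ℝ σ) MeasureTheory.volume
  have hcount : Countable (Submodule.span ℤ (Set.range (Pi.basisFun ℝ σ))).toAddSubgroup :=
    inferInstanceAs (Countable (Submodule.span ℤ (Set.range (Pi.basisFun ℝ σ))))
  obtain ⟨x, hx0, hx⟩ :=
    MeasureTheory.exists_ne_zero_mem_lattice_of_measure_mul_two_pow_lt_measure fund hsymm hconv (by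
      rw [ZSpan.fundamentalDomain_pi_basisFun, MeasureTheory.volume_pi,
        MeasureTheory.Measure.pi_pi, Real.volume_Ico, sub_zero, ENNReal.ofReal_one,
        Finset.prod_const_one, one_mul, ← MeasureTheory.volume_pi,
        MeasureTheory.Measure.addHaar_preimage_linearMap _ (by rwa [hfd]), hfd, hbox,
        Real.volume_pi_Ioo, ← ENNReal.ofReal_prod_of_nonneg (fun i _ => by linarith [hr i]),
        ← ENNReal.ofReal_mul (abs_nonneg _), Module.finrank_fintype_fun_eq_card]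
      have e1 : (2 : ENNReal) ^ Fintype.card σ = ENNReal.ofReal (2 ^ Fintype.card σ) := by
        rw [ENNReal.ofReal_pow (by norm_num)]; simp
      have e2 : ∏ i, (r i - -r i) = 2 ^ Fintype.card σ * ∏ i, r i := by
        simp only [sub_neg_eq_add, ← two_mul, Finset.prod_mul_distrib, Finset.prod_const,
          Finset.card_univ]
      have hp : 0 < |(M.det : ℝ)| := abs_pos.2 hdet0
      rw [e1, e2, ENNReal.ofReal_lt_ofReal_iff (by
        have := Finset.prod_pos (s := univ) fun i _ => hr i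
        rw [abs_inv]; positivity), abs_inv, lt_inv_mul_iff₀ hp, mul_comm]
      gcongr)
  have hz := ((Pi.basisFun ℝ σ).mem_span_iff_repr_mem ℤ (x : σ → ℝ)).mp x.2
  choose z hz using hz
  have hz' : (x : σ → ℝ) = fun i => (z i : ℝ) := by
    ext i
    have := hz i
    simp only [Pi.basisFun_repr, algebraMap_int_eq, eq_intCast] at this
    exact this.symm
  refine ⟨z, ?_, fun i => ?_⟩
  · rintro rfl
    apply hx0
    ext i
    rw [hz']; simp
  · have h1 := hx i (Set.mem_univ i)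
    rw [hz'] at h1
    have h2 : f (fun i => (z i : ℝ)) i = (((M *ᵥ z) i : ℤ) : ℝ) := by
      simp [hf, hMr, Matrix.mulVec, dotProduct]
    rw [h2] at h1
    exact abs_lt.2 h1

/-- Minkowski's linear forms theorem with congruence conditions. -/
theorem minkowski_forms {ι κ : Type*} [Fintype ι] [DecidableEq ι] [Fintype κ] [Nonempty ι]
    (A : Matrix ι ι ℤ) (hA : A.det ≠ 0) (t : ι → ℝ) (ht : ∀ i, 0 < t i)
    (F : κ → ι → ℤ) (md : κ → ℕ) (hmd : ∀ k, 0 < md k)
    (h : |(A.det : ℝ)| * ∏ k, (md k : ℝ) < ∏ i, t i) :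
    ∃ y : ι → ℤ, y ≠ 0 ∧ (∀ i, |(((A *ᵥ y) i : ℤ) : ℝ)| < t i) ∧
      ∀ k, (md k : ℤ) ∣ F k ⬝ᵥ y := by
  classical
  set M : Matrix (ι ⊕ κ) (ι ⊕ κ) ℤ :=
    Matrix.fromBlocks A 0 (Matrix.of F) (Matrix.diagonal fun k => (md k : ℤ)) with hM
  have hdet : M.det = A.det * ∏ k, (md k : ℤ) := by
    rw [hM, Matrix.det_fromBlocks_zero₁₂, Matrix.det_diagonal]
  have hP : 0 < ∏ k, (md k : ℤ) := Finset.prod_pos fun k _ => by exact_mod_cast hmd k
  obtain ⟨x, hx0, hx⟩ := minima_mink M (by rw [hdet]; exact mul_ne_zero hA hP.ne')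
    (Sum.elim t fun _ => 1) (by rintro (i | k) <;> simp [ht]) (by
      rw [hdet, Fintype.prod_sum_type]
      rw [Int.cast_mul, abs_mul, Int.cast_prod]
      simp only [Int.cast_natCast]
      rw [abs_of_nonneg (a := ∏ k, (md k : ℝ)) (by positivity)]
      simpa using h)
  have h2 : ∀ k, F k ⬝ᵥ (x ∘ Sum.inl) + md k * x (Sum.inr k) = 0 := by
    intro k
    have h3 := hx (Sum.inr k)
    rw [hM, Matrix.fromBlocks_mulVec] at h3
    simp only [Sum.elim_inr, Pi.add_apply, Matrix.mulVec_diagonal, Function.comp_apply] at h3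
    have h4 : |(Matrix.of F *ᵥ (x ∘ Sum.inl)) k + md k * x (Sum.inr k)| < 1 := by exact_mod_cast h3
    exact Int.abs_lt_one_iff.1 h4
  refine ⟨x ∘ Sum.inl, ?_, fun i => ?_, fun k => ⟨-x (Sum.inr k), by linarith [h2 k]⟩⟩
  · intro h0
    apply hx0
    ext (i | k)
    · exact congrFun h0 i
    · have := h2 k
      rw [h0, dotProduct_zero, zero_add] at this
      exact (mul_eq_zero.1 this).resolve_left (by exact_mod_cast (hmd k).ne')
  · have h3 := hx (Sum.inl i)
    rw [hM, Matrix.fromBlocks_mulVec] at h3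
    simpa using h3

lemma minima_relation {n : ℕ} (u : Fin n → Fin (n + 1) → ℝ) :
    ∃ j₀ : Fin (n + 1), ∀ g : Fin n → ℝ,
      |∑ l, g l * u l j₀| ≤ ∑ j : Fin n, |∑ l, g l * u l (j₀.succAbove j)| := by
  have h1 := LinearMap.ker_ne_bot_of_finrank_lt (f := (Matrix.of u).mulVecLin) (by simp)
  obtain ⟨a, ha, ha0⟩ := (Submodule.ne_bot_iff _).1 h1
  obtain ⟨j₀, -, hj₀⟩ := Finset.exists_max_image univ (fun j => |a j|) univ_nonempty
  have hpos : 0 < |a j₀| := by
    obtain ⟨j, hj⟩ := Function.ne_iff.1 ha0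
    exact (abs_pos.2 hj).trans_le (hj₀ j (mem_univ _))
  refine ⟨j₀, fun g => ?_⟩
  have h2 : ∑ j, a j * ∑ l, g l * u l j = 0 := by
    have h3 : ∀ l, ∑ j, u l j * a j = 0 := fun l => congrFun ha l
    simp only [Finset.mul_sum]
    rw [Finset.sum_comm]
    refine Finset.sum_eq_zero fun l _ => ?_
    calc ∑ j, a j * (g l * u l j) = g l * ∑ j, u l j * a j := by
          rw [Finset.mul_sum]; exact Finset.sum_congr rfl fun j _ => by ring
      _ = 0 := by rw [h3, mul_zero]
  rw [Fin.sum_univ_succAbove _ j₀, add_eq_zero_iff_eq_neg] at h2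
  refine le_of_mul_le_mul_left ?_ hpos
  rw [← abs_mul, h2, abs_neg, Finset.mul_sum]
  refine (Finset.abs_sum_le_sum_abs _ _).trans (Finset.sum_le_sum fun j _ => ?_)
  rw [abs_mul]
  exact mul_le_mul_of_nonneg_right (hj₀ _ (mem_univ _)) (abs_nonneg _)

lemma minima_flag_aux (n : ℕ) (u : Fin n → Fin n → ℝ) :
    ∃ π : Equiv.Perm (Fin n), ∀ (k : Fin n) (g : Fin n → ℝ), (∀ l : Fin n, k ≤ l → g l = 0) →
      |∑ l, g l * u l (π k)| ≤
        ∑ j : Fin n, if j < k then |∑ l, g l * u l (π j)| else 0 := by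
  induction n with
  | zero => exact ⟨1, fun k => k.elim0⟩
  | succ n ih =>
    obtain ⟨j₀, hj₀⟩ := minima_relation fun l : Fin n => u l.castSucc
    obtain ⟨π', hπ'⟩ := ih fun l j => u l.castSucc (j₀.succAbove j)
    set π : Equiv.Perm (Fin (n + 1)) :=
      (finSuccEquivLast.trans π'.optionCongr).trans (finSuccEquiv' j₀).symm with hπ
    have e1 : π (Fin.last n) = j₀ := by simp [hπ]
    have e2 : ∀ j : Fin n, π j.castSucc = j₀.succAbove (π' j) := by intro j; simp [hπ]
    refine ⟨π, fun k g hg => ?_⟩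
    have hl : g (Fin.last n) = 0 := hg _ (Fin.le_last _)
    simp only [Fin.sum_univ_castSucc, hl, zero_mul, add_zero, e2, (Fin.le_last k).not_gt, if_false]
    induction k using Fin.lastCases with
    | last =>
      simp only [e1, Fin.castSucc_lt_last, if_true]
      refine (hj₀ fun l => g l.castSucc).trans (le_of_eq ?_)
      exact (Equiv.sum_comp π' fun j => |∑ l : Fin n, g l.castSucc * u l.castSucc (j₀.succAbove j)|).symm
    | cast k =>
      simp only [e2, Fin.castSucc_lt_castSucc_iff]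
      exact hπ' k (fun l => g l.castSucc) fun l hl => hg _ (Fin.castSucc_le_castSucc_iff.2 hl)

/-- A permutation adapted to a flag. -/
theorem exists_perm_flag (n : ℕ) (u : Fin n → Fin n → ℝ) :
    ∃ π : Equiv.Perm (Fin n), ∀ (k : ℕ) (g : Fin n → ℝ), (∀ l : Fin n, k ≤ l → g l = 0) →
      ∀ i : Fin n, |∑ l, g l * u l (π i)| ≤
        2 ^ n * ∑ j ∈ univ.filter (fun j : Fin n => (j : ℕ) < k), |∑ l, g l * u l (π j)| := by
  obtain ⟨π, hπ⟩ := minima_flag_aux n u
  refine ⟨π, fun k g hg i => ?_⟩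
  set y : Fin n → ℝ := fun j => |∑ l, g l * u l (π j)| with hy
  have hy0 : ∀ j, 0 ≤ y j := fun j => abs_nonneg _
  set S : ℕ → ℝ := fun m => ∑ j ∈ univ.filter (fun j : Fin n => (j : ℕ) < m), y j with hS
  have hS0 : ∀ m, 0 ≤ S m := fun m => Finset.sum_nonneg fun j _ => hy0 j
  have h1 : ∀ j : Fin n, k ≤ j → y j ≤ S j := by
    intro j hj
    refine (hπ j g fun l hl => hg l (hj.trans hl)).trans (le_of_eq ?_)
    simp only [hS, Finset.sum_filter, Fin.lt_def, hy]
  have h2 : ∀ m, k ≤ m → S (m + 1) ≤ 2 * S m := by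
    intro m hm
    by_cases hmn : m < n
    · have e : univ.filter (fun j : Fin n => (j : ℕ) < m + 1) =
          insert ⟨m, hmn⟩ (univ.filter fun j : Fin n => (j : ℕ) < m) := by
        ext j; simp [Fin.ext_iff]; omega
      have := h1 ⟨m, hmn⟩ hm
      simp only [hS] at this ⊢
      rw [e, Finset.sum_insert (by simp)]
      linarith
    · have e : univ.filter (fun j : Fin n => (j : ℕ) < m + 1) =
          univ.filter fun j : Fin n => (j : ℕ) < m := by
        ext j; have := j.2; simp; omega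
      have := hS0 m
      simp only [hS] at this ⊢
      rw [e]; linarith
  have h3 : ∀ d, S (k + d) ≤ 2 ^ d * S k := by
    intro d
    induction d with
    | zero => simp
    | succ d ih =>
      have := h2 (k + d) (by omega)
      rw [← add_assoc, pow_succ]; linarith
  change y i ≤ 2 ^ n * S k
  by_cases hi : (i : ℕ) < k
  · calc y i ≤ S k := Finset.single_le_sum (fun j _ => hy0 j) (by simpa using hi)
      _ ≤ _ := le_mul_of_one_le_left (hS0 k) (one_le_pow₀ one_le_two)
  · push Not at hi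
    obtain ⟨d, hd⟩ := Nat.exists_eq_add_of_le hi
    calc y i ≤ S i := h1 i hi
      _ ≤ 2 ^ d * S k := by rw [hd]; exact h3 d
      _ ≤ _ := by
        have := hS0 k
        gcongr
        · exact one_le_two
        · have := i.2; omega

/-- The span of the first `k` vectors of a family. -/
def minimaV {n : ℕ} (x : Fin n → Fin n → ℝ) (k : ℕ) : Submodule ℝ (Fin n → ℝ) :=
  Submodule.span ℝ (x '' {l | (l : ℕ) < k})

lemma minimaV_mem {n : ℕ} (x : Fin n → Fin n → ℝ) {k : ℕ} {l : Fin n} (h : (l : ℕ) < k) :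
    x l ∈ minimaV x k := Submodule.subset_span ⟨l, h, rfl⟩

lemma minimaV_mono {n : ℕ} (x : Fin n → Fin n → ℝ) {k m : ℕ} (h : k ≤ m) :
    minimaV x k ≤ minimaV x m :=
  Submodule.span_mono (Set.image_mono fun _ hl => lt_of_lt_of_le hl h)

lemma minimaV_le {n : ℕ} {x : Fin n → Fin n → ℝ} {k : ℕ} {W : Submodule ℝ (Fin n → ℝ)}
    (h : ∀ l : Fin n, (l : ℕ) < k → x l ∈ W) : minimaV x k ≤ W := by
  refine Submodule.span_le.2 ?_
  rintro _ ⟨l, hl, rfl⟩
  exact h l hl

lemma minimaV_iff {n : ℕ} {x : Fin n → Fin n → ℝ} {k : ℕ} {v : Fin n → ℝ} :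
    v ∈ minimaV x k ↔ ∃ g : Fin n → ℝ, (∀ l : Fin n, k ≤ l → g l = 0) ∧ v = ∑ l, g l • x l := by
  constructor
  · intro h
    induction h using Submodule.span_induction with
    | mem _ h =>
      obtain ⟨l, hl, rfl⟩ := h
      refine ⟨Pi.single l 1, fun m hm => Pi.single_eq_of_ne ?_ _, by simp [Pi.single_apply]⟩
      rintro rfl
      exact absurd hl (not_lt.2 hm)
    | zero => exact ⟨0, by simp⟩
    | add a b _ _ ha hb =>
      obtain ⟨g, hg, rfl⟩ := ha
      obtain ⟨g', hg', rfl⟩ := hb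
      exact ⟨g + g', fun l hl => by simp [hg l hl, hg' l hl], by
        simp [add_smul, Finset.sum_add_distrib]⟩
    | smul c a _ ha =>
      obtain ⟨g, hg, rfl⟩ := ha
      exact ⟨c • g, fun l hl => by simp [hg l hl], by simp [Finset.smul_sum, smul_smul]⟩
  · rintro ⟨g, hg, rfl⟩
    refine Submodule.sum_mem _ fun l _ => ?_
    by_cases hl : (l : ℕ) < k
    · exact Submodule.smul_mem _ _ (minimaV_mem x hl)
    · rw [hg l (not_lt.1 hl), zero_smul]; exact zero_mem _

lemma minimaV_congr {n : ℕ} {x X : Fin n → Fin n → ℝ} 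
    (h : ∀ i : Fin n, X i - x i ∈ minimaV x i) (k : ℕ) :
    minimaV X k = minimaV x k := by
  refine le_antisymm (minimaV_le fun l hl => ?_) ?_
  · have := add_mem (minimaV_mono x hl.le (h l)) (minimaV_mem x hl)
    simpa using this
  · induction k using Nat.strong_induction_on with
    | _ k ih =>
      refine minimaV_le fun l hl => ?_
      have := sub_mem (minimaV_mem X hl) (minimaV_mono X hl.le (ih l hl (h l)))
      simpa using this

lemma minimaV_indep {n : ℕ} {x : Fin n → Fin n → ℝ} (h : ∀ i : Fin n, x i ∉ minimaV x i) :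
    LinearIndependent ℝ x := by
  rw [Fintype.linearIndependent_iff]
  intro g hg
  by_contra hcon
  push Not at hcon
  obtain ⟨i, hi, hmax⟩ := Finset.exists_max_image (univ.filter fun l => g l ≠ 0) id
    (by obtain ⟨l, hl⟩ := hcon; exact ⟨l, by simpa using hl⟩)
  have hi' : g i ≠ 0 := by simpa using hi
  apply h i
  rw [← Finset.add_sum_erase _ _ (mem_univ i), add_eq_zero_iff_eq_neg] at hg
  rw [← Submodule.smul_mem_iff _ hi', hg]
  refine neg_mem (Submodule.sum_mem _ fun l hl => ?_)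
  by_cases hl' : g l = 0
  · rw [hl', zero_smul]; exact zero_mem _
  · exact Submodule.smul_mem _ _ (minimaV_mem x
      (show l < i from lt_of_le_of_ne (hmax l (by simpa using hl')) (Finset.ne_of_mem_erase hl)))

lemma minima_greedy {n : ℕ} (S : Set (Fin n → ℝ)) {δ : ℝ} (hδ : 0 < δ)
    (h1 : ∀ v ∈ S, v ≠ 0 → δ ≤ ‖v‖)
    (h2 : ∀ W : Submodule ℝ (Fin n → ℝ), W ≠ ⊤ → ∃ v ∈ S, v ∉ W) :
    ∃ (x : Fin n → Fin n → ℝ) (lam : Fin n → ℝ), (∀ i, x i ∈ S) ∧
      (∀ i : Fin n, x i ∉ minimaV x i) ∧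
      (∀ i, 0 < lam i) ∧ Monotone lam ∧ (∀ i, ‖x i‖ ≤ 2 * lam i) ∧
      ∀ v ∈ S, ∀ i : Fin n, v ∉ minimaV x i → lam i ≤ ‖v‖ := by
  set L : Submodule ℝ (Fin n → ℝ) → ℝ := fun W => sInf (norm '' {v | v ∈ S ∧ v ∉ W}) with hL
  have hbdd : ∀ W : Submodule ℝ (Fin n → ℝ), BddBelow (norm '' {v | v ∈ S ∧ v ∉ W}) :=
    fun W => ⟨0, by rintro _ ⟨v, -, rfl⟩; exact norm_nonneg v⟩
  have hne : ∀ W : Submodule ℝ (Fin n → ℝ), W ≠ ⊤ → (norm '' {v | v ∈ S ∧ v ∉ W}).Nonempty :=
    fun W hW => (h2 W hW).elim fun v hv => ⟨_, v, hv, rfl⟩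
  have hLpos : ∀ W, W ≠ ⊤ → 0 < L W := fun W hW => hδ.trans_le (le_csInf (hne W hW) (by
    rintro _ ⟨v, hv, rfl⟩
    exact h1 v hv.1 (by rintro rfl; exact hv.2 (zero_mem _))))
  have h3 : ∀ W : Submodule ℝ (Fin n → ℝ), ∃ v, W ≠ ⊤ → v ∈ S ∧ v ∉ W ∧ ‖v‖ ≤ 2 * L W := by
    intro W
    by_cases hW : W = ⊤
    · exact ⟨0, fun h => absurd hW h⟩
    · obtain ⟨_, ⟨v, hv, rfl⟩, hlt⟩ := exists_lt_of_csInf_lt (hne W hW)
        (show L W < 2 * L W by linarith [hLpos W hW])
      exact ⟨v, fun _ => ⟨hv.1, hv.2, hlt.le⟩⟩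
  choose nxt hnxt using h3
  obtain ⟨W, hW0, hW⟩ : ∃ W : ℕ → Submodule ℝ (Fin n → ℝ), W 0 = ⊥ ∧
      ∀ k, W (k + 1) = W k ⊔ Submodule.span ℝ {nxt (W k)} :=
    ⟨fun k => Nat.rec ⊥ (fun _ U => U ⊔ Submodule.span ℝ {nxt U}) k, rfl, fun _ => rfl⟩
  have hrank : ∀ k : ℕ, Module.finrank ℝ ↥(W k) ≤ k := by
    intro k
    induction k with
    | zero => rw [hW0, finrank_bot]
    | succ k ih =>
      rw [hW]
      refine (Submodule.finrank_add_le_finrank_add_finrank _ _).trans (add_le_add ih ?_)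
      simpa using finrank_span_le_card (R := ℝ) ({nxt (W k)} : Set (Fin n → ℝ))
  have htop : ∀ i : Fin n, W i ≠ ⊤ := by
    intro i hi
    have := hrank i
    rw [hi, finrank_top, Module.finrank_fin_fun] at this
    exact absurd i.2 (not_lt.2 this)
  set x : Fin n → Fin n → ℝ := fun i => nxt (W i) with hx
  have hV : ∀ k, k ≤ n → minimaV x k = W k := by
    intro k
    induction k with
    | zero => intro _; simp [minimaV, hW0]
    | succ k ih =>
      intro hk
      rw [hW, ← ih (by omega)]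
      have e : nxt (minimaV x k) = x ⟨k, hk⟩ := by rw [ih (by omega)]
      rw [e]
      refine le_antisymm (minimaV_le fun l hl => ?_)
        (sup_le (minimaV_mono x (by omega)) ?_)
      · rcases Nat.lt_succ_iff_lt_or_eq.1 hl with h | h
        · exact Submodule.mem_sup_left (minimaV_mem x h)
        · have : l = ⟨k, hk⟩ := Fin.ext h
          rw [this]
          exact Submodule.mem_sup_right (Submodule.mem_span_singleton_self _)
      · rw [Submodule.span_singleton_le_iff_mem]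
        exact minimaV_mem x (Nat.lt_succ_self k)
  refine ⟨x, fun i => L (W i), fun i => (hnxt _ (htop i)).1, fun i => ?_, fun i => hLpos _ (htop i),
    fun i j hij => ?_, fun i => (hnxt _ (htop i)).2.2, fun v hv i hi => ?_⟩
  · rw [hV i i.2.le]; exact (hnxt _ (htop i)).2.1
  · refine csInf_le_csInf (hbdd _) (hne _ (htop j)) (Set.image_mono fun v hv => ⟨hv.1, fun h => ?_⟩)
    rw [← hV i i.2.le] at h
    exact hv.2 (hV j j.2.le ▸ minimaV_mono x hij h)
  · rw [hV i i.2.le] at hi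
    exact csInf_le (hbdd _) ⟨v, ⟨hv, hi⟩, rfl⟩

/-- The flag property of a permutation. -/
def minimaFlag {n : ℕ} (x : Fin n → Fin n → ℝ) (π : Equiv.Perm (Fin n)) : Prop :=
  ∀ (k : ℕ) (v : Fin n → ℝ), v ∈ minimaV x k → ∀ i : Fin n,
    |v i| ≤ 2 ^ n * ∑ j ∈ univ.filter (fun j : Fin n => (j : ℕ) < k), |v (π j)|

lemma minima_exists_flag {n : ℕ} (x : Fin n → Fin n → ℝ) : ∃ π, minimaFlag x π := by
  obtain ⟨π, hπ⟩ := exists_perm_flag n x
  refine ⟨π, fun k v hv i => ?_⟩
  obtain ⟨g, hg, rfl⟩ := minimaV_iff.1 hv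
  have := hπ k g hg (π.symm i)
  simpa [Finset.sum_apply] using this

lemma minimaFlag.bound {n : ℕ} {x : Fin n → Fin n → ℝ} {π : Equiv.Perm (Fin n)}
    (h : minimaFlag x π) {k : ℕ} {v : Fin n → ℝ} (hv : v ∈ minimaV x k) {B : ℝ} (hB0 : 0 ≤ B)
    (hB : ∀ j : Fin n, (j : ℕ) < k → |v (π j)| ≤ B) (i : Fin n) : |v i| ≤ 2 ^ n * (n * B) := by
  refine (h k v hv i).trans (mul_le_mul_of_nonneg_left ?_ (by positivity))
  refine (Finset.sum_le_card_nsmul _ _ B fun j hj => hB j (by simpa using hj)).trans ?_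
  rw [nsmul_eq_mul]
  gcongr
  exact (Finset.card_le_univ _).trans (by simp)

lemma minimaFlag.surj {n : ℕ} {x : Fin n → Fin n → ℝ} {π : Equiv.Perm (Fin n)}
    (h : minimaFlag x π) (hx : LinearIndependent ℝ x) (k : ℕ) (b : Fin n → ℝ) :
    ∃ v ∈ minimaV x k, ∀ j : Fin n, (j : ℕ) < k → v (π j) = b j := by
  set M : Matrix (Fin n) (Fin n) ℝ :=
    Matrix.of fun j l => if (j : ℕ) < k then x l (π j) else if j = l then 1 else 0 with hM
  have e1 : ∀ (g : Fin n → ℝ) (j : Fin n), (j : ℕ) < k → (M *ᵥ g) j = (∑ l, g l • x l) (π j) := by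
    intro g j hj
    simp [hM, Matrix.mulVec, dotProduct, hj, Finset.sum_apply, mul_comm]
  have e2 : ∀ (g : Fin n → ℝ) (j : Fin n), k ≤ j → (M *ᵥ g) j = g j := by
    intro g j hj
    simp [hM, Matrix.mulVec, dotProduct, hj.not_gt]
  have hinj : Function.Injective M.mulVecLin := by
    rw [injective_iff_map_eq_zero]
    intro g hg
    have hg' : M *ᵥ g = 0 := hg
    have h1 : ∀ l : Fin n, k ≤ l → g l = 0 := fun l hl => by rw [← e2 g l hl, hg']; rfl
    have h2 : ∑ l, g l • x l = 0 := by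
      ext i
      have := h.bound (minimaV_iff.2 ⟨g, h1, rfl⟩) le_rfl
        (fun j hj => by rw [← e1 g j hj, hg']; simp) i
      simpa using this
    exact funext (Fintype.linearIndependent_iff.1 hx g h2)
  obtain ⟨g, hg⟩ := LinearMap.injective_iff_surjective.1 hinj fun j => if (j : ℕ) < k then b j else 0
  have hg' : M *ᵥ g = fun j : Fin n => if (j : ℕ) < k then b j else 0 := hg
  refine ⟨∑ l, g l • x l, minimaV_iff.2 ⟨g, fun l hl => ?_, rfl⟩, fun j hj => ?_⟩
  · rw [← e2 g l hl, hg']; simp [hl.not_gt]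
  · rw [← e1 g j hj, hg']; simp [hj]

lemma minima_evertse {n : ℕ} (S : AddSubgroup (Fin n → ℝ)) {x : Fin n → Fin n → ℝ}
    {lam : Fin n → ℝ} {π : Equiv.Perm (Fin n)} (hS : ∀ i, x i ∈ S) (hx : LinearIndependent ℝ x)
    (hpos : ∀ i, 0 < lam i) (hmono : Monotone lam) (hn : ∀ i, ‖x i‖ ≤ 2 * lam i)
    (hπ : minimaFlag x π) (k : ℕ) (hk : k ≤ n) :
    ∃ X : Fin n → Fin n → ℝ, (∀ i, X i ∈ S) ∧ (∀ i : Fin n, X i - x i ∈ minimaV x i) ∧
      ∀ i : Fin n, (i : ℕ) < k → ∀ l, |X i (π l)| ≤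
        (2 + 2 ^ n * (n * 2)) * (n + 1) ^ k * min (lam i) (lam l) := by
  induction k with
  | zero => exact ⟨x, hS, by simp, by simp⟩
  | succ k ih =>
    obtain ⟨X, h1, h2, h3⟩ := ih (by omega)
    set c₀ : ℝ := 2 + 2 ^ n * (n * 2) with hc₀
    have hc0 : 0 < c₀ := by positivity
    set C : ℝ := c₀ * (n + 1) ^ k with hC
    have hC1 : c₀ ≤ C := le_mul_of_one_le_right hc0.le (one_le_pow₀ (by simp))
    have hC2 : c₀ * (n + 1) ^ (k + 1) = C + n * C := by rw [hC]; ring
    have hC0 : 0 < C := hc0.trans_le hC1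
    set κ : Fin n := ⟨k, hk⟩ with hκ
    obtain ⟨v, hv, hvb⟩ := hπ.surj hx k fun j => -x κ (π j)
    have hxb : ∀ i, |x κ i| ≤ 2 * lam κ := fun i => (norm_le_pi_norm (x κ) i).trans (hn κ)
    have hvc := hπ.bound hv (B := 2 * lam κ) (by linarith [hpos κ])
      (fun j hj => by rw [hvb j hj, abs_neg]; exact hxb _)
    obtain ⟨t, ht, htv⟩ := minimaV_iff.1 (minimaV_congr h2 k ▸ hv)
    set X' : Fin n → ℝ := x κ + ∑ l, round (t l) • X l with hX'
    refine ⟨Function.update X κ X', fun i => ?_, fun i => ?_, fun i hi l => ?_⟩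
    · rcases eq_or_ne i κ with rfl | hi
      · rw [Function.update_self]
        exact add_mem (hS _) (sum_mem fun l _ => zsmul_mem (h1 l) _)
      · rw [Function.update_of_ne hi]; exact h1 i
    · rcases eq_or_ne i κ with rfl | hi
      · rw [Function.update_self, hX', add_sub_cancel_left, ← minimaV_congr h2]
        refine minimaV_iff.2 ⟨fun l => round (t l), fun l hl => by simp [ht l hl], ?_⟩
        simp only [Int.cast_smul_eq_zsmul]
      · rw [Function.update_of_ne hi]; exact h2 i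
    · have hmin : 0 < min (lam i) (lam l) := lt_min (hpos i) (hpos l)
      rw [hC2]
      rcases eq_or_ne i κ with rfl | hi'
      · rw [Function.update_self]
        have e : X' (π l) = (x κ (π l) + v (π l)) + ∑ m, (round (t m) - t m) * X m (π l) := by
          simp only [hX', htv, Pi.add_apply, Finset.sum_apply, Pi.smul_apply, zsmul_eq_mul,
            smul_eq_mul, sub_mul, Finset.sum_sub_distrib, Pi.mul_apply, Pi.intCast_apply]
          ring
        have e1 : |x κ (π l) + v (π l)| ≤ c₀ * min (lam κ) (lam l) := by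
          by_cases hl : (l : ℕ) < k
          · rw [hvb l hl, add_neg_cancel, abs_zero]; positivity
          · rw [min_eq_left (hmono (show κ ≤ l from not_lt.1 hl))]
            refine (abs_add_le _ _).trans ((add_le_add (hxb _) (hvc _)).trans (le_of_eq ?_))
            rw [hc₀]; ring
        have e2 : |∑ m, (round (t m) - t m) * X m (π l)| ≤ n * (C * min (lam κ) (lam l)) := by
          refine (Finset.abs_sum_le_sum_abs _ _).trans ?_
          refine (Finset.sum_le_card_nsmul _ _ (C * min (lam κ) (lam l)) fun m _ => ?_).trans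
            (by simp)
          by_cases hm : (m : ℕ) < k
          · rw [abs_mul, abs_sub_comm]
            have h4 := abs_sub_round (t m)
            have h5 : |X m (π l)| ≤ C * min (lam κ) (lam l) :=
              (h3 m hm l).trans (mul_le_mul_of_nonneg_left
                (min_le_min_right _ (hmono (show m ≤ κ from hm.le))) hC0.le)
            nlinarith [abs_nonneg (X m (π l)), abs_nonneg (t m - round (t m))]
          · rw [ht m (not_lt.1 hm)]; simp; positivity
        rw [e]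
        refine (abs_add_le _ _).trans ((add_le_add e1 e2).trans ?_)
        nlinarith
      · rw [Function.update_of_ne hi']
        have hik : (i : ℕ) < k := by
          have : (i : ℕ) ≠ k := fun h => hi' (Fin.ext h)
          omega
        refine (h3 i hik l).trans (mul_le_mul_of_nonneg_right ?_ hmin.le)
        have : 0 ≤ n * C := by positivity
        linarith

theorem exists_minima (n : ℕ) : ∃ C : ℝ, 1 ≤ C ∧ ∀ {κ : Type} [Fintype κ]
    (L₀ : Matrix (Fin n) (Fin n) ℤ), L₀.det ≠ 0 → ∀ (A : Fin n → ℝ), (∀ i, 0 < A i) →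
    ∀ (F : κ → Fin n → ℤ) (md : κ → ℕ), (∀ k, 0 < md k) →
    ∃ (X : Matrix (Fin n) (Fin n) ℤ) (lam : Fin n → ℝ) (π : Equiv.Perm (Fin n)),
      X.det ≠ 0 ∧ (∀ i k, (md k : ℤ) ∣ F k ⬝ᵥ X i) ∧ (∀ i, 0 < lam i) ∧ Monotone lam ∧
      (∀ i l, |(((L₀ *ᵥ X i) (π l) : ℤ) : ℝ)| ≤ C * A (π l) * min (lam i) (lam l)) ∧
      ((∏ i, lam i) * ∏ i, A i ≤ C * |(L₀.det : ℝ)| * ∏ k, (md k : ℝ)) ∧
      ∀ y : Fin n → ℤ, (∀ k, (md k : ℤ) ∣ F k ⬝ᵥ y) → ∀ i : Fin n,
        (∀ l, |(((L₀ *ᵥ y) l : ℤ) : ℝ)| < A l * lam i) →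
        ∃ g : Fin n → ℚ, (∀ l, i ≤ l → g l = 0) ∧ ∀ j, (y j : ℚ) = ∑ l, g l * X l j := by
  set C₁ : ℝ := (2 + 2 ^ n * (n * 2)) * (n + 1) ^ n with hC₁
  set c : ℝ := 2 ^ n * (n * 2) + 1 with hc
  have hC₁0 : 0 ≤ C₁ := by positivity
  have hc1 : 1 ≤ c := by rw [hc]; simp only [le_add_iff_nonneg_left]; positivity
  have hc0 : 0 < c := by positivity
  have hcn : 1 ≤ c ^ n := one_le_pow₀ hc1
  refine ⟨C₁ + c ^ n, by linarith, ?_⟩
  intro κ _ L₀ hL A hA F md hmd
  classical
  set Lr : Matrix (Fin n) (Fin n) ℝ := L₀.map (Int.castRingHom ℝ) with hLr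
  have hdet : Lr.det ≠ 0 := by
    rw [hLr, ← (Int.castRingHom ℝ).mapMatrix_apply, ← RingHom.map_det]
    simpa using hL
  set φ : (Fin n → ℝ) →ₗ[ℝ] (Fin n → ℝ) :=
    (Matrix.diagonal (fun l => (A l)⁻¹) * Lr).mulVecLin with hφ
  have hφdet : (Matrix.diagonal (fun l => (A l)⁻¹) * Lr).det ≠ 0 := by
    rw [Matrix.det_mul, Matrix.det_diagonal]
    exact mul_ne_zero (Finset.prod_ne_zero_iff.2 fun l _ => inv_ne_zero (hA l).ne') hdet
  have hφinj : Function.Injective φ := by
    rw [injective_iff_map_eq_zero]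
    exact fun v hv => Matrix.eq_zero_of_mulVec_eq_zero hφdet hv
  have hφsurj : Function.Surjective φ := LinearMap.injective_iff_surjective.1 hφinj
  set cs : (Fin n → ℤ) →+ (Fin n → ℝ) := (Int.castAddHom ℝ).compLeft (Fin n) with hcs
  have hcs' : ∀ y j, cs y j = (y j : ℝ) := fun y j => rfl
  have hψ : ∀ y l, φ (cs y) l = (((L₀ *ᵥ y) l : ℤ) : ℝ) / A l := by
    intro y l
    rw [hφ, Matrix.mulVecLin_apply, ← Matrix.mulVec_mulVec, Matrix.mulVec_diagonal]
    simp [hLr, Matrix.mulVec, dotProduct, hcs', div_eq_inv_mul]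
  have hψabs : ∀ y l, |φ (cs y) l| = |(((L₀ *ᵥ y) l : ℤ) : ℝ)| / A l := by
    intro y l; rw [hψ, abs_div, abs_of_pos (hA l)]
  let Λ : AddSubgroup (Fin n → ℤ) :=
    { carrier := {y | ∀ k, (md k : ℤ) ∣ F k ⬝ᵥ y}
      add_mem' := fun ha hb k => by rw [dotProduct_add]; exact dvd_add (ha k) (hb k)
      zero_mem' := fun k => by simp
      neg_mem' := fun ha k => by rw [dotProduct_neg]; exact (dvd_neg).2 (ha k) }
  set S : AddSubgroup (Fin n → ℝ) := Λ.map (φ.toAddMonoidHom.comp cs) with hS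
  have hmemS : ∀ y, (∀ k, (md k : ℤ) ∣ F k ⬝ᵥ y) → φ (cs y) ∈ S := fun y hy => ⟨y, hy, rfl⟩
  have hAs : 0 ≤ ∑ l, A l := Finset.sum_nonneg fun l _ => (hA l).le
  obtain ⟨x, lam, hx1, hx2, hpos, hmono, hx3, hx4⟩ := minima_greedy (S : Set (Fin n → ℝ))
    (δ := (1 + ∑ l, A l)⁻¹) (by positivity) (by
      rintro _ ⟨y, -, rfl⟩ h0
      obtain ⟨l, hl⟩ := Function.ne_iff.1 h0
      refine le_trans ?_ (norm_le_pi_norm _ l)
      change φ (cs y) l ≠ 0 at hl
      change _ ≤ |φ (cs y) l|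
      rw [hψ] at hl
      have h1 : (L₀ *ᵥ y) l ≠ 0 := fun h => hl (by rw [h]; simp)
      have h2 : (1 : ℝ) ≤ |(((L₀ *ᵥ y) l : ℤ) : ℝ)| := by exact_mod_cast Int.one_le_abs h1
      have h3 : A l ≤ ∑ l, A l := Finset.single_le_sum (fun l _ => (hA l).le) (mem_univ l)
      rw [hψabs, inv_eq_one_div]
      have := hA l
      gcongr
      linarith) (by
      intro W hW
      by_contra hcon
      push Not at hcon
      apply hW
      rw [eq_top_iff]
      intro w _
      obtain ⟨v, rfl⟩ := hφsurj w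
      set P : ℤ := ∏ k, (md k : ℤ) with hP
      have hP0 : (P : ℝ) ≠ 0 := by
        have : 0 < P := Finset.prod_pos fun k _ => by exact_mod_cast hmd k
        exact_mod_cast this.ne'
      have e : v = ∑ j, (v j / P) • cs (Pi.single j P) := by
        ext i
        simp only [Finset.sum_apply, Pi.smul_apply, hcs', smul_eq_mul]
        rw [Finset.sum_eq_single i]
        · simp [hP0]
        · intro j _ hj; simp [Pi.single_eq_of_ne' hj]
        · simp
      rw [e, map_sum]
      refine Submodule.sum_mem _ fun j _ => ?_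
      rw [map_smul]
      refine Submodule.smul_mem _ _ (hcon _ (hmemS _ fun k => ?_))
      rw [dotProduct_single]
      exact Dvd.dvd.mul_left (Finset.dvd_prod_of_mem _ (mem_univ k)) _)
  have hind := minimaV_indep hx2
  obtain ⟨π, hπ⟩ := minima_exists_flag x
  obtain ⟨X, hX1, hX2, hX3⟩ := minima_evertse S hx1 hind hpos hmono hx3 hπ n le_rfl
  choose Y hY1 hY2 using hX1
  have hY3 : ∀ i, φ (cs (Y i)) = X i := hY2
  have hXind : LinearIndependent ℝ X := minimaV_indep fun i hi => hx2 i (by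
    rw [minimaV_congr hX2] at hi
    simpa using sub_mem hi (hX2 i))
  have hYind : LinearIndependent ℝ fun i => cs (Y i) :=
    LinearIndependent.of_comp φ (by rwa [show φ ∘ (fun i => cs (Y i)) = X from funext hY3])
  have hYdet : (Matrix.of Y).det ≠ 0 := by
    have h1 : IsUnit ((Matrix.of Y).map (Int.castRingHom ℝ)) :=
      Matrix.linearIndependent_rows_iff_isUnit.1 hYind
    rw [Matrix.isUnit_iff_isUnit_det, ← (Int.castRingHom ℝ).mapMatrix_apply,
      ← RingHom.map_det] at h1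
    simpa using h1.ne_zero
  refine ⟨Matrix.of Y, lam, π, hYdet, fun i k => hY1 i k, hpos, hmono, fun i l => ?_, ?_,
    fun y hy i hi => ?_⟩
  · have h1 := hX3 i i.2 l
    rw [← hY3, hψabs, div_le_iff₀ (hA _)] at h1
    refine le_trans h1 ?_
    have hmin : 0 < min (lam i) (lam l) := lt_min (hpos i) (hpos l)
    have := mul_pos hmin (hA (π l))
    rw [← hC₁]
    nlinarith
  · have hmd1 : (1 : ℝ) ≤ ∏ k, (md k : ℝ) :=
      Finset.one_le_prod fun k _ => by exact_mod_cast hmd k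
    have hL1 : (1 : ℝ) ≤ |(L₀.det : ℝ)| := by exact_mod_cast Int.one_le_abs hL
    suffices h : (∏ i, lam i) * ∏ i, A i ≤ c ^ n * (|(L₀.det : ℝ)| * ∏ k, (md k : ℝ)) by
      refine h.trans ?_
      rw [mul_assoc]
      gcongr
      linarith
    rcases Nat.eq_zero_or_pos n with rfl | hn
    · simp only [univ_eq_empty, prod_empty, mul_one, pow_zero, one_mul]
      exact one_le_mul_of_one_le_of_one_le hL1 hmd1
    have : Nonempty (Fin n) := ⟨⟨0, hn⟩⟩
    by_contra hcon
    push Not at hcon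
    obtain ⟨y, hy0, hy1, hy2⟩ := minkowski_forms L₀ hL (fun l => c⁻¹ * (lam (π.symm l) * A l))
      (fun l => by have := hA l; have := hpos (π.symm l); positivity) F md hmd (by
        rw [Finset.prod_mul_distrib, Finset.prod_mul_distrib, Equiv.prod_comp π.symm lam,
          Finset.prod_const, card_univ, Fintype.card_fin, inv_pow, lt_inv_mul_iff₀ (by positivity)]
        exact hcon)
    have hv0 : φ (cs y) ∉ minimaV x 0 := by
      intro h
      have h1 : φ (cs y) = 0 := by simpa [minimaV] using h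
      have h2 : cs y = 0 := hφinj (by rw [h1, map_zero])
      apply hy0
      ext j
      have := congrFun h2 j
      rw [hcs', Pi.zero_apply] at this
      exact_mod_cast this
    have hvn : φ (cs y) ∈ minimaV x n := by
      obtain ⟨v, hv, hvb⟩ := hπ.surj hind n fun j => φ (cs y) (π j)
      have : v = φ (cs y) := by
        ext j
        simpa using hvb (π.symm j) (π.symm j).2
      exact this ▸ hv
    obtain ⟨k, hk, hk1, hk2⟩ : ∃ k < n, φ (cs y) ∉ minimaV x k ∧ φ (cs y) ∈ minimaV x (k + 1) := by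
      by_contra hcon2
      push Not at hcon2
      have : ∀ k ≤ n, φ (cs y) ∉ minimaV x k := by
        intro k
        induction k with
        | zero => exact fun _ => hv0
        | succ k ih => exact fun hk => hcon2 k hk (ih (by omega))
      exact this n le_rfl hvn
    have h1 := hx4 _ (hmemS y hy2) ⟨k, hk⟩ hk1
    have hl := hpos ⟨k, hk⟩
    have h2 : ‖φ (cs y)‖ ≤ 2 ^ n * (n * (c⁻¹ * lam ⟨k, hk⟩)) := by
      refine (pi_norm_le_iff_of_nonneg (by positivity)).2 fun i => ?_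
      refine hπ.bound hk2 (by positivity) (fun j hj => ?_) i
      rw [hψabs, div_le_iff₀ (hA _)]
      refine (hy1 (π j)).le.trans ?_
      rw [Equiv.symm_apply_apply, mul_assoc]
      have := hA (π j)
      gcongr
      exact hmono (show j ≤ ⟨k, hk⟩ from Nat.lt_succ_iff.1 hj)
    have h3 : 2 ^ n * (n * (c⁻¹ * lam ⟨k, hk⟩)) < lam ⟨k, hk⟩ := by
      have : (2 : ℝ) ^ n * n * c⁻¹ < 1 := by
        rw [← div_eq_mul_inv, div_lt_one hc0, hc]
        have : (0 : ℝ) ≤ 2 ^ n * n := by positivity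
        linarith
      nlinarith
    linarith
  · have h1 : ‖φ (cs y)‖ < lam i := by
      refine (pi_norm_lt_iff (hpos i)).2 fun l => ?_
      rw [Real.norm_eq_abs, hψabs, div_lt_iff₀ (hA l), mul_comm]
      exact hi l
    have h2 : φ (cs y) ∈ minimaV X i := by
      rw [minimaV_congr hX2]
      by_contra h
      exact absurd (hx4 _ (hmemS y hy) i h) (not_le.2 h1)
    obtain ⟨g, hg1, hg2⟩ := minimaV_iff.1 h2
    have hg3 : cs y = ∑ l, g l • cs (Y l) := hφinj (by simp only [hg2, map_sum, map_smul, hY3])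
    set Yq : Matrix (Fin n) (Fin n) ℚ := (Matrix.of Y).map (Int.castRingHom ℚ) with hYq
    have hYqdet : IsUnit Yq.det := by
      rw [hYq, ← (Int.castRingHom ℚ).mapMatrix_apply, ← RingHom.map_det]
      simpa using hYdet
    set g' : Fin n → ℚ := (fun j => (y j : ℚ)) ᵥ* Yq⁻¹ with hg'
    have h3 : ∀ j, (y j : ℚ) = ∑ l, g' l * Y l j := by
      intro j
      have : g' ᵥ* Yq = fun j => (y j : ℚ) := by
        rw [hg', Matrix.vecMul_vecMul, Matrix.nonsing_inv_mul _ hYqdet, Matrix.vecMul_one]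
      rw [← congrFun this j]
      simp [Matrix.vecMul, dotProduct, hYq]
    refine ⟨g', fun l hl => ?_, h3⟩
    have h4 : ∑ l, ((g' l : ℝ) - g l) • cs (Y l) = 0 := by
      simp only [sub_smul, Finset.sum_sub_distrib, ← hg3]
      ext j
      simp only [Pi.sub_apply, Finset.sum_apply, Pi.smul_apply, hcs', smul_eq_mul, Pi.zero_apply]
      have := congrArg (fun q : ℚ => (q : ℝ)) (h3 j)
      push_cast at this
      rw [this, sub_self]
    have h5 := Fintype.linearIndependent_iff.1 hYind _ h4 l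
    rw [hg1 l hl, sub_zero] at h5
    exact_mod_cast h5

end Pool.Agent.Lib.Common.Subspace
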