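import Pool.Agent.Lib.Common.Subspace.Wedge
import Pool.Agent.Lib.Common.Subspace.Minima

/-! The p-adic Subspace Theorem over the rationals (Schmidt, Schlickewei). -/

namespace Pool.Agent.Lib.Common.Subspace

open Finset Matrix Filter

theorem padicNorm_int_eq {p : ℕ} (hp : p.Prime) {a : ℤ} (ha : a ≠ 0) :
    ((padicNorm p (a : ℚ) : ℚ) : ℝ) = ((p : ℝ) ^ padicValInt p a)⁻¹ := by
  have := Fact.mk hp
  rw [padicNorm.eq_zpow_of_nonzero (by exact_mod_cast ha), padicValRat.of_int]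
  push_cast
  rw [_root_.zpow_neg, _root_.zpow_natCast]

theorem padicNorm_le_of_dvd {p : ℕ} (hp : p.Prime) {a : ℤ} {e : ℕ} (h : (p : ℤ) ^ e ∣ a) :
    ((padicNorm p (a : ℚ) : ℚ) : ℝ) ≤ ((p : ℝ) ^ e)⁻¹ := by
  have := Fact.mk hp
  have h1 := (padicNorm.dvd_iff_norm_le (p := p) (n := e) (z := a)).1 (by exact_mod_cast h)
  have h2 : ((padicNorm p (a : ℚ) : ℚ) : ℝ) ≤ (((p : ℚ) ^ (-(e : ℤ)) : ℚ) : ℝ) := by
    exact_mod_cast h1
  refine h2.trans (le_of_eq ?_)
  push_cast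
  rw [_root_.zpow_neg, _root_.zpow_natCast]

theorem prod_pow_padicVal_le (S : Finset ℕ) (hS : ∀ p ∈ S, p.Prime) {a : ℤ} (ha : a ≠ 0) :
    ∏ p ∈ S, (p : ℝ) ^ padicValInt p a ≤ |(a : ℝ)| := by
  have h1 : ∏ p ∈ S, (p : ℤ) ^ padicValInt p a ∣ a := by
    refine Finset.prod_dvd_of_coprime ?_ (fun p _ => padicValInt_dvd a)
    intro p hp q hq hpq
    exact (Nat.isCoprime_iff_coprime.2 ((Nat.coprime_primes (hS p hp) (hS q hq)).2 hpq)).pow
  have h2 := Int.le_of_dvd (abs_pos.2 ha) ((dvd_abs _ _).2 h1)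
  exact_mod_cast h2

/-- The real place and the places of the primes in `S`. -/
noncomputable def place (S : Finset ℕ) (hS : ∀ p ∈ S, p.Prime) :
    Option S → AbsoluteValue ℚ ℝ
  | none => Rat.AbsoluteValue.real
  | some p => @Rat.AbsoluteValue.padic p.1 ⟨hS p.1 p.2⟩

theorem place_none (S : Finset ℕ) (hS : ∀ p ∈ S, p.Prime) (a : ℤ) :
    place S hS none (a : ℚ) = |(a : ℝ)| := by
  simp [place]

theorem place_some (S : Finset ℕ) (hS : ∀ p ∈ S, p.Prime) (p : S) (r : ℚ) :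
    place S hS (some p) r = ((padicNorm p.1 r : ℚ) : ℝ) := rfl

theorem places_place (S : Finset ℕ) (hS : ∀ p ∈ S, p.Prime) : Places (place S hS) := by
  refine ⟨?_, ?_, ?_⟩
  · rintro (_ | p) a
    · rw [place_none]
    · rw [place_some]
      by_cases ha : a = 0
      · simp [ha]
      · have := Fact.mk (hS p.1 p.2)
        have h1 : ((padicNorm p.1 (a : ℚ) : ℚ) : ℝ) ≤ 1 := by exact_mod_cast padicNorm.of_int a
        have h2 : (1 : ℝ) ≤ |(a : ℝ)| := by exact_mod_cast Int.one_le_abs ha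
        linarith
  · rintro (_ | p) a ha
    · rw [place_none]
      have h2 : (1 : ℝ) ≤ |(a : ℝ)| := by exact_mod_cast Int.one_le_abs ha
      nlinarith
    · rw [place_some, padicNorm_int_eq (hS p.1 p.2) ha]
      have h1 := prod_pow_padicVal_le {p.1} (by simpa using hS p.1 p.2) ha
      rw [Finset.prod_singleton] at h1
      have h2 : (0 : ℝ) < (p.1 : ℝ) ^ padicValInt p.1 a :=
        pow_pos (by exact_mod_cast (hS p.1 p.2).pos) _
      rw [inv_mul_eq_div, le_div_iff₀ h2, one_mul]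
      exact h1
  · intro a ha
    rw [Fintype.prod_option, place_none]
    have h1 : ∏ p : S, place S hS (some p) (a : ℚ) =
        (∏ p ∈ S, (p : ℝ) ^ padicValInt p a)⁻¹ := by
      rw [← Finset.prod_inv_distrib, ← Finset.prod_coe_sort S]
      exact Finset.prod_congr rfl fun p _ => by rw [place_some, padicNorm_int_eq (hS p.1 p.2) ha]
    have h2 : (0 : ℝ) < ∏ p ∈ S, (p : ℝ) ^ padicValInt p a :=
      Finset.prod_pos fun p hp => pow_pos (by exact_mod_cast (hS p hp).pos) _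
    rw [h1, ← div_eq_mul_inv, le_div_iff₀ h2, one_mul]
    exact prod_pow_padicVal_le S hS ha

theorem exists_gap {n : ℕ} (l : Fin n → ℝ) (g : ℝ) (hg : 0 ≤ g)
    (h0 : ∀ i : Fin n, (i : ℕ) = 0 → l i ≤ 0) (hs : n * (n * g) < ∑ i, l i) :
    ∃ i j : Fin n, (j : ℕ) = i + 1 ∧ 0 < l j ∧ l i + g ≤ l j := by
  by_contra hcon
  push Not at hcon
  have h1 : ∀ (k : ℕ) (hk : k < n), l ⟨k, hk⟩ ≤ k * g := by
    intro k
    induction k with
    | zero => intro hk; simpa using h0 ⟨0, hk⟩ rfl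
    | succ k ih =>
      intro hk
      have h2 := ih (by omega)
      by_cases h3 : 0 < l ⟨k + 1, hk⟩
      · have := hcon ⟨k, by omega⟩ ⟨k + 1, hk⟩ rfl h3
        push_cast; linarith
      · have : (0 : ℝ) ≤ ((k + 1 : ℕ) : ℝ) * g := by positivity
        linarith
  have h2 : ∑ i, l i ≤ ∑ _i : Fin n, n * g := Finset.sum_le_sum fun i _ => by
    have h3 := h1 i i.2
    have h4 : ((i : ℕ) : ℝ) ≤ n := by exact_mod_cast i.2.le
    exact h3.trans (mul_le_mul_of_nonneg_right h4 hg)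
  simp only [Finset.sum_const, card_univ, Fintype.card_fin, nsmul_eq_mul] at h2
  linarith

theorem row_ne_zero {n : Type*} [Fintype n] [DecidableEq n] {A : Matrix n n ℤ} (hA : A.det ≠ 0)
    (i : n) : A i ≠ 0 := fun h => hA (Matrix.det_eq_zero_of_row_eq_zero i (congrFun h))

theorem bq_log_mulVec {n : Type*} [Fintype n] {τ : Type*} {U : Filter τ} {q : τ → ℝ}
    (hq : Tendsto q U atTop) (x : τ → n → ℤ) (K : ℝ)
    (hx : ∀ᶠ t in U, ∀ i, |(x t i : ℝ)| ≤ Real.exp (K * q t)) (w : n → ℤ) :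
    BQ U q (fun t => Real.log (max 1 |((w ⬝ᵥ x t : ℤ) : ℝ)|)) := by
  set c : ℝ := 1 + ∑ i, |(w i : ℝ)| with hc
  have hc1 : 1 ≤ c := by
    have : 0 ≤ ∑ i, |(w i : ℝ)| := Finset.sum_nonneg fun _ _ => abs_nonneg _
    linarith
  refine BQ.of_le (bq_const hq 0) ((bq_const hq (Real.log c)).add (bq_mul_self hq |K|)) ?_
  filter_upwards [hx, hq.eventually_ge_atTop 0] with t ht h0
  refine ⟨Real.log_nonneg (le_max_left _ _), ?_⟩
  have hE : 1 ≤ Real.exp (|K| * q t) := Real.one_le_exp (by positivity)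
  have h1 : |((w ⬝ᵥ x t : ℤ) : ℝ)| ≤ (∑ i, |(w i : ℝ)|) * Real.exp (|K| * q t) := by
    rw [dotProduct, Finset.sum_mul]
    push_cast
    refine (Finset.abs_sum_le_sum_abs _ _).trans (Finset.sum_le_sum fun i _ => ?_)
    rw [abs_mul]
    refine mul_le_mul_of_nonneg_left ((ht i).trans (Real.exp_le_exp.2 ?_)) (abs_nonneg _)
    exact mul_le_mul_of_nonneg_right (le_abs_self K) h0
  rw [← Real.log_exp (|K| * q t), ← Real.log_mul (by positivity) (by positivity)]
  refine Real.log_le_log (by positivity) (max_le (by nlinarith) (h1.trans ?_))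
  exact mul_le_mul_of_nonneg_right (by linarith) (by positivity)

/-- Lower bound for the sum of the column bounds, from the product formula for `det X`. -/
theorem sum_lower {Pl : Type*} [Fintype Pl] (v : Pl → AbsoluteValue ℚ ℝ) (hv : Places v) {n : ℕ}
    (N : Pl → Matrix (Fin n) (Fin n) ℤ) (hN : ∀ p, (N p).det ≠ 0) :
    ∃ c : ℝ, ∀ (X : Matrix (Fin n) (Fin n) ℤ), X.det ≠ 0 → ∀ β : Pl → Fin n → ℝ,
      (∀ p i l, v p (((N p *ᵥ X i) l : ℤ) : ℚ) ≤ Real.exp (β p l)) → -c ≤ ∑ p, ∑ l, β p l := by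
  refine ⟨∑ p, Real.log (|((N p).det : ℝ)| * n.factorial), fun X hX β h => ?_⟩
  have hfac : (0 : ℝ) < n.factorial := by exact_mod_cast n.factorial_pos
  have hpos : ∀ p, (0 : ℝ) < |((N p).det : ℝ)| * n.factorial := fun p =>
    mul_pos (abs_pos.2 (by exact_mod_cast hN p)) hfac
  have h1 : ∀ p, v p ((X.det : ℤ) : ℚ) ≤
      Real.exp (Real.log (|((N p).det : ℝ)| * n.factorial) + ∑ l, β p l) := by
    intro p
    have h2 := abv_int_det_le (v p) (X * (N p)ᵀ) (fun _ => 1) (fun l => Real.exp (β p l))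
      (fun i l => by
        rw [one_mul]
        have : (X * (N p)ᵀ) i l = (N p *ᵥ X i) l := by
          simp [Matrix.mul_apply, Matrix.mulVec, dotProduct, mul_comm]
        rw [this]; exact h p i l)
    rw [Matrix.det_mul, Matrix.det_transpose, Int.cast_mul, map_mul] at h2
    simp only [Finset.prod_const_one, one_mul, Fintype.card_fin, ← Real.exp_sum] at h2
    have h3 := hv.2.1 p _ (hN p)
    rw [Real.exp_add, Real.exp_log (hpos p)]
    have h4 : 0 ≤ v p ((X.det : ℤ) : ℚ) := (v p).nonneg _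
    calc v p ((X.det : ℤ) : ℚ) ≤ v p ((X.det : ℤ) : ℚ) *
          (v p (((N p).det : ℤ) : ℚ) * |((N p).det : ℝ)|) := le_mul_of_one_le_right h4 h3
      _ = |((N p).det : ℝ)| * (v p ((X.det : ℤ) : ℚ) * v p (((N p).det : ℤ) : ℚ)) := by ring
      _ ≤ |((N p).det : ℝ)| * (n.factorial * Real.exp (∑ l, β p l)) :=
          mul_le_mul_of_nonneg_left h2 (abs_nonneg _)
      _ = _ := by ring
  have h5 := (hv.2.2 _ hX).trans (Finset.prod_le_prod (fun p _ => (v p).nonneg _) fun p _ => h1 p)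
  rw [← Real.exp_sum, Real.one_le_exp_iff, Finset.sum_add_distrib] at h5
  linarith

theorem subspace_fin (n : ℕ) (S : Finset ℕ) (hS : ∀ p ∈ S, p.Prime)
    (L₀ : Matrix (Fin n) (Fin n) ℤ) (h₀ : L₀.det ≠ 0) (L : ℕ → Matrix (Fin n) (Fin n) ℤ)
    (hL : ∀ p ∈ S, (L p).det ≠ 0) {τ : Type*} (U : Ultrafilter τ) (q : τ → ℝ)
    (hq : Tendsto q U atTop) (x : τ → Fin n → ℤ) (K δ : ℝ) (hδ : 0 < δ)
    (hx : ∀ᶠ t in U, ∀ i, |(x t i : ℝ)| ≤ Real.exp (K * q t))
    (hprod : ∀ᶠ t in U, (∏ i, |(((L₀ *ᵥ x t) i : ℤ) : ℝ)|) *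
      ∏ p ∈ S, ∏ i, ((padicNorm p (((L p *ᵥ x t) i : ℤ) : ℚ) : ℚ) : ℝ) ≤
        Real.exp (-δ * q t)) :
    ∃ w : Fin n → ℤ, w ≠ 0 ∧ ∀ᶠ t in U, w ⬝ᵥ x t = 0 := by
  classical
  by_contra hcon
  have hne : ∀ w : Fin n → ℤ, w ≠ 0 → ∀ᶠ t in U, w ⬝ᵥ x t ≠ 0 := fun w hw =>
    Ultrafilter.eventually_not.2 fun h => hcon ⟨w, hw, h⟩
  have hz0 : ∀ᶠ t in U, ∀ i, (L₀ *ᵥ x t) i ≠ 0 :=
    eventually_all.2 fun i => hne _ (row_ne_zero h₀ i)
  have hz1 : ∀ᶠ t in U, ∀ k : S × Fin n, (L k.1 *ᵥ x t) k.2 ≠ 0 :=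
    eventually_all.2 fun k => hne _ (row_ne_zero (hL k.1 k.1.2) k.2)
  obtain ⟨C, hC1, hmin⟩ := exists_minima n
  let A : τ → Fin n → ℝ := fun t i => max 1 |(((L₀ *ᵥ x t) i : ℤ) : ℝ)|
  have hA1 : ∀ t i, 1 ≤ A t i := fun t i => le_max_left _ _
  have hA0 : ∀ t i, 0 < A t i := fun t i => one_pos.trans_le (hA1 t i)
  let e : τ → S × Fin n → ℕ := fun t k => padicValInt k.1 ((L k.1 *ᵥ x t) k.2)
  have hp0 : ∀ p : S, (0 : ℝ) < (p.1 : ℝ) := fun p => by exact_mod_cast (hS p.1 p.2).pos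
  choose X lam π hX hdvd hlam hmono hbd hprodl hspan using fun t =>
    hmin (κ := S × Fin n) L₀ h₀ (A t) (hA0 t) (fun k => L k.1 k.2) (fun k => k.1.1 ^ e t k)
      (fun k => pow_pos (hS k.1.1 k.1.2).pos _)
  obtain ⟨π₀, hπ⟩ := ultra_const U π
  have hC0 : 0 < C := by linarith
  let N : Option S → Matrix (Fin n) (Fin n) ℤ := fun o =>
    match o with
    | none => L₀.submatrix π₀ id
    | some p => L p
  have hN : ∀ o, (N o).det ≠ 0 := by
    rintro (_ | p)
    · simp only [N]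
      rw [Matrix.det_permute]
      exact mul_ne_zero (by simp) h₀
    · exact hL p p.2
  have hNnone : ∀ (y : Fin n → ℤ) l, (N none *ᵥ y) l = (L₀ *ᵥ y) (π₀ l) := fun y l => rfl
  let β : τ → Option S → Fin n → ℝ := fun t o l =>
    match o with
    | none => Real.log C + Real.log (A t (π₀ l)) + Real.log (lam t l)
    | some p => -(e t (p, l) * Real.log p.1)
  have hexpβ : ∀ t l, Real.exp (β t none l) = C * A t (π₀ l) * lam t l := fun t l => by
    simp only [β]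
    rw [Real.exp_add, Real.exp_add, Real.exp_log hC0, Real.exp_log (hA0 t _),
      Real.exp_log (hlam t l)]
  have hent : ∀ᶠ t in U, ∀ o i l,
      place S hS o (((N o *ᵥ X t i) l : ℤ) : ℚ) ≤ Real.exp (β t o l) := by
    filter_upwards [hπ] with t ht
    rintro (_ | p) i l
    · rw [place_none, hNnone, hexpβ]
      have := hbd t i l
      rw [ht] at this
      exact this.trans (mul_le_mul_of_nonneg_left (min_le_right _ _)
        (mul_pos hC0 (hA0 t _)).le)
    · rw [place_some]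
      have h1 := hdvd t i (p, l)
      refine (padicNorm_le_of_dvd (hS p.1 p.2) (e := e t (p, l)) (by exact_mod_cast h1)).trans
        (le_of_eq ?_)
      simp only [β]
      rw [Real.exp_neg, ← Real.log_pow, Real.exp_log (pow_pos (hp0 p) _)]
  have hsumβ : ∀ t, ∑ o, ∑ l, β t o l = n * Real.log C + ∑ l, Real.log (lam t l) +
      (∑ l, Real.log (A t l) - ∑ k : S × Fin n, e t k * Real.log k.1.1) := by
    intro t
    rw [Fintype.sum_option, Fintype.sum_prod_type]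
    simp only [β, Finset.sum_add_distrib, Finset.sum_neg_distrib, Finset.sum_const, card_univ,
      Fintype.card_fin, nsmul_eq_mul]
    rw [Equiv.sum_comp π₀ (fun l => Real.log (A t l))]
    ring
  have hdet0 : (0 : ℝ) < |(L₀.det : ℝ)| := abs_pos.2 (by exact_mod_cast h₀)
  have hup : ∀ t, ∑ l, Real.log (lam t l) + ∑ l, Real.log (A t l) ≤
      Real.log (C * |(L₀.det : ℝ)|) + ∑ k : S × Fin n, e t k * Real.log k.1.1 := by
    intro t
    have h1 := Real.log_le_log (mul_pos (Finset.prod_pos fun i _ => hlam t i)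
      (Finset.prod_pos fun i _ => hA0 t i)) (hprodl t)
    rw [Real.log_mul (Finset.prod_pos fun i _ => hlam t i).ne'
      (Finset.prod_pos fun i _ => hA0 t i).ne', Real.log_prod (fun i _ => (hlam t i).ne'),
      Real.log_prod (fun i _ => (hA0 t i).ne'), Real.log_mul (mul_pos hC0 hdet0).ne'
        (Finset.prod_pos fun k _ => by push_cast; exact pow_pos (hp0 k.1) _).ne',
      Real.log_prod (fun k _ => by push_cast; exact (pow_pos (hp0 k.1) _).ne')] at h1
    simpa only [Nat.cast_pow, Real.log_pow] using h1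
  have hAeq : ∀ᶠ t in U, ∀ i, A t i = |(((L₀ *ᵥ x t) i : ℤ) : ℝ)| := by
    filter_upwards [hz0] with t ht i
    exact max_eq_right (by exact_mod_cast Int.one_le_abs (ht i))
  have hsmall : ∀ᶠ t in U,
      ∑ l, Real.log (A t l) - ∑ k : S × Fin n, e t k * Real.log k.1.1 ≤ -δ * q t := by
    filter_upwards [hprod, hAeq, hz1] with t h1 h2 h3
    rw [← Real.exp_le_exp]
    refine le_trans (le_of_eq ?_) h1
    rw [Real.exp_sub, Real.exp_sum, Real.exp_sum, div_eq_mul_inv, ← Finset.prod_inv_distrib,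
      Fintype.prod_prod_type, ← Finset.prod_coe_sort S]
    congr 1
    · exact Finset.prod_congr rfl fun i _ => by rw [Real.exp_log (hA0 t i), h2]
    · refine Finset.prod_congr rfl fun p _ => Finset.prod_congr rfl fun i _ => ?_
      rw [padicNorm_int_eq (hS p.1 p.2) (h3 (p, i)), ← Real.log_pow,
        Real.exp_log (pow_pos (hp0 p) _)]
  obtain ⟨c, hc⟩ := sum_lower (place S hS) (places_place S hS) N hN
  have hxmem : ∀ t (k : S × Fin n), ((k.1.1 ^ e t k : ℕ) : ℤ) ∣ L k.1 k.2 ⬝ᵥ x t := fun t k => by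
    push_cast; exact padicValInt_dvd _
  have hspan' : ∀ᶠ t in U, ∀ i, 0 < Real.log (lam t i) →
      ∃ g : Fin n → ℚ, (∀ l, i ≤ l → g l = 0) ∧ ∀ j, (x t j : ℚ) = ∑ l, g l * X t l j := by
    filter_upwards [hAeq] with t ht i hi
    refine hspan t (x t) (hxmem t) i fun l => ?_
    rw [← ht l]
    exact lt_mul_of_one_lt_right (hA0 t l) ((Real.log_pos_iff (hlam t i).le).1 hi)
  set δ' : ℝ := δ / (2 * (n * n + 1)) with hδ'
  have hδ'0 : 0 < δ' := by positivity
  have hgap : ∀ᶠ t in U, ∃ ij : Fin n × Fin n, (ij.2 : ℕ) = ij.1 + 1 ∧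
      0 < Real.log (lam t ij.2) ∧ Real.log (lam t ij.1) + δ' * q t ≤ Real.log (lam t ij.2) := by
    filter_upwards [hent, hsmall, hspan', hz0, hq.eventually_ge_atTop 0,
      hq.eventually_gt_atTop (2 * (c + n * Real.log C) / δ)] with t h1 h2 h3 h4 h5 h6
    have h7 := hc (X t) (hX t) (β t) h1
    rw [hsumβ] at h7
    rw [div_lt_iff₀ hδ] at h6
    obtain ⟨i, j, hij⟩ := exists_gap (fun i => Real.log (lam t i)) (δ' * q t) (by positivity)
      (fun i hi => by
        by_contra hpos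
        obtain ⟨g, hg, hxg⟩ := h3 i (not_le.1 hpos)
        have hx0 : x t = 0 := funext fun j => by
          have := hxg j
          rw [Finset.sum_eq_zero (fun l _ => by
            rw [hg l (Fin.le_def.2 (by omega)), zero_mul])] at this
          exact_mod_cast this
        exact h4 i (by simp [hx0]))
      (by
        have h8 : (n : ℝ) * (n * (δ' * q t)) ≤ δ / 2 * q t := by
          have h9 : (n : ℝ) * n * δ' ≤ δ / 2 := by
            rw [hδ', mul_div_assoc', div_le_div_iff₀ (by positivity) (by positivity)]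
            nlinarith
          nlinarith
        linarith)
    exact ⟨(i, j), hij⟩
  obtain ⟨⟨i₀, j₀⟩, hij⟩ := Ultrafilter.eventually_exists_iff.1 hgap
  have hbA : ∀ l, BQ U q (fun t => Real.log (A t l)) := fun l => bq_log_mulVec hq x K hx (L₀ l)
  have hbe : ∀ k : S × Fin n, BQ U q (fun t => e t k * Real.log k.1.1) := by
    intro k
    refine BQ.of_le (bq_const hq 0) (bq_log_mulVec hq x K hx (L k.1 k.2)) ?_
    filter_upwards [hz1] with t ht
    refine ⟨mul_nonneg (Nat.cast_nonneg _) (Real.log_natCast_nonneg _), ?_⟩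
    rw [← Real.log_pow]
    refine Real.log_le_log (pow_pos (hp0 k.1) _) (le_max_of_le_right ?_)
    have h1 := prod_pow_padicVal_le {k.1.1} (by simpa using hS k.1.1 k.1.2) (ht k)
    rwa [Finset.prod_singleton] at h1
  have hlow : ∀ t i, -(Real.log C + ∑ l, Real.log (A t l)) ≤ Real.log (lam t i) := by
    intro t i
    have h1 : L₀ *ᵥ X t i ≠ 0 := fun h =>
      row_ne_zero (hX t) i (Matrix.eq_zero_of_mulVec_eq_zero h₀ h)
    obtain ⟨l, hl⟩ := Function.ne_iff.1 h1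
    have h2 := hbd t i ((π t).symm l)
    rw [Equiv.apply_symm_apply] at h2
    have h3 : (1 : ℝ) ≤ |(((L₀ *ᵥ X t i) l : ℤ) : ℝ)| := by exact_mod_cast Int.one_le_abs hl
    have h4 : (1 : ℝ) ≤ C * A t l * lam t i := h3.trans (h2.trans
      (mul_le_mul_of_nonneg_left (min_le_left _ _) (mul_pos hC0 (hA0 t _)).le))
    have h5 := Real.log_nonneg h4
    rw [Real.log_mul (mul_pos hC0 (hA0 t _)).ne' (hlam t i).ne',
      Real.log_mul hC0.ne' (hA0 t _).ne'] at h5
    have h6 : Real.log (A t l) ≤ ∑ l, Real.log (A t l) :=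
      Finset.single_le_sum (f := fun l => Real.log (A t l))
        (fun l _ => Real.log_nonneg (hA1 t l)) (mem_univ l)
    linarith
  have hbs : BQ U q (fun t => Real.log C + ∑ l, Real.log (A t l)) :=
    (bq_const hq _).add (bq_sum hq _ _ fun l _ => hbA l)
  have hbl : ∀ i, BQ U q (fun t => Real.log (lam t i)) := by
    intro i
    refine BQ.of_le hbs.neg (((bq_const hq (Real.log (C * |(L₀.det : ℝ)|))).add
      (bq_sum hq univ _ fun k _ => hbe k)).add (bq_sum hq (univ.erase i) _ fun _ _ => hbs))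
      (Eventually.of_forall fun t => ⟨hlow t i, ?_⟩)
    have h1 := hup t
    rw [← Finset.add_sum_erase _ _ (mem_univ i)] at h1
    have h2 : 0 ≤ ∑ l, Real.log (A t l) :=
      Finset.sum_nonneg fun l _ => Real.log_nonneg (hA1 t l)
    have h3 := Finset.sum_le_sum (s := univ.erase i) fun l _ => hlow t l
    rw [Finset.sum_neg_distrib] at h3
    linarith
  obtain ⟨w, hw0, hw⟩ := wedge_step (place S hS) (places_place S hS) N hN none U q hq X β δ'
    (n * Real.log C + Real.log (C * |(L₀.det : ℝ)|)) hδ'0 j₀ (Eventually.of_forall hX)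
    (by
      rintro (_ | p) l
      · exact ((bq_const hq _).add (hbA _)).add (hbl l)
      · exact (hbe (p, l)).neg)
    (Eventually.of_forall fun t => by have := hup t; rw [hsumβ]; linarith) hent
    (by
      filter_upwards [hπ, hij] with t ht h1 i l hi hl
      obtain ⟨h1, -, h2⟩ := h1
      change (j₀ : ℕ) = i₀ + 1 at h1
      change Real.log (lam t i₀) + δ' * q t ≤ Real.log (lam t j₀) at h2
      rw [place_none, hNnone, Real.exp_sub, hexpβ]
      have h3 := hbd t i l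
      rw [ht] at h3
      refine h3.trans ?_
      rw [mul_div_assoc]
      refine mul_le_mul_of_nonneg_left ((min_le_left _ _).trans ?_) (mul_pos hC0 (hA0 t _)).le
      have h4 : lam t i ≤ lam t i₀ := hmono t (Fin.le_def.2 (by have := Fin.lt_def.1 hi; omega))
      have h5 : lam t j₀ ≤ lam t l := hmono t hl
      have h6 := Real.exp_le_exp.2 h2
      rw [Real.exp_add, Real.exp_log (hlam t _), Real.exp_log (hlam t _)] at h6
      rw [le_div_iff₀ (Real.exp_pos _)]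
      exact (mul_le_mul_of_nonneg_right h4 (Real.exp_pos _).le).trans (h6.trans h5))
  refine hcon ⟨w, hw0, ?_⟩
  filter_upwards [hw, hij, hspan'] with t h1 h2 h3
  obtain ⟨g, hg, hxg⟩ := h3 j₀ h2.2.1
  exact h1 (x t) g hg hxg

/-- The Subspace Theorem along an ultrafilter. -/
theorem subspace {ι : Type*} [Fintype ι] [DecidableEq ι] (S : Finset ℕ) (hS : ∀ p ∈ S, p.Prime)
    (L₀ : Matrix ι ι ℤ) (h₀ : L₀.det ≠ 0) (L : ℕ → Matrix ι ι ℤ)
    (hL : ∀ p ∈ S, (L p).det ≠ 0) {τ : Type*} (U : Ultrafilter τ) (q : τ → ℝ)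
    (hq : Tendsto q U atTop) (x : τ → ι → ℤ) (K δ : ℝ) (hδ : 0 < δ)
    (hx : ∀ᶠ t in U, ∀ i, |(x t i : ℝ)| ≤ Real.exp (K * q t))
    (hprod : ∀ᶠ t in U, (∏ i, |(((L₀ *ᵥ x t) i : ℤ) : ℝ)|) *
      ∏ p ∈ S, ∏ i, ((padicNorm p (((L p *ᵥ x t) i : ℤ) : ℚ) : ℚ) : ℝ) ≤
        Real.exp (-δ * q t)) :
    ∃ w : ι → ℤ, w ≠ 0 ∧ ∀ᶠ t in U, w ⬝ᵥ x t = 0 := by
  let e : Fin (Fintype.card ι) ≃ ι := (Fintype.equivFin ι).symm
  have hmv : ∀ (M : Matrix ι ι ℤ) (y : ι → ℤ) i,
      (M.submatrix e e *ᵥ (y ∘ e)) i = (M *ᵥ y) (e i) := fun M y i => by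
    simp only [Matrix.mulVec, dotProduct, submatrix_apply, Function.comp]
    exact Equiv.sum_comp e (fun j => M (e i) j * y j)
  obtain ⟨w, hw0, hw⟩ := subspace_fin _ S hS (L₀.submatrix e e)
    (by rwa [Matrix.det_submatrix_equiv_self]) (fun p => (L p).submatrix e e)
    (fun p hp => by rw [Matrix.det_submatrix_equiv_self]; exact hL p hp) U q hq
    (fun t => x t ∘ e) K δ hδ (hx.mono fun t ht i => ht _) (hprod.mono fun t ht => by
      simp only [hmv]
      rw [Equiv.prod_comp e (fun i => |(((L₀ *ᵥ x t) i : ℤ) : ℝ)|)]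
      refine le_trans (le_of_eq ?_) ht
      congr 1
      exact Finset.prod_congr rfl fun p _ => Equiv.prod_comp e
        (fun i => ((padicNorm p (((L p *ᵥ x t) i : ℤ) : ℚ) : ℚ) : ℝ)))
  refine ⟨w ∘ e.symm, fun h => hw0 (funext fun i => by simpa using congrFun h (e i)),
    hw.mono fun t ht => ?_⟩
  rw [← ht, dotProduct, dotProduct, ← Equiv.sum_comp e]
  simp

/-- The Subspace Theorem, classical form: the large solutions lie in finitely many hyperplanes. -/
theorem subspace_finite {ι : Type*} [Fintype ι] [DecidableEq ι] (S : Finset ℕ)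
    (hS : ∀ p ∈ S, p.Prime) (L₀ : Matrix ι ι ℤ) (h₀ : L₀.det ≠ 0) (L : ℕ → Matrix ι ι ℤ)
    (hL : ∀ p ∈ S, (L p).det ≠ 0) (ε : ℝ) (hε : 0 < ε) :
    ∃ (W : Finset (ι → ℤ)) (B : ℝ), (∀ w ∈ W, w ≠ 0) ∧ ∀ x : ι → ℤ, B ≤ ‖x‖ →
      (∏ i, |(((L₀ *ᵥ x) i : ℤ) : ℝ)|) *
        ∏ p ∈ S, ∏ i, ((padicNorm p (((L p *ᵥ x) i : ℤ) : ℚ) : ℚ) : ℝ) ≤ ‖x‖ ^ (-ε) →
      ∃ w ∈ W, w ⬝ᵥ x = 0 := by
  classical
  by_contra hcon
  push Not at hcon
  have h1 : ∀ a : Finset (ι → ℤ) × ℕ, ∃ x : ι → ℤ, (a.2 : ℝ) ≤ ‖x‖ ∧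
      (∏ i, |(((L₀ *ᵥ x) i : ℤ) : ℝ)|) *
        ∏ p ∈ S, ∏ i, ((padicNorm p (((L p *ᵥ x) i : ℤ) : ℚ) : ℚ) : ℝ) ≤ ‖x‖ ^ (-ε) ∧
      ∀ w ∈ a.1, w ≠ 0 → w ⬝ᵥ x ≠ 0 := fun a => by
    obtain ⟨x, hx1, hx2, hx3⟩ := hcon (a.1.erase 0) a.2 (fun w hw => (mem_erase.1 hw).1)
    exact ⟨x, hx1, hx2, fun w hw h0 => hx3 w (mem_erase.2 ⟨h0, hw⟩)⟩
  choose x hx1 hx2 hx3 using h1
  let U : Ultrafilter (Finset (ι → ℤ) × ℕ) := Ultrafilter.of atTop
  have hU : (U : Filter (Finset (ι → ℤ) × ℕ)) ≤ atTop := Ultrafilter.of_le atTop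
  have hn : Tendsto (fun a => ‖x a‖) U atTop :=
    tendsto_atTop_mono hx1 ((tendsto_natCast_atTop_atTop.comp
      (tendsto_atTop_mono (fun _ => le_rfl) (monotone_snd.tendsto_atTop_atTop
        fun b => ⟨(∅, b), le_rfl⟩))).mono_left hU)
  obtain ⟨w, hw0, hw⟩ := subspace S hS L₀ h₀ L hL U (fun a => Real.log ‖x a‖)
    (Real.tendsto_log_atTop.comp hn) x 1 ε hε
    ((hn.eventually_gt_atTop 0).mono fun a ha i => by
      rw [one_mul, Real.exp_log ha]
      exact norm_le_pi_norm (x a) i)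
    ((hn.eventually_gt_atTop 0).mono fun a ha => by
      rw [mul_comm (-ε), ← Real.rpow_def_of_pos ha]
      exact hx2 a)
  have h2 : ∀ᶠ a in (U : Filter (Finset (ι → ℤ) × ℕ)), ({w}, 0) ≤ a := hU (Ici_mem_atTop _)
  obtain ⟨a, ha1, ha2⟩ := (hw.and h2).exists
  exact hx3 a w (Finset.singleton_subset_iff.1 ha2.1) hw0 ha1

end Pool.Agent.Lib.Common.Subspace
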