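import Pool.Agent.Lib.Common.Subspace.Defs

/-! Weighted l1 norms and integrality. -/

namespace Pool.Agent.Lib.Common.Subspace

open MvPolynomial Finset

variable {σ τ : Type*} {v : AbsoluteValue ℚ ℝ} {ρ : σ → ℝ}

theorem norm_wt_nonneg (hρ : ∀ s, 0 ≤ ρ s) (μ : σ →₀ ℕ) : 0 ≤ μ.prod (fun s k => ρ s ^ k) :=
  Finset.prod_nonneg fun s _ => pow_nonneg (hρ s) _

theorem norm_nrm_eq_sum {P : MvPolynomial σ ℚ} {s : Finset (σ →₀ ℕ)} (hs : P.support ⊆ s) :
    nrm v ρ P = ∑ μ ∈ s, v (coeff μ P) * μ.prod (fun s k => ρ s ^ k) := by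
  refine Finset.sum_subset hs fun μ _ hμ => ?_
  rw [notMem_support_iff.1 hμ, map_zero, zero_mul]

theorem norm_isInt_iff (P : MvPolynomial σ ℚ) :
    IsInt P ↔ P ∈ (MvPolynomial.map (σ := σ) (Int.castRingHom ℚ)).range := by
  constructor
  · intro h
    choose z hz using h
    rw [P.as_sum]
    refine Subring.sum_mem _ fun μ _ => ⟨monomial μ (z μ), ?_⟩
    simp [hz]
  · rintro ⟨Q, rfl⟩ μ
    exact ⟨coeff μ Q, by simp [coeff_map]⟩

theorem nrm_nonneg (hρ : ∀ s, 0 ≤ ρ s) (P : MvPolynomial σ ℚ) : 0 ≤ nrm v ρ P := by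
  exact Finset.sum_nonneg fun μ _ => mul_nonneg (v.nonneg _) (norm_wt_nonneg hρ μ)

theorem nrm_monomial (μ : σ →₀ ℕ) (c : ℚ) :
    nrm v ρ (monomial μ c) = v c * μ.prod (fun s k => ρ s ^ k) := by
  classical
  rw [norm_nrm_eq_sum (s := {μ}) support_monomial_subset]
  simp

theorem nrm_C (c : ℚ) : nrm v ρ (C c : MvPolynomial σ ℚ) = v c := by
  have := nrm_monomial (v := v) (ρ := ρ) (0 : σ →₀ ℕ) c
  simpa using this

theorem nrm_X (s : σ) : nrm v ρ (X s : MvPolynomial σ ℚ) = ρ s := by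
  rw [X, nrm_monomial]
  simp

theorem nrm_zero : nrm v ρ (0 : MvPolynomial σ ℚ) = 0 := by
  simp [nrm]

theorem nrm_one : nrm v ρ (1 : MvPolynomial σ ℚ) = 1 := by
  have := nrm_C (v := v) (ρ := ρ) 1
  simpa using this

theorem nrm_neg (P : MvPolynomial σ ℚ) : nrm v ρ (-P) = nrm v ρ P := by
  simp [nrm]

theorem nrm_C_mul (c : ℚ) (P : MvPolynomial σ ℚ) : nrm v ρ (C c * P) = v c * nrm v ρ P := by
  rw [norm_nrm_eq_sum (s := P.support), nrm, Finset.mul_sum]
  · refine Finset.sum_congr rfl fun μ _ => ?_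
    rw [coeff_C_mul, map_mul, mul_assoc]
  · intro μ hμ
    rw [mem_support_iff] at hμ ⊢
    intro h
    exact hμ (by rw [coeff_C_mul, h, mul_zero])

theorem nrm_add_le (hρ : ∀ s, 0 ≤ ρ s) (P Q : MvPolynomial σ ℚ) :
    nrm v ρ (P + Q) ≤ nrm v ρ P + nrm v ρ Q := by
  classical
  rw [norm_nrm_eq_sum (s := P.support ∪ Q.support) support_add,
    norm_nrm_eq_sum (P := P) (s := P.support ∪ Q.support) subset_union_left,
    norm_nrm_eq_sum (P := Q) (s := P.support ∪ Q.support) subset_union_right,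
    ← Finset.sum_add_distrib]
  refine Finset.sum_le_sum fun μ _ => ?_
  rw [← add_mul, coeff_add]
  exact mul_le_mul_of_nonneg_right (v.add_le _ _) (norm_wt_nonneg hρ μ)

theorem nrm_sum_le (hρ : ∀ s, 0 ≤ ρ s) {I : Type*} (s : Finset I) (f : I → MvPolynomial σ ℚ) :
    nrm v ρ (∑ i ∈ s, f i) ≤ ∑ i ∈ s, nrm v ρ (f i) := by
  classical
  induction s using Finset.induction_on with
  | empty => simp [nrm_zero]
  | insert a s ha ih =>
    rw [Finset.sum_insert ha, Finset.sum_insert ha]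
    exact (nrm_add_le hρ _ _).trans (add_le_add le_rfl ih)

theorem nrm_mul_le (hρ : ∀ s, 0 ≤ ρ s) (P Q : MvPolynomial σ ℚ) :
    nrm v ρ (P * Q) ≤ nrm v ρ P * nrm v ρ Q := by
  conv_lhs => rw [P.as_sum, Q.as_sum, Finset.sum_mul_sum]
  refine (nrm_sum_le hρ _ _).trans ?_
  rw [nrm, nrm, Finset.sum_mul_sum]
  refine Finset.sum_le_sum fun μ _ => (nrm_sum_le hρ _ _).trans (Finset.sum_le_sum fun ν _ => ?_)
  rw [monomial_mul, nrm_monomial, map_mul,
    Finsupp.prod_add_index' (fun _ => pow_zero _) (fun _ _ _ => pow_add _ _ _)]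
  exact le_of_eq (by ring)

theorem nrm_prod_le (hρ : ∀ s, 0 ≤ ρ s) {I : Type*} (s : Finset I) (f : I → MvPolynomial σ ℚ) :
    nrm v ρ (∏ i ∈ s, f i) ≤ ∏ i ∈ s, nrm v ρ (f i) := by
  classical
  induction s using Finset.induction_on with
  | empty => simp [nrm_one]
  | insert a s ha ih =>
    rw [Finset.prod_insert ha, Finset.prod_insert ha]
    exact (nrm_mul_le hρ _ _).trans (mul_le_mul_of_nonneg_left ih (nrm_nonneg hρ _))

theorem nrm_pow_le (hρ : ∀ s, 0 ≤ ρ s) (P : MvPolynomial σ ℚ) (k : ℕ) :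
    nrm v ρ (P ^ k) ≤ nrm v ρ P ^ k := by
  have := nrm_prod_le (v := v) hρ (Finset.range k) (fun _ => P)
  simpa using this

theorem coeff_le_nrm (hρ : ∀ s, 0 ≤ ρ s) (P : MvPolynomial σ ℚ) (μ : σ →₀ ℕ) :
    v (coeff μ P) * μ.prod (fun s k => ρ s ^ k) ≤ nrm v ρ P := by
  by_cases h : μ ∈ P.support
  · exact Finset.single_le_sum (f := fun μ => v (coeff μ P) * μ.prod (fun s k => ρ s ^ k))
      (fun ν _ => mul_nonneg (v.nonneg _) (norm_wt_nonneg hρ ν)) h
  · rw [notMem_support_iff.1 h, map_zero, zero_mul]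
    exact nrm_nonneg hρ P

theorem nrm_mono {ρ' : σ → ℝ} (hρ : ∀ s, 0 ≤ ρ s) (h : ∀ s, ρ s ≤ ρ' s) (P : MvPolynomial σ ℚ) :
    nrm v ρ P ≤ nrm v ρ' P := by
  refine Finset.sum_le_sum fun μ _ => mul_le_mul_of_nonneg_left ?_ (v.nonneg _)
  exact Finset.prod_le_prod (fun s _ => pow_nonneg (hρ s) _)
    (fun s _ => pow_le_pow_left₀ (hρ s) (h s) _)

theorem nrm_aeval_le {ρ' : τ → ℝ} (hρ : ∀ t, 0 ≤ ρ' t) (f : σ → MvPolynomial τ ℚ)
    (P : MvPolynomial σ ℚ) :
    nrm v ρ' (aeval f P) ≤ nrm v (fun s => nrm v ρ' (f s)) P := by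
  conv_lhs => rw [P.as_sum, map_sum]
  refine (nrm_sum_le hρ _ _).trans (Finset.sum_le_sum fun μ _ => ?_)
  rw [aeval_monomial, algebraMap_eq, nrm_C_mul]
  refine mul_le_mul_of_nonneg_left ?_ (v.nonneg _)
  refine (nrm_prod_le hρ _ _).trans ?_
  exact Finset.prod_le_prod (fun s _ => nrm_nonneg hρ _) (fun s _ => nrm_pow_le hρ _ _)

/-- If every monomial of `P` has radius factor at most `b`, the norm is at most `b` times the
unweighted norm. -/
theorem nrm_le_mul (P : MvPolynomial σ ℚ) (b : ℝ)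
    (hb : ∀ μ ∈ P.support, μ.prod (fun s k => ρ s ^ k) ≤ b) :
    nrm v ρ P ≤ b * nrm v (fun _ => 1) P := by
  rw [nrm, nrm, Finset.mul_sum]
  refine Finset.sum_le_sum fun μ hμ => ?_
  have h1 : μ.prod (fun _ k => (1 : ℝ) ^ k) = 1 := by simp [Finsupp.prod]
  rw [h1, mul_one, mul_comm b]
  exact mul_le_mul_of_nonneg_left (hb μ hμ) (v.nonneg _)

theorem nrm_det_le (hρ : ∀ s, 0 ≤ ρ s) {n : Type*} [Fintype n] [DecidableEq n]
    (A : Matrix n n (MvPolynomial σ ℚ)) (b : ℝ) (hb : ∀ i j, nrm v ρ (A i j) ≤ b) :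
    nrm v ρ A.det ≤ (Fintype.card n).factorial * b ^ Fintype.card n := by
  rw [Matrix.det_apply]
  refine (nrm_sum_le hρ _ _).trans ?_
  have h1 : ∀ g : Equiv.Perm n,
      nrm v ρ (Equiv.Perm.sign g • ∏ i, A (g i) i) ≤ b ^ Fintype.card n := by
    intro g
    have h2 : nrm v ρ (Equiv.Perm.sign g • ∏ i, A (g i) i) = nrm v ρ (∏ i, A (g i) i) := by
      rcases Int.units_eq_one_or (Equiv.Perm.sign g) with h | h <;> simp [h, nrm_neg]
    rw [h2]
    refine (nrm_prod_le hρ _ _).trans ?_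
    refine (Finset.prod_le_prod (fun i _ => nrm_nonneg hρ _) (fun i _ => hb (g i) i)).trans ?_
    simp
  refine (Finset.sum_le_sum fun g _ => h1 g).trans ?_
  simp [Fintype.card_perm]

theorem len_eq (P : MvPolynomial σ ℚ) : len P = ∑ μ ∈ P.support, |((coeff μ P : ℚ) : ℝ)| := by
  refine Finset.sum_congr rfl fun μ _ => ?_
  simp [Finsupp.prod, Rat.AbsoluteValue.real_eq_abs]

theorem len_nonneg (P : MvPolynomial σ ℚ) : 0 ≤ len P := by
  exact nrm_nonneg (fun _ => zero_le_one) P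

theorem abs_coeff_le_len (P : MvPolynomial σ ℚ) (μ : σ →₀ ℕ) :
    |((coeff μ P : ℚ) : ℝ)| ≤ len P := by
  have := coeff_le_nrm (v := Rat.AbsoluteValue.real) (ρ := fun _ : σ => (1 : ℝ))
    (fun _ => zero_le_one) P μ
  simpa [len, Finsupp.prod, Rat.AbsoluteValue.real_eq_abs] using this

/-- Comparison of lengths along an injective map of monomials that preserves coefficients. -/
theorem len_le_of_injOn (P : MvPolynomial σ ℚ) (Q : MvPolynomial τ ℚ)
    (f : (σ →₀ ℕ) → (τ →₀ ℕ)) (hf : Set.InjOn f P.support)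
    (h : ∀ μ ∈ P.support, coeff μ P = coeff (f μ) Q) : len P ≤ len Q := by
  classical
  rw [len_eq, len_eq, Finset.sum_congr rfl fun μ hμ => by rw [h μ hμ],
    ← Finset.sum_image (g := f) (f := fun ν => |((coeff ν Q : ℚ) : ℝ)|) hf]
  refine Finset.sum_le_sum_of_subset_of_nonneg ?_ fun _ _ _ => abs_nonneg _
  intro ν hν
  obtain ⟨μ, hμ, rfl⟩ := Finset.mem_image.1 hν
  rw [mem_support_iff, ← h μ hμ]
  exact mem_support_iff.1 hμ

theorem nrm_le_len {P : MvPolynomial σ ℚ} (hP : IsInt P) (hv : ∀ a : ℤ, v a ≤ |(a : ℝ)|) :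
    nrm v (fun _ => 1) P ≤ len P := by
  rw [len_eq]
  refine Finset.sum_le_sum fun μ _ => ?_
  obtain ⟨z, hz⟩ := hP μ
  have := hv z
  simpa [Finsupp.prod, hz] using this

theorem one_le_len {P : MvPolynomial σ ℚ} (hP : IsInt P) (h0 : P ≠ 0) : 1 ≤ len P := by
  obtain ⟨μ, hμ⟩ := support_nonempty.2 h0
  refine le_trans ?_ (abs_coeff_le_len P μ)
  obtain ⟨z, hz⟩ := hP μ
  have h1 : z ≠ 0 := by
    rintro rfl
    exact mem_support_iff.1 hμ (by simpa using hz)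
  rw [hz]
  have := Int.one_le_abs h1
  exact_mod_cast this

theorem abv_det_le {n : Type*} [Fintype n] [DecidableEq n] (A : Matrix n n ℚ) (r c : n → ℝ)
    (h : ∀ i j, v (A i j) ≤ r i * c j) :
    v A.det ≤ (Fintype.card n).factorial * ((∏ i, r i) * ∏ j, c j) := by
  rw [Matrix.det_apply]
  refine (v.sum_le _ _).trans ?_
  have h1 : ∀ g : Equiv.Perm n,
      v (Equiv.Perm.sign g • ∏ i, A (g i) i) ≤ (∏ i, r i) * ∏ j, c j := by
    intro g
    have h2 : v (Equiv.Perm.sign g • ∏ i, A (g i) i) = v (∏ i, A (g i) i) := by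
      rcases Int.units_eq_one_or (Equiv.Perm.sign g) with h | h <;> simp [h]
    rw [h2, map_prod]
    refine (Finset.prod_le_prod (fun i _ => v.nonneg _) (fun i _ => h (g i) i)).trans ?_
    rw [Finset.prod_mul_distrib, Equiv.prod_comp g r]
  refine (Finset.sum_le_sum fun g _ => h1 g).trans ?_
  simp [Fintype.card_perm]

theorem isInt_zero : IsInt (0 : MvPolynomial σ ℚ) := by
  exact fun _ => ⟨0, by simp⟩

theorem isInt_one : IsInt (1 : MvPolynomial σ ℚ) := by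
  exact (norm_isInt_iff _).2 (Subring.one_mem _)

theorem isInt_monomial (μ : σ →₀ ℕ) (z : ℤ) : IsInt (monomial μ (z : ℚ)) := by
  exact (norm_isInt_iff _).2 ⟨monomial μ z, by simp⟩

theorem isInt_C (z : ℤ) : IsInt (C (z : ℚ) : MvPolynomial σ ℚ) := by
  exact (norm_isInt_iff _).2 ⟨C z, by simp⟩

theorem isInt_X (s : σ) : IsInt (X s : MvPolynomial σ ℚ) := by
  exact (norm_isInt_iff _).2 ⟨X s, by simp⟩

theorem IsInt.add {P Q : MvPolynomial σ ℚ} (hP : IsInt P) (hQ : IsInt Q) : IsInt (P + Q) := by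
  exact (norm_isInt_iff _).2
    (Subring.add_mem _ ((norm_isInt_iff _).1 hP) ((norm_isInt_iff _).1 hQ))

theorem IsInt.neg {P : MvPolynomial σ ℚ} (hP : IsInt P) : IsInt (-P) := by
  exact (norm_isInt_iff _).2 (Subring.neg_mem _ ((norm_isInt_iff _).1 hP))

theorem IsInt.mul {P Q : MvPolynomial σ ℚ} (hP : IsInt P) (hQ : IsInt Q) : IsInt (P * Q) := by
  exact (norm_isInt_iff _).2
    (Subring.mul_mem _ ((norm_isInt_iff _).1 hP) ((norm_isInt_iff _).1 hQ))

theorem isInt_sum {I : Type*} (s : Finset I) (f : I → MvPolynomial σ ℚ)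
    (h : ∀ i ∈ s, IsInt (f i)) : IsInt (∑ i ∈ s, f i) := by
  exact (norm_isInt_iff _).2 (Subring.sum_mem _ fun i hi => (norm_isInt_iff _).1 (h i hi))

theorem isInt_prod {I : Type*} (s : Finset I) (f : I → MvPolynomial σ ℚ)
    (h : ∀ i ∈ s, IsInt (f i)) : IsInt (∏ i ∈ s, f i) := by
  exact (norm_isInt_iff _).2 (Subring.prod_mem _ fun i hi => (norm_isInt_iff _).1 (h i hi))

theorem IsInt.aeval {P : MvPolynomial σ ℚ} (hP : IsInt P) {f : σ → MvPolynomial τ ℚ}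
    (hf : ∀ s, IsInt (f s)) : IsInt (aeval f P) := by
  rw [P.as_sum, map_sum]
  refine isInt_sum _ _ fun μ _ => ?_
  obtain ⟨z, hz⟩ := hP μ
  rw [aeval_monomial, algebraMap_eq, hz]
  refine (isInt_C z).mul (isInt_prod _ _ fun s _ => ?_)
  exact (norm_isInt_iff _).2 (Subring.pow_mem _ ((norm_isInt_iff _).1 (hf s)) _)

theorem isInt_det {n : Type*} [Fintype n] [DecidableEq n]
    (A : Matrix n n (MvPolynomial σ ℚ)) (h : ∀ i j, IsInt (A i j)) : IsInt A.det := by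
  rw [Matrix.det_apply]
  refine isInt_sum _ _ fun g _ => ?_
  have h1 := isInt_prod Finset.univ (fun i => A (g i) i) fun i _ => h _ _
  rcases Int.units_eq_one_or (Equiv.Perm.sign g) with h2 | h2
  · simpa [h2] using h1
  · simpa [h2] using h1.neg

end Pool.Agent.Lib.Common.Subspace
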