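import Pool.Agent.Lib.Common.Subspace.Core

/-! The penultimate minimum theorem, along an ultrafilter. -/

namespace Pool.Agent.Lib.Common.Subspace

open Finset Matrix Filter Topology

theorem penult_const {τ A : Type*} [Finite A] (U : Ultrafilter τ) (f : τ → A) :
    ∃ a, ∀ᶠ t in U, f t = a := by
  obtain ⟨a, ha⟩ := Ultrafilter.eq_pure_of_finite (U.map f)
  refine ⟨a, ?_⟩
  have h : {a} ∈ U.map f := by rw [ha]; simp
  exact h

/-- The primitive normal vector of the rows different from `j₀`. -/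
theorem penult_prim {κ : Type*} [Fintype κ] [DecidableEq κ] (Y : Matrix κ κ ℤ) (j₀ : κ) :
    ∃ (g : ℤ) (w : κ → ℤ), Y.det ≠ 0 → g ≠ 0 ∧ (∀ l, Y.adjugate l j₀ = g * w l) ∧
      univ.gcd w = 1 ∧ ∀ i, i ≠ j₀ → w ⬝ᵥ Y i = 0 := by
  obtain ⟨w, hw, hg⟩ := Finset.extract_gcd (fun l => Y.adjugate l j₀) (s := univ) ⟨j₀, mem_univ _⟩
  refine ⟨univ.gcd fun l => Y.adjugate l j₀, w, fun hY => ?_⟩
  set g := univ.gcd fun l => Y.adjugate l j₀ with hgdef
  have key : ∀ i, g * (w ⬝ᵥ Y i) = if i = j₀ then Y.det else 0 := fun i => by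
    have h1 := congrFun (congrFun (mul_adjugate Y) i) j₀
    rw [mul_apply, Matrix.smul_apply, one_apply, smul_eq_mul, mul_ite, mul_one, mul_zero] at h1
    rw [← h1, dotProduct, mul_sum]
    refine sum_congr rfl fun l _ => ?_
    rw [hw l (mem_univ _)]
    ring
  have hg0 : g ≠ 0 := fun h0 => by
    have := key j₀
    rw [h0, zero_mul, if_pos rfl] at this
    exact hY this.symm
  refine ⟨hg0, fun l => hw l (mem_univ _), hg, fun i hi => ?_⟩
  have := key i
  rw [if_neg hi] at this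
  exact (mul_eq_zero.mp this).resolve_left hg0

theorem penult_minor {κ : Type*} [Fintype κ] [DecidableEq κ] (v : AbsoluteValue ℚ ℝ)
    (M Y : Matrix κ κ ℤ) (j₀ : κ) (b : κ → ℝ) {g : ℤ} {w : κ → ℤ}
    (hw : ∀ l, Y.adjugate l j₀ = g * w l)
    (hb : ∀ i j, i ≠ j₀ → v (((M *ᵥ Y i) j : ℤ) : ℚ) ≤ Real.exp (b j)) (j : κ) :
    v g * v (((w ᵥ* M.adjugate) j : ℤ) : ℚ) ≤
      (Fintype.card κ).factorial * (Real.exp (-b j) * Real.exp (∑ l, b l)) := by
  have h1 : g * (w ᵥ* M.adjugate) j = ((Y * Mᵀ).updateRow j₀ (Pi.single j 1)).det := by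
    rw [← adjugate_apply, adjugate_mul_distrib, ← adjugate_transpose, mul_apply, vecMul,
      dotProduct, mul_sum]
    refine sum_congr rfl fun l _ => ?_
    rw [hw l, transpose_apply]
    ring
  rw [← map_mul, ← Int.cast_mul, h1, Int.cast_det]
  refine (abv_det_le _ (fun i => if i = j₀ then Real.exp (-b j) else 1)
    (fun l => Real.exp (b l)) fun i l => ?_).trans (le_of_eq ?_)
  · rw [map_apply, updateRow_apply]
    by_cases hi : i = j₀
    · rw [if_pos hi, if_pos hi]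
      by_cases hl : l = j
      · subst hl
        rw [← Real.exp_add]
        simp
      · rw [Pi.single_eq_of_ne hl]
        simp only [Int.cast_zero, map_zero]
        positivity
    · rw [if_neg hi, if_neg hi, one_mul]
      have : (Y * Mᵀ) i l = (M *ᵥ Y i) l := by
        simp [mul_apply, mulVec, dotProduct, mul_comm]
      rw [this]
      exact hb i l hi
  · rw [prod_ite_eq', if_pos (mem_univ _), Real.exp_sum]

theorem penult_pick {κ : Type*} [Fintype κ] [DecidableEq κ] [Nonempty κ] (v : AbsoluteValue ℚ ℝ)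
    (M : Matrix κ κ ℤ) (hM : M.det ≠ 0) (b : κ → ℝ) (w y : κ → ℤ) (hne : w ⬝ᵥ y ≠ 0)
    (hb : ∀ j, v (((M *ᵥ y) j : ℤ) : ℚ) ≤ Real.exp (b j)) :
    ∃ j, (w ᵥ* M.adjugate) j ≠ 0 ∧ v M.det * v ((w ⬝ᵥ y : ℤ) : ℚ) ≤
      Fintype.card κ * (v (((w ᵥ* M.adjugate) j : ℤ) : ℚ) * Real.exp (b j)) := by
  have h1 : M.det * (w ⬝ᵥ y) = ∑ j, (w ᵥ* M.adjugate) j * (M *ᵥ y) j := by
    have : (w ᵥ* M.adjugate) ⬝ᵥ (M *ᵥ y) = M.det * (w ⬝ᵥ y) := by
      rw [← dotProduct_mulVec, mulVec_mulVec, adjugate_mul, smul_mulVec, one_mulVec,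
        dotProduct_smul, smul_eq_mul]
    rw [← this, dotProduct]
  have hN : (0 : ℝ) < Fintype.card κ := by exact_mod_cast Fintype.card_pos
  have h2 : ∑ _j : κ, v M.det * v ((w ⬝ᵥ y : ℤ) : ℚ) / Fintype.card κ ≤
      ∑ j, v (((w ᵥ* M.adjugate) j : ℤ) : ℚ) * Real.exp (b j) := by
    rw [sum_const, card_univ, nsmul_eq_mul, mul_div_cancel₀ _ hN.ne', ← map_mul, ← Int.cast_mul,
      h1, Int.cast_sum]
    refine (v.sum_le _ _).trans (sum_le_sum fun j _ => ?_)
    rw [Int.cast_mul, map_mul]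
    exact mul_le_mul_of_nonneg_left (hb j) (v.nonneg _)
  obtain ⟨j, -, hj⟩ := exists_le_of_sum_le univ_nonempty h2
  rw [div_le_iff₀' hN] at hj
  refine ⟨j, fun h0 => ?_, hj⟩
  rw [h0] at hj
  have h3 : 0 < v M.det * v ((w ⬝ᵥ y : ℤ) : ℚ) :=
    mul_pos (v.pos (by exact_mod_cast hM)) (v.pos (by exact_mod_cast hne))
  simp only [Int.cast_zero, map_zero, zero_mul, mul_zero] at hj
  linarith

theorem penult_den {κ : Type*} [Fintype κ] [DecidableEq κ] {w : κ → ℤ} (hg : univ.gcd w = 1)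
    {α : κ} (hα : w α ≠ 0) {β : κ}
    (hβ : ∀ l, ((w l : ℚ) / w α).den ≤ ((w β : ℚ) / w α).den) :
    |(w α : ℝ)| ≤ (((w β : ℚ) / w α).den : ℝ) ^ Fintype.card κ := by
  set D : ℕ := ∏ l, ((w l : ℚ) / w α).den with hD
  have hD0 : 0 < D := prod_pos fun l _ => Rat.den_pos _
  have h1 : ∀ l, w α ∣ (D : ℤ) * w l := fun l => by
    have h2 : ((((w l : ℚ) / w α).den : ℤ)) * w l = w α * ((w l : ℚ) / w α).num := by
      have h3 := Rat.mul_den_eq_num ((w l : ℚ) / w α)
      have h4 : (w α : ℚ) ≠ 0 := by exact_mod_cast hα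
      have : ((((w l : ℚ) / w α).den : ℚ)) * w l = w α * ((w l : ℚ) / w α).num := by
        rw [← h3]; field_simp
      exact_mod_cast this
    have h5 : ((((w l : ℚ) / w α).den : ℤ)) ∣ (D : ℤ) :=
      Int.natCast_dvd_natCast.mpr (dvd_prod_of_mem (fun l => ((w l : ℚ) / w α).den) (mem_univ l))
    exact (Dvd.intro _ h2.symm).trans (mul_dvd_mul_right h5 _)
  have h6 : w α ∣ (D : ℤ) := by
    have := Finset.dvd_gcd (s := univ) (f := fun l => (D : ℤ) * w l) fun l _ => h1 l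
    rw [Finset.gcd_mul_left, hg, mul_one] at this
    exact dvd_normalize_iff.mp this
  have h7 : |w α| ≤ D := Int.le_of_dvd (by exact_mod_cast hD0) ((abs_dvd _ _).mpr h6)
  have h8 : D ≤ ((w β : ℚ) / w α).den ^ Fintype.card κ := by
    rw [← card_univ]
    exact prod_le_pow_card _ _ _ fun l _ => hβ l
  calc |(w α : ℝ)| ≤ D := by exact_mod_cast h7
    _ ≤ _ := by exact_mod_cast h8

theorem penult_seq {τ : Type*} {G : τ → Prop} {q : τ → ℝ} (h : ∀ R, ∃ t, G t ∧ R ≤ q t) {ε : ℝ}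
    (hε : 0 < ε) : ∃ t : ℕ → τ, (∀ n, G (t n)) ∧ (∀ n, 1 ≤ ε * q (t n)) ∧
      ∀ k n, k < n → q (t k) ≤ ε * q (t n) := by
  choose f hf hR using h
  let R : ℕ → ℝ := fun n => Nat.rec (1 / ε) (fun _ r => max r (q (f r) / ε)) n
  have hs : ∀ n, R (n + 1) = max (R n) (q (f (R n)) / ε) := fun n => rfl
  have hmono : Monotone R := monotone_nat_of_le_succ fun n => by rw [hs]; exact le_max_left _ _
  refine ⟨fun n => f (R n), fun n => hf _, fun n => ?_, fun k n hk => ?_⟩
  · have h1 : 1 / ε ≤ q (f (R n)) := (hmono (Nat.zero_le n)).trans (hR _)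
    rwa [div_le_iff₀' hε] at h1
  · have h1 : q (f (R k)) / ε ≤ q (f (R n)) :=
      ((le_max_right _ _).trans (hmono (Nat.succ_le_of_lt hk))).trans (hR _)
    rwa [div_le_iff₀' hε] at h1

theorem penult {Pl κ : Type*} [Fintype Pl] [Fintype κ] [DecidableEq κ]
    (v : Pl → AbsoluteValue ℚ ℝ) (hv : Places v) (M : Pl → Matrix κ κ ℤ)
    (hM : ∀ p, (M p).det ≠ 0) {τ : Type*} (U : Ultrafilter τ) (q : τ → ℝ)
    (hq : Tendsto q U atTop) (b : τ → Pl → κ → ℝ) (Γ δ : ℝ) (hδ : 0 < δ)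
    (hb : ∀ᶠ t in U, ∀ p j, |b t p j| ≤ Γ * q t)
    (hsum : ∀ᶠ t in U, ∑ p, ∑ j, b t p j ≤ -δ * q t)
    (Y : τ → Matrix κ κ ℤ) (j₀ : κ) (hY : ∀ᶠ t in U, (Y t).det ≠ 0)
    (hbd : ∀ᶠ t in U, ∀ p i j, i ≠ j₀ →
      v p (((M p *ᵥ Y t i) j : ℤ) : ℚ) ≤ Real.exp (b t p j)) :
    ∃ w : κ → ℤ, w ≠ 0 ∧ ∀ᶠ t in U, ∀ i, i ≠ j₀ → w ⬝ᵥ Y t i = 0 := by
  classical
  have : Nonempty κ := ⟨j₀⟩
  have hq0 : ∀ᶠ t in U, 0 < q t := hq.eventually (eventually_gt_atTop 0)
  have hN : (0 : ℝ) < Fintype.card κ := by exact_mod_cast Fintype.card_pos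
  have hs : (0 : ℝ) < Fintype.card Pl := by
    rcases isEmpty_or_nonempty Pl with hE | hE
    · obtain ⟨t, h1, h2⟩ := (hq0.and hsum).exists
      rw [univ_eq_empty, sum_empty] at h2
      nlinarith
    · exact_mod_cast Fintype.card_pos
  choose g w hgw using fun t => penult_prim (Y t) j₀
  have hα : ∀ t, ∃ α, ∀ l, |w t l| ≤ |w t α| := fun t => by
    obtain ⟨α, -, h⟩ := exists_max_image univ (fun l => |w t l|) univ_nonempty
    exact ⟨α, fun l => h l (mem_univ _)⟩
  choose α hα using hα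
  have hwα : ∀ t, (Y t).det ≠ 0 → w t (α t) ≠ 0 := fun t ht h0 => by
    have h1 : ∀ l, w t l = 0 := fun l => by simpa [h0] using hα t l
    have h2 := (hgw t ht).2.2.1
    rw [(Finset.gcd_eq_zero_iff).mpr fun l _ => h1 l] at h2
    exact zero_ne_one h2
  set d2 := δ / (2 * Fintype.card Pl) with hd2
  have hd20 : 0 < d2 := by positivity
  rcases U.eventually_or.mp (Eventually.of_forall fun t =>
    le_or_gt |(w t (α t) : ℝ)| (Real.exp (d2 * q t))) with hA | hB
  · obtain ⟨Z, hZ⟩ := penult_const U fun t => fun p j => decide ((w t ᵥ* (M p).adjugate) j ≠ 0)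
    obtain ⟨t₀, ht₀, hZ₀⟩ := (hY.and hZ).exists
    refine ⟨w t₀, fun h0 => hwα t₀ ht₀ (by rw [h0]; rfl), ?_⟩
    set B : ℝ := 1 + ∑ p, ∑ l, ∑ j, |((M p).adjugate l j : ℝ)| with hB
    have hB0 : 0 < B := by positivity
    have hBle : ∀ p j, ∑ l, |((M p).adjugate l j : ℝ)| ≤ B := fun p j => by
      have h1 : ∑ l, |((M p).adjugate l j : ℝ)| ≤ ∑ l, ∑ j, |((M p).adjugate l j : ℝ)| :=
        sum_le_sum fun l _ => single_le_sum (f := fun j => |((M p).adjugate l j : ℝ)|)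
          (fun _ _ => abs_nonneg _) (mem_univ j)
      have h2 : ∑ l, ∑ j, |((M p).adjugate l j : ℝ)| ≤
          ∑ p, ∑ l, ∑ j, |((M p).adjugate l j : ℝ)| :=
        single_le_sum (f := fun p => ∑ l, ∑ j, |((M p).adjugate l j : ℝ)|)
          (fun _ _ => by positivity) (mem_univ p)
      linarith
    set K : Pl → ℝ := fun p => |((M p).det : ℝ)| * Fintype.card κ *
      (∑ j, |(((w t₀ ᵥ* (M p).adjugate) j : ℤ) : ℝ)|) * ((Fintype.card κ).factorial * B) with hK
    have hsmall : ∀ᶠ t in U, (∏ p, K p) * Real.exp (-(δ / 2) * q t) < 1 := by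
      have h1 : Tendsto (fun t => (∏ p, K p) * Real.exp (-(δ / 2) * q t)) U
          (𝓝 ((∏ p, K p) * 0)) :=
        Tendsto.const_mul _ (Real.tendsto_exp_atBot.comp
          (hq.const_mul_atTop_of_neg (by linarith)))
      rw [mul_zero] at h1
      exact h1.eventually (gt_mem_nhds one_pos)
    filter_upwards [hY, hZ, hA, hbd, hsum, hsmall] with t ht hZt hAt hbt hst hsm i hi
    by_contra hne
    obtain ⟨hg0, hadj, -, -⟩ := hgw t ht
    have hp : ∀ p, v p (g t) * v p ((w t₀ ⬝ᵥ Y t i : ℤ) : ℚ) ≤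
        K p * Real.exp (d2 * q t + ∑ l, b t p l) := fun p => by
      obtain ⟨j, hj, hle⟩ := penult_pick (v p) (M p) (hM p) (b t p) (w t₀) (Y t i) hne
        fun j => hbt p i j hi
      have hj' : (w t ᵥ* (M p).adjugate) j ≠ 0 := by
        have h1 := congrFun (congrFun (hZt.trans hZ₀.symm) p) j
        simpa [hj] using h1
      have h2 := penult_minor (v p) (M p) (Y t) j₀ (b t p) hadj (fun i j hi => hbt p i j hi) j
      have h3 := hv.2.1 p _ hj'
      have h4 := hv.2.1 p _ (hM p)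
      have h5 : |(((w t ᵥ* (M p).adjugate) j : ℤ) : ℝ)| ≤ B * Real.exp (d2 * q t) := by
        rw [vecMul, dotProduct, Int.cast_sum]
        refine (abs_sum_le_sum_abs _ _).trans ?_
        refine le_trans ?_ (mul_le_mul_of_nonneg_right (hBle p j) (Real.exp_pos _).le)
        rw [sum_mul]
        refine sum_le_sum fun l _ => ?_
        rw [Int.cast_mul, abs_mul, mul_comm]
        refine mul_le_mul_of_nonneg_left (le_trans ?_ hAt) (abs_nonneg _)
        exact_mod_cast hα t l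
      have h6 : v p (((w t₀ ᵥ* (M p).adjugate) j : ℤ) : ℚ) ≤
          ∑ j, |(((w t₀ ᵥ* (M p).adjugate) j : ℤ) : ℝ)| :=
        (hv.1 p _).trans (single_le_sum
          (f := fun j => |(((w t₀ ᵥ* (M p).adjugate) j : ℤ) : ℝ)|)
          (fun _ _ => abs_nonneg _) (mem_univ j))
      have ha0 := (v p).nonneg ((w t₀ ⬝ᵥ Y t i : ℤ) : ℚ)
      have hg1 := (v p).nonneg (g t : ℚ)
      have h7 : v p ((w t₀ ⬝ᵥ Y t i : ℤ) : ℚ) ≤ |((M p).det : ℝ)| * (Fintype.card κ *
          ((∑ j, |(((w t₀ ᵥ* (M p).adjugate) j : ℤ) : ℝ)|) * Real.exp (b t p j))) := by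
        calc _ ≤ (v p (M p).det * |((M p).det : ℝ)|) * v p ((w t₀ ⬝ᵥ Y t i : ℤ) : ℚ) :=
              le_mul_of_one_le_left ha0 h4
          _ = |((M p).det : ℝ)| * (v p (M p).det * v p ((w t₀ ⬝ᵥ Y t i : ℤ) : ℚ)) := by ring
          _ ≤ _ := by
              refine mul_le_mul_of_nonneg_left (hle.trans ?_) (abs_nonneg _)
              gcongr
      have h8 : v p (g t) ≤ (B * Real.exp (d2 * q t)) * ((Fintype.card κ).factorial *
          (Real.exp (-b t p j) * Real.exp (∑ l, b t p l))) := by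
        calc _ ≤ (v p (((w t ᵥ* (M p).adjugate) j : ℤ) : ℚ) *
              |(((w t ᵥ* (M p).adjugate) j : ℤ) : ℝ)|) * v p (g t) :=
              le_mul_of_one_le_left hg1 h3
          _ = |(((w t ᵥ* (M p).adjugate) j : ℤ) : ℝ)| *
              (v p (g t) * v p (((w t ᵥ* (M p).adjugate) j : ℤ) : ℚ)) := by ring
          _ ≤ _ := mul_le_mul h5 h2 (mul_nonneg hg1 ((v p).nonneg _))
              (mul_pos hB0 (Real.exp_pos _)).le
      refine (mul_le_mul h8 h7 ha0 (hg1.trans h8)).trans (le_of_eq ?_)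
      have h9 : Real.exp (-b t p j) * Real.exp (b t p j) = 1 := by
        rw [← Real.exp_add]; simp
      rw [Real.exp_add, hK]
      linear_combination (B * Real.exp (d2 * q t) * (Fintype.card κ).factorial *
        Real.exp (∑ l, b t p l) * |((M p).det : ℝ)| * Fintype.card κ *
        (∑ j, |(((w t₀ ᵥ* (M p).adjugate) j : ℤ) : ℝ)|)) * h9
    have h1 : (1 : ℝ) ≤ ∏ p, v p (g t) * v p ((w t₀ ⬝ᵥ Y t i : ℤ) : ℚ) := by
      rw [prod_mul_distrib]
      exact one_le_mul_of_one_le_of_one_le (hv.2.2 _ hg0) (hv.2.2 _ hne)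
    have h2 : ∏ p, v p (g t) * v p ((w t₀ ⬝ᵥ Y t i : ℤ) : ℚ) ≤
        ∏ p, K p * Real.exp (d2 * q t + ∑ l, b t p l) :=
      prod_le_prod (fun p _ => mul_nonneg ((v p).nonneg _) ((v p).nonneg _)) fun p _ => hp p
    rw [prod_mul_distrib (f := K), ← Real.exp_sum, sum_add_distrib, sum_const, card_univ,
      nsmul_eq_mul] at h2
    have h3 : (Fintype.card Pl : ℝ) * (d2 * q t) = δ / 2 * q t := by rw [hd2]; field_simp
    have h4 : (∏ p, K p) * Real.exp (Fintype.card Pl * (d2 * q t) + ∑ p, ∑ l, b t p l) ≤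
        (∏ p, K p) * Real.exp (-(δ / 2) * q t) := by
      refine mul_le_mul_of_nonneg_left (Real.exp_le_exp.mpr (by linarith)) ?_
      exact prod_nonneg fun p _ => mul_nonneg (mul_nonneg (mul_nonneg (abs_nonneg _) hN.le)
        (sum_nonneg fun _ _ => abs_nonneg _)) (mul_nonneg (Nat.cast_nonneg _) hB0.le)
    linarith
  · exfalso
    have hβ : ∀ t, ∃ β, ∀ l, ((w t l : ℚ) / w t (α t)).den ≤ ((w t β : ℚ) / w t (α t)).den :=
      fun t => by
        obtain ⟨β, -, h⟩ := exists_max_image univ (fun l => ((w t l : ℚ) / w t (α t)).den)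
          univ_nonempty
        exact ⟨β, fun l => h l (mem_univ _)⟩
    choose β hβ using hβ
    obtain ⟨α₀, hα₀⟩ := penult_const U α
    obtain ⟨β₀, hβ₀⟩ := penult_const U β
    have hden : ∀ᶠ t in U, d2 / Fintype.card κ * q t ≤
        Real.log ((w t β₀ : ℚ) / w t α₀).den := by
      filter_upwards [hY, hB, hα₀, hβ₀] with t ht hBt h1 h2
      have h3 := hBt.le.trans (penult_den (hgw t ht).2.2.1 (hwα t ht) (hβ t))
      rw [h1, h2] at h3
      have h4 := Real.log_le_log (Real.exp_pos _) h3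
      rw [Real.log_exp, Real.log_pow] at h4
      rw [div_mul_eq_mul_div, div_le_iff₀' hN]
      exact h4
    have hαβ : α₀ ≠ β₀ := by
      rintro rfl
      obtain ⟨t, h1, h2, h3, h4⟩ := (hden.and (hY.and (hα₀.and hq0))).exists
      have h5 : (w t α₀ : ℚ) ≠ 0 := by rw [← h3]; exact_mod_cast hwα t h2
      rw [div_self h5] at h1
      have : 0 < d2 / Fintype.card κ * q t := by positivity
      simp only [Rat.den_ofNat, Nat.cast_one, Real.log_one] at h1
      linarith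
    have hc : ∀ p j, ∃ c : ℝ, Tendsto (fun t => b t p j / q t) U (𝓝 c) := fun p j => by
      have h1 : (↑(U.map fun t => b t p j / q t) : Filter ℝ) ≤ 𝓟 (Set.Icc (-Γ) Γ) := by
        rw [le_principal_iff]
        refine mem_map.mpr ?_
        filter_upwards [hb, hq0] with t h1 h2
        have h3 : |b t p j / q t| ≤ Γ := by
          rw [abs_div, abs_of_pos h2, div_le_iff₀ h2]; exact h1 p j
        exact abs_le.mp h3
      obtain ⟨c, -, hc⟩ := isCompact_Icc.ultrafilter_le_nhds _ h1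
      exact ⟨c, hc⟩
    choose c hc using hc
    set η := δ / (2 * Fintype.card Pl * Fintype.card κ) with hη
    have hη0 : 0 < η := by positivity
    have hcs : ∑ p, ∑ j, c p j ≤ -δ := by
      have h1 : Tendsto (fun t => ∑ p, ∑ j, b t p j / q t) U (𝓝 (∑ p, ∑ j, c p j)) :=
        tendsto_finsetSum _ fun p _ => tendsto_finsetSum _ fun j _ => hc p j
      refine le_of_tendsto h1 ?_
      filter_upwards [hsum, hq0] with t h2 h3
      simp only [← sum_div]
      rwa [div_le_iff₀ h3]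
    have hcs' : ∑ p, ∑ j, (c p j + η) ≤ -(δ / 2) := by
      simp only [sum_add_distrib, sum_const, card_univ, nsmul_eq_mul]
      have : (Fintype.card Pl : ℝ) * (Fintype.card κ * η) = δ / 2 := by rw [hη]; field_simp
      linarith
    have hbc : ∀ᶠ t in U, ∀ p j, b t p j ≤ (c p j + η) * q t := by
      simp only [eventually_all]
      intro p j
      filter_upwards [(hc p j).eventually (gt_mem_nhds (lt_add_of_pos_right _ hη0)), hq0]
        with t h1 h2
      rw [div_lt_iff₀ h2] at h1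
      exact h1.le
    obtain ⟨m, ε, hε, hcore⟩ := core v hv M hM (fun p j => c p j + η) (δ / 2) (by positivity) hcs'
      (d2 / Fintype.card κ) (by positivity) j₀ α₀ β₀ hαβ
    obtain ⟨t, hG, h1, h2⟩ := penult_seq (q := q) (fun R =>
      ((hY.and (hα₀.and (hden.and (hbd.and hbc)))).and (hq.eventually_ge_atTop R)).exists) hε
    have hne : ∀ n, (w (t n) α₀ : ℚ) ≠ 0 := fun n => by
      rw [← (hG n).2.1]; exact_mod_cast hwα _ (hG n).1
    refine hcore (fun h => q (t h)) (fun h => Y (t h)) (fun h l => (w (t h) l : ℚ) / w (t h) α₀)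
      (fun h => h1 h) (fun h h' hh => ?_) (fun h => (hG h).1) (fun h => div_self (hne h))
      (fun h i hi => ?_) (fun h => (hG h).2.2.1) fun h p i j hi => ?_
    · rcases lt_or_gt_of_ne hh with h3 | h3
      · exact Or.inl (h2 _ _ h3)
      · exact Or.inr (h2 _ _ h3)
    · have h3 := (hgw _ (hG h).1).2.2.2 i hi
      have h4 : ∑ l, (w (t h) l : ℚ) * (Y (t h) i l : ℚ) = 0 := by
        rw [dotProduct] at h3
        exact_mod_cast h3
      simp only [div_mul_eq_mul_div, ← sum_div, h4, zero_div]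
    · exact ((hG h).2.2.2.1 p i j hi).trans (Real.exp_le_exp.mpr ((hG h).2.2.2.2 p j))

end Pool.Agent.Lib.Common.Subspace
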