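import Pool.Agent.Lib.Common.Subspace.Wronski

/-! Roth's lemma, in soft form. -/

namespace Pool.Agent.Lib.Common.Subspace

open MvPolynomial Finset

theorem roth_inFil_single {σ : Type*} [DecidableEq σ] (b : σ) (c t : ℝ) (Q : MvPolynomial σ ℚ) :
    InFil (Pi.single b (-c)) (-t) Q ↔ ∀ μ ∈ Q.support, c * μ b ≤ t := by
  unfold InFil
  refine forall₂_congr fun μ _ => ?_
  rw [Finsupp.weight_single_index, nsmul_eq_mul, mul_neg, neg_le_neg_iff, mul_comm]

theorem roth_inFil_zero {σ : Type*} [DecidableEq σ] (b : σ) (Q : MvPolynomial σ ℚ) :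
    InFil (Pi.single b (-1)) 0 Q ↔ ∀ μ ∈ Q.support, μ b = 0 := by
  have := roth_inFil_single b 1 0 Q
  rw [neg_zero] at this
  rw [this]
  refine forall₂_congr fun μ _ => ?_
  rw [one_mul]
  constructor
  · intro h
    exact_mod_cast le_antisymm h (Nat.cast_nonneg _)
  · intro h
    rw [h, Nat.cast_zero]

theorem roth_det_supp {σ : Type*} {n : Type*} [Fintype n] [DecidableEq n] (b : σ)
    (A : Matrix n n (MvPolynomial σ ℚ)) (h : ∀ i j, ∀ μ ∈ (A i j).support, μ b = 0) :
    ∀ μ ∈ A.det.support, μ b = 0 := by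
  classical
  rw [← roth_inFil_zero]
  have := inFil_det (ω := Pi.single b (-1)) A (fun _ => 0)
    (fun i j => (roth_inFil_zero b _).mpr (h i j))
  simpa using this

theorem roth_shift_supp {σ : Type*} (b : σ) (ξ : σ → ℚ) (Q : MvPolynomial σ ℚ)
    (h : ∀ μ ∈ Q.support, μ b = 0) : ∀ μ ∈ (shift ξ Q).support, μ b = 0 := by
  classical
  rw [← roth_inFil_zero] at h ⊢
  refine h.aeval fun s => (inFil_X s).add ((inFil_C _).mono ?_)
  by_cases hs : s = b
  · subst hs
    simp
  · rw [Pi.single_eq_of_ne hs]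

theorem roth_eq_single {σ : Type*} (a : σ) (ν : σ →₀ ℕ) (h : ∀ s, s ≠ a → ν s = 0) :
    ν = Finsupp.single a (ν a) := by
  classical
  ext s
  by_cases hs : s = a
  · subst hs
    simp
  · rw [h s hs, Finsupp.single_eq_of_ne hs]

theorem roth_row_supp {σ : Type*} {r : ℕ} (b : σ) (μ : Fin r → σ →₀ ℕ)
    (f : Fin r → MvPolynomial σ ℚ) (hf : ∀ l, ∀ ν ∈ (f l).support, ν b = 0)
    (h : (Matrix.of fun i j => hd (μ i) (f j)).det ≠ 0) (i : Fin r) : μ i b = 0 := by
  by_contra hne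
  apply h
  apply Matrix.det_eq_zero_of_row_eq_zero i
  intro l
  rw [Matrix.of_apply]
  ext ν
  rw [coeff_hd, coeff_zero]
  by_cases hν : ν ∈ (f l).support
  · rw [bin_eq_zero_of_lt (s := b) (by rw [hf l ν hν]; exact Nat.pos_of_ne_zero hne)]
    simp
  · rw [notMem_support_iff.mp hν, mul_zero]

theorem roth_decomp {σ : Type*} (a : σ) (P : MvPolynomial σ ℚ) (N : ℕ)
    (hN : ∀ μ ∈ P.support, μ a ≤ N) :
    ∃ F : Fin (N + 1) → MvPolynomial σ ℚ,
      (∀ k, ∀ ν ∈ (F k).support, ∃ μ ∈ P.support, ν = μ.erase a) ∧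
      ∑ k, F k * monomial (Finsupp.single a (k : ℕ)) 1 = P := by
  classical
  refine ⟨fun k => ∑ μ ∈ P.support.filter (fun μ => μ a = (k : ℕ)),
    monomial (μ.erase a) (coeff μ P), ?_, ?_⟩
  · intro k ν hν
    obtain ⟨μ, hμ, h2⟩ := Finset.mem_biUnion.mp (support_sum hν)
    exact ⟨μ, (Finset.mem_filter.mp hμ).1,
      Finset.mem_singleton.mp (support_monomial_subset h2)⟩
  · rw [Fin.sum_univ_eq_sum_range (fun k => (∑ μ ∈ P.support.filter (fun μ => μ a = k),
      monomial (μ.erase a) (coeff μ P)) * monomial (Finsupp.single a k) (1 : ℚ)) (N + 1)]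
    conv_rhs => rw [P.as_sum]
    rw [← Finset.sum_fiberwise_of_maps_to (s := P.support) (t := Finset.range (N + 1))
      (g := fun μ => μ a) (fun μ hμ => Finset.mem_range.mpr (Nat.lt_succ_of_le (hN μ hμ)))]
    refine Finset.sum_congr rfl fun k _ => ?_
    rw [Finset.sum_mul]
    refine Finset.sum_congr rfl fun μ hμ => ?_
    rw [monomial_mul, mul_one, ← (Finset.mem_filter.mp hμ).2, Finsupp.erase_add_single]

theorem roth_factorial_le (r : ℕ) : (r.factorial : ℝ) ≤ Real.exp (r * ((r : ℝ) - 1)) := by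
  have h1 : (r.factorial : ℝ) ≤ (r : ℝ) ^ r := by exact_mod_cast Nat.factorial_le_pow r
  have h2 : (r : ℝ) ≤ Real.exp ((r : ℝ) - 1) := by
    have := Real.add_one_le_exp ((r : ℝ) - 1)
    linarith
  calc (r.factorial : ℝ) ≤ (r : ℝ) ^ r := h1
    _ ≤ Real.exp ((r : ℝ) - 1) ^ r := pow_le_pow_left₀ (Nat.cast_nonneg r) h2 r
    _ = Real.exp (r * ((r : ℝ) - 1)) := by rw [Real.exp_nat_mul]

theorem roth_sum_lower (r : ℕ) (hr : 1 ≤ r) (θ D w ε : ℝ) (hθ : 0 < θ) (hθ1 : θ ≤ 1) (hD : 0 < D)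
    (hw : 0 ≤ w) (hrw : ((r : ℝ) - 1) * w ≤ D) (hε : ε ≤ θ / 2) (k : Fin r → ℕ)
    (hk : ∀ j, k j < r) (hinj : Function.Injective k) :
    θ ^ 2 / 32 * (r * D) ≤ ∑ j, max 0 (θ * D - ε * D - k j * w) := by
  have hbij : Function.Bijective (fun j => (⟨k j, hk j⟩ : Fin r)) :=
    Finite.injective_iff_bijective.mp fun j j' h => hinj (congrArg Fin.val h)
  have h1 : ∑ j, max 0 (θ * D - ε * D - k j * w) =
      ∑ j : Fin r, max 0 (θ * D - ε * D - ((j : ℕ) : ℝ) * w) :=
    hbij.sum_comp (fun j : Fin r => max 0 (θ * D - ε * D - ((j : ℕ) : ℝ) * w))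
  rw [h1, Fin.sum_univ_eq_sum_range (fun j => max 0 (θ * D - ε * D - (j : ℝ) * w)) r]
  have hr' : (1 : ℝ) ≤ r := by exact_mod_cast hr
  have hx : 0 ≤ θ * ((r : ℝ) - 1) / 4 := by
    have : 0 ≤ (r : ℝ) - 1 := by linarith
    positivity
  set m := ⌊θ * ((r : ℝ) - 1) / 4⌋₊ with hm
  have hm1 : (m : ℝ) ≤ θ * ((r : ℝ) - 1) / 4 := Nat.floor_le hx
  have hm2 : θ * ((r : ℝ) - 1) / 4 < m + 1 := Nat.lt_floor_add_one _
  have hmr : m + 1 ≤ r := by
    have : (m : ℝ) + 1 ≤ r := by nlinarith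
    exact_mod_cast this
  have h2 : ∑ j ∈ range (m + 1), θ * D / 4 ≤
      ∑ j ∈ range r, max 0 (θ * D - ε * D - (j : ℝ) * w) := by
    refine le_trans (Finset.sum_le_sum fun j hj => ?_)
      (Finset.sum_le_sum_of_subset_of_nonneg (Finset.range_mono hmr)
        fun j _ _ => le_max_left _ _)
    refine le_trans ?_ (le_max_right _ _)
    have hj' : (j : ℝ) ≤ m := by exact_mod_cast Nat.le_of_lt_succ (Finset.mem_range.mp hj)
    have h3 : (j : ℝ) * w ≤ θ * ((r : ℝ) - 1) / 4 * w :=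
      mul_le_mul_of_nonneg_right (hj'.trans hm1) hw
    have h4 : θ * (((r : ℝ) - 1) * w) ≤ θ * D := mul_le_mul_of_nonneg_left hrw hθ.le
    have h5 : ε * D ≤ θ / 2 * D := mul_le_mul_of_nonneg_right hε hD.le
    nlinarith
  refine le_trans ?_ h2
  rw [Finset.sum_const, Finset.card_range, nsmul_eq_mul, Nat.cast_add, Nat.cast_one]
  have hm0 : (0 : ℝ) ≤ m := Nat.cast_nonneg m
  have h6 : θ * r / 8 ≤ (m : ℝ) + 1 := by nlinarith
  have h7 : 0 < θ * D / 4 := by positivity
  calc θ ^ 2 / 32 * (r * D) = θ * r / 8 * (θ * D / 4) := by ring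
    _ ≤ ((m : ℝ) + 1) * (θ * D / 4) := mul_le_mul_of_nonneg_right h6 h7.le

theorem roth_aux {σ : Type*} [Fintype σ] (γ : ℝ) (hγ : 0 < γ) (n : ℕ) :
    ∀ θ : ℝ, 0 < θ → θ ≤ 1 →
    ∃ ε : ℝ, 0 < ε ∧ ∀ (s : Finset σ), s.card = n → ∀ (ω : σ → ℝ), (∀ a, 0 ≤ ω a) →
      (∀ a ∈ s, 1 ≤ ε * ω a) →
      (∀ a ∈ s, ∀ b ∈ s, a ≠ b → ω a ≤ ε * ω b ∨ ω b ≤ ε * ω a) →
      ∀ (ξ : σ → ℚ), (∀ a ∈ s, γ * ω a ≤ Real.log (ξ a).den) →
      ∀ (D : ℝ), 0 < D → ∀ (P : MvPolynomial σ ℚ), P ≠ 0 → IsInt P →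
      (∀ μ ∈ P.support, ∀ a, a ∉ s → μ a = 0) →
      (∀ μ ∈ P.support, ∀ a, ω a * μ a ≤ D) →
      len P ≤ Real.exp (ε * D) → ¬ InFil ω (θ * D) (shift ξ P) := by
  classical
  induction n with
  | zero =>
    intro θ hθ _
    refine ⟨1, one_pos, ?_⟩
    intro s hs ω _ _ _ ξ _ D hD P hP0 _ hsupp _ _ hfil
    rw [Finset.card_eq_zero] at hs
    subst hs
    have hC : P = C (coeff 0 P) := by
      ext μ
      rw [coeff_C]
      split_ifs with h
      · rw [h]
      · by_contra hne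
        apply h
        ext a
        exact (hsupp μ (mem_support_iff.mpr hne) a (Finset.notMem_empty a)).symm
    have hc : coeff 0 P ≠ 0 := by
      intro h
      rw [h, C_0] at hC
      exact hP0 hC
    have h1 : shift ξ P = C (coeff 0 P) := by
      rw [hC]
      unfold shift
      rw [aeval_C, coeff_zero_C]
      rfl
    have h2 := hfil 0 (by
      rw [h1, mem_support_iff, coeff_zero_C]
      exact hc)
    rw [map_zero] at h2
    have := mul_pos hθ hD
    linarith
  | succ n ih =>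
    intro θ hθ hθ1
    have hθ' : 0 < θ ^ 2 / 64 := by positivity
    obtain ⟨ε', hε', hIH⟩ := ih (θ ^ 2 / 64) hθ' (by nlinarith)
    have hn3 : (0 : ℝ) < n + 3 := by positivity
    obtain ⟨ε, hε0, hε1, hε2, hε3, hε4⟩ : ∃ ε : ℝ, 0 < ε ∧ (n + 3) * ε ≤ ε' ∧
        (n + 3) * ε ≤ θ ^ 2 / 64 * γ / 2 ∧ ε ≤ θ / 2 ∧ ε ≤ 1 / 2 := by
      refine ⟨min (min (ε' / (n + 3)) (θ ^ 2 / 64 * γ / 2 / (n + 3))) (θ / 2), by positivity,
        ?_, ?_, min_le_right _ _, (min_le_right _ _).trans (by linarith)⟩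
      · rw [← le_div_iff₀' hn3]
        exact (min_le_left _ _).trans (min_le_left _ _)
      · rw [← le_div_iff₀' hn3]
        exact (min_le_left _ _).trans (min_le_right _ _)
    have hεε' : ε ≤ ε' := by
      have : (0 : ℝ) ≤ n := Nat.cast_nonneg n
      nlinarith
    refine ⟨ε, hε0, ?_⟩
    intro s hs ω hω h1 hsep ξ hξ D hD P hP0 hint hsupp hdeg hlen hfil
    obtain ⟨a, ha, hmax⟩ := Finset.exists_max_image s ω
      (Finset.card_pos.mp (by rw [hs]; exact Nat.succ_pos n))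
    have hωa : 0 < ω a := by
      by_contra hneg
      have h2 : ω a = 0 := le_antisymm (not_lt.mp hneg) (hω a)
      have h3 := h1 a ha
      rw [h2, mul_zero] at h3
      linarith
    have hsmall : ∀ b ∈ s.erase a, ω b ≤ ε * ω a := by
      intro b hb
      obtain ⟨hba, hbs⟩ := Finset.mem_erase.mp hb
      rcases hsep b hbs a ha hba with h | h
      · exact h
      · have := hmax b hbs
        nlinarith
    obtain ⟨μ0, hμ0, hμ0max⟩ := Finset.exists_max_image P.support (fun μ => μ a)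
      (support_nonempty.mpr hP0)
    obtain ⟨F, hF, hFsum⟩ := roth_decomp a P (μ0 a) hμ0max
    obtain ⟨r, f, g, hrN, hf, hg, hfi, hgi, hfg⟩ := exists_min_decomp
      (restrictSupport ℚ {ν : σ →₀ ℕ | ∀ b, b ∉ s.erase a → ν b = 0})
      (restrictSupport ℚ {ν : σ →₀ ℕ | ∀ b, b ≠ a → ν b = 0}) (μ0 a + 1) F
      (fun k => monomial (Finsupp.single a (k : ℕ)) 1) (by
        intro k
        rw [mem_restrictSupport_iff]
        intro ν hν b hb
        obtain ⟨μ, hμ, rfl⟩ := hF k ν hν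
        by_cases hba : b = a
        · rw [hba, Finsupp.erase_same]
        · rw [Finsupp.erase_ne hba]
          exact hsupp μ hμ b fun hbs => hb (Finset.mem_erase.mpr ⟨hba, hbs⟩)) (by
        intro k
        rw [monomial_mem_restrictSupport]
        exact Or.inl fun b hb => Finsupp.single_eq_of_ne hb)
    rw [hFsum] at hfg
    have hf' : ∀ l, ∀ ν ∈ (f l).support, ∀ b, b ∉ s.erase a → ν b = 0 := fun l ν hν =>
      (mem_restrictSupport_iff ℚ).mp (hf l) hν
    have hg' : ∀ l, ∀ ν ∈ (g l).support, ∀ b, b ≠ a → ν b = 0 := fun l ν hν =>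
      (mem_restrictSupport_iff ℚ).mp (hg l) hν
    have hr1 : 1 ≤ r := by
      rcases Nat.eq_zero_or_pos r with h | h
      · subst h
        exact absurd (by rw [← hfg]; simp) hP0
      · exact h
    have hr1' : (1 : ℝ) ≤ r := by exact_mod_cast hr1
    have hrD : ((r : ℝ) - 1) * ω a ≤ D := by
      have h2 : (r : ℝ) ≤ μ0 a + 1 := by exact_mod_cast hrN
      have h3 := hdeg μ0 hμ0 a
      nlinarith
    have hrε : (r : ℝ) - 1 ≤ ε * D := by
      have h3 := h1 a ha
      nlinarith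
    obtain ⟨μ, hμdeg, hU⟩ := exists_hd_det_ne_zero r f hfi
    obtain ⟨ν, hνdeg, hV⟩ := exists_hd_det_ne_zero r g hgi
    have hμs : ∀ i b, b ∉ s.erase a → μ i b = 0 := fun i b hb =>
      roth_row_supp b μ f (fun l ν hν => hf' l ν hν b hb) hU i
    have hνs : ∀ j, ν j = Finsupp.single a (ν j a) := fun j =>
      roth_eq_single a _ fun b hb => roth_row_supp b ν g (fun l ν hν => hg' l ν hν b hb) hV j
    have hk : ∀ j, ν j a < r := fun j => lt_of_le_of_lt (Finsupp.le_degree a (ν j)) (hνdeg j)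
    have hkinj : Function.Injective fun j => ν j a := by
      intro j j' h
      by_contra hne
      apply hV
      apply Matrix.det_zero_of_row_eq hne
      funext l
      have h' : ν j a = ν j' a := h
      rw [Matrix.of_apply, Matrix.of_apply, hνs j, hνs j', h']
    set U := (Matrix.of fun i j => hd (μ i) (f j)).det with hUdef
    set V := (Matrix.of fun i j => hd (ν i) (g j)).det with hVdef
    have hanot : a ∉ s.erase a := Finset.notMem_erase a s
    let Wm : Matrix (Fin r) (Fin r) (MvPolynomial σ ℚ) :=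
      Matrix.of fun i j => hd (μ i + Finsupp.single a (ν j a)) P
    have hW : Wm.det = U * V := by
      rw [hUdef, hVdef, ← Matrix.det_transpose (Matrix.of fun i j => hd (ν i) (g j)),
        ← Matrix.det_mul]
      congr 1
      ext1 i j
      change hd (μ i + Finsupp.single a (ν j a)) P = _
      rw [Matrix.mul_apply, ← hfg, map_sum]
      refine Finset.sum_congr rfl fun l _ => ?_
      rw [hd_mul_disjoint a (f l) (g l) (fun ν hν => hf' l ν hν a hanot) (hg' l) (μ i)
        (hμs i a hanot), Matrix.transpose_apply, Matrix.of_apply, Matrix.of_apply, ← hνs j]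
    have hUs : ∀ ρ ∈ U.support, ∀ b, b ∉ s.erase a → ρ b = 0 := fun ρ hρ b hb =>
      roth_det_supp b _ (fun i j ν hν => hf' j ν (support_hd_subset _ _ hν) b hb) ρ hρ
    have hVs : ∀ ρ ∈ V.support, ∀ b, b ≠ a → ρ b = 0 := fun ρ hρ b hb =>
      roth_det_supp b _ (fun i j ν hν => hg' j ν (support_hd_subset _ _ hν) b hb) ρ hρ
    have hWint : IsInt (U * V) := by
      rw [← hW]
      exact isInt_det _ fun i j => hint.hd _
    have hD' : 0 < (r : ℝ) * D := by positivity
    have hWlen : len (U * V) ≤ Real.exp ((n + 3) * ε * (r * D)) := by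
      rw [← hW]
      have hdegree : ∀ ρ ∈ P.support, (ρ.degree : ℝ) ≤ (n + 1) * (ε * D) := by
        intro ρ hρ
        rw [Finsupp.degree_eq_sum, ← Finset.sum_subset (Finset.subset_univ s)
          (fun b _ hb => hsupp ρ hρ b hb), Nat.cast_sum]
        calc ∑ b ∈ s, (ρ b : ℝ) ≤ ∑ b ∈ s, ε * D := by
              refine Finset.sum_le_sum fun b hb => ?_
              have h2 := h1 b hb
              have h3 := hdeg ρ hρ b
              have h4 : (0 : ℝ) ≤ ρ b := Nat.cast_nonneg _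
              nlinarith
          _ = (n + 1) * (ε * D) := by
              rw [Finset.sum_const, hs, nsmul_eq_mul, Nat.cast_add, Nat.cast_one]
      have hb : ∀ i j, len (Wm i j) ≤ Real.exp ((n + 2) * (ε * D)) := by
        intro i j
        refine (len_hd_le _ P _ hdegree).trans ?_
        have h2 : (2 : ℝ) ^ (((n : ℝ) + 1) * (ε * D)) ≤ Real.exp ((n + 1) * (ε * D)) := by
          rw [← Real.exp_one_rpow]
          refine Real.rpow_le_rpow (by norm_num) ?_ (by positivity)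
          have := Real.add_one_le_exp 1
          linarith
        calc (2 : ℝ) ^ (((n : ℝ) + 1) * (ε * D)) * len P
            ≤ Real.exp ((n + 1) * (ε * D)) * Real.exp (ε * D) :=
              mul_le_mul h2 hlen (len_nonneg P) (Real.exp_pos _).le
          _ = Real.exp ((n + 2) * (ε * D)) := by
              rw [← Real.exp_add]
              congr 1
              ring
      have h2 := nrm_det_le (v := Rat.AbsoluteValue.real) (ρ := fun _ => 1)
        (fun _ => zero_le_one) Wm _ hb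
      rw [Fintype.card_fin] at h2
      refine le_trans h2 ?_
      calc (r.factorial : ℝ) * Real.exp ((n + 2) * (ε * D)) ^ r
          ≤ Real.exp (r * (ε * D)) * Real.exp ((n + 2) * (ε * D)) ^ r := by
            refine mul_le_mul_of_nonneg_right ((roth_factorial_le r).trans ?_) (by positivity)
            exact Real.exp_le_exp.mpr (mul_le_mul_of_nonneg_left hrε (Nat.cast_nonneg r))
        _ = Real.exp ((n + 3) * ε * (r * D)) := by
            rw [← Real.exp_nat_mul, ← Real.exp_add]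
            congr 1
            ring
    have hWdeg : ∀ ρ ∈ (U * V).support, ∀ b, ω b * ρ b ≤ r * D := by
      intro ρ hρ b
      revert ρ
      rw [← roth_inFil_single, ← hW]
      have h2 := inFil_det (ω := Pi.single b (-ω b)) Wm (fun _ => -D) (fun i j =>
        ((roth_inFil_single b (ω b) D P).mpr fun ρ hρ => hdeg ρ hρ b).of_support_subset
          (support_hd_subset _ _))
      rw [Finset.sum_const, Finset.card_univ, Fintype.card_fin, nsmul_eq_mul, mul_neg] at h2
      exact h2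
    obtain ⟨ρU, hρU⟩ := support_nonempty.mpr hU
    obtain ⟨ρV, hρV⟩ := support_nonempty.mpr hV
    have hcoef : ∀ ρ : σ →₀ ℕ, ρ a = 0 → ∀ k, coeff (ρ + Finsupp.single a k) (U * V) =
        coeff ρ U * coeff (Finsupp.single a k) V := fun ρ hρ k =>
      coeff_mul_disjoint a U V (fun ρ hρ => hUs ρ hρ a hanot) hVs ρ hρ k
    have hρV' := roth_eq_single a ρV (hVs ρV hρV)
    have hcU : coeff ρU U ≠ 0 := mem_support_iff.mp hρU
    have hcV : coeff ρV V ≠ 0 := mem_support_iff.mp hρV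
    have hsubC : ∀ (c : ℚ) (Q : MvPolynomial σ ℚ), (C c * Q).support ⊆ Q.support := by
      intro c Q ρ hρ
      rw [mem_support_iff, coeff_C_mul] at hρ
      exact mem_support_iff.mpr (right_ne_zero_of_mul hρ)
    have hshiftC : ∀ (c : ℚ) (Q : MvPolynomial σ ℚ), shift ξ (C c * Q) = C c * shift ξ Q := by
      intro c Q
      rw [map_mul]
      unfold shift
      rw [aeval_C]
      rfl
    have hU0 : ∀ ρ ∈ U.support, coeff ρ (C (coeff ρV V) * U) = coeff (ρ + ρV) (U * V) := by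
      intro ρ hρ
      rw [coeff_C_mul, hρV', hcoef ρ (hUs ρ hρ a hanot), mul_comm]
    have hV0 : ∀ ρ ∈ V.support, coeff ρ (C (coeff ρU U) * V) = coeff (ρU + ρ) (U * V) := by
      intro ρ hρ
      rw [coeff_C_mul, roth_eq_single a ρ (hVs ρ hρ), hcoef ρU (hUs ρU hρU a hanot)]
    have hintC : ∀ (c : ℚ) (Q : MvPolynomial σ ℚ) (φ : (σ →₀ ℕ) → σ →₀ ℕ),
        (∀ ρ ∈ Q.support, coeff ρ (C c * Q) = coeff (φ ρ) (U * V)) → IsInt (C c * Q) := by
      intro c Q φ h ρ
      by_cases hρ : ρ ∈ Q.support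
      · rw [h ρ hρ]
        exact hWint _
      · refine ⟨0, ?_⟩
        rw [coeff_C_mul, notMem_support_iff.mp hρ, mul_zero, Int.cast_zero]
    have hnotU : ¬ InFil ω (θ ^ 2 / 64 * (r * D)) (shift ξ U) := by
      intro hfilU
      refine hIH (s.erase a) (by rw [Finset.card_erase_of_mem ha, hs]; rfl) ω hω ?_ ?_ ξ
        (fun b hb => hξ b (Finset.mem_of_mem_erase hb)) (r * D) hD' (C (coeff ρV V) * U)
        (mul_ne_zero (C_ne_zero.mpr hcV) hU) (hintC _ _ (fun ρ => ρ + ρV) hU0)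
        (fun ρ hρ => hUs ρ (hsubC _ _ hρ)) ?_ ?_ ?_
      · intro b hb
        exact (h1 b (Finset.mem_of_mem_erase hb)).trans (mul_le_mul_of_nonneg_right hεε' (hω b))
      · intro b hb c hc hbc
        rcases hsep b (Finset.mem_of_mem_erase hb) c (Finset.mem_of_mem_erase hc) hbc with h | h
        · exact Or.inl (h.trans (mul_le_mul_of_nonneg_right hεε' (hω c)))
        · exact Or.inr (h.trans (mul_le_mul_of_nonneg_right hεε' (hω b)))
      · intro ρ hρ b
        have h2 : ρ + ρV ∈ (U * V).support := by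
          rw [mem_support_iff, ← hU0 ρ (hsubC _ _ hρ)]
          exact mem_support_iff.mp hρ
        refine le_trans (mul_le_mul_of_nonneg_left ?_ (hω b)) (hWdeg _ h2 b)
        rw [Finsupp.add_apply]
        exact_mod_cast Nat.le_add_right _ _
      · refine (len_le_of_injOn _ (U * V) (fun ρ => ρ + ρV) (add_left_injective ρV).injOn
          fun ρ hρ => hU0 ρ (hsubC _ _ hρ)).trans (hWlen.trans ?_)
        exact Real.exp_le_exp.mpr (mul_le_mul_of_nonneg_right hε1 hD'.le)
      · rw [hshiftC]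
        exact hfilU.of_support_subset (hsubC _ _)
    have hnotV : ¬ InFil ω (θ ^ 2 / 64 * (r * D)) (shift ξ V) := by
      intro hfilV
      have hne : C (coeff ρU U) * V ≠ 0 := mul_ne_zero (C_ne_zero.mpr hcU) hV
      have hi := hintC _ _ (fun ρ => ρU + ρ) hV0
      have h2 := one_var a ω hωa ξ (θ ^ 2 / 64 * (r * D)) (C (coeff ρU U) * V) hne
        (fun ρ hρ => hVs ρ (hsubC _ _ hρ)) hi (by
          rw [hshiftC]
          exact hfilV.of_support_subset (hsubC _ _))
      have h3 : len (C (coeff ρU U) * V) ≤ Real.exp ((n + 3) * ε * (r * D)) :=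
        (len_le_of_injOn _ (U * V) (fun ρ => ρU + ρ) (add_right_injective ρU).injOn
          fun ρ hρ => hV0 ρ (hsubC _ _ hρ)).trans hWlen
      have h4 : Real.log (len (C (coeff ρU U) * V)) ≤ (n + 3) * ε * (r * D) := by
        rw [Real.log_le_iff_le_exp (lt_of_lt_of_le one_pos (one_le_len hi hne))]
        exact h3
      have h5 := hξ a ha
      have h6 : θ ^ 2 / 64 * (r * D) * (γ * ω a) ≤ ω a * ((n + 3) * ε * (r * D)) :=
        le_trans (mul_le_mul_of_nonneg_left h5 (by positivity))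
          (h2.trans (mul_le_mul_of_nonneg_left h4 hωa.le))
      have h7 : ω a * ((n + 3) * ε * (r * D)) ≤ ω a * (θ ^ 2 / 64 * γ / 2 * (r * D)) :=
        mul_le_mul_of_nonneg_left (mul_le_mul_of_nonneg_right hε2 hD'.le) hωa.le
      have h8 : 0 < θ ^ 2 / 64 * (r * D) * (γ * ω a) := by positivity
      nlinarith
    unfold InFil at hnotU hnotV
    push Not at hnotU hnotV
    obtain ⟨μ1, hμ1, hw1⟩ := hnotU
    obtain ⟨ν1, hν1, hw2⟩ := hnotV
    have hsU := roth_shift_supp a ξ U (fun ρ hρ => hUs ρ hρ a hanot)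
    have hsV : ∀ ρ ∈ (shift ξ V).support, ∀ b, b ≠ a → ρ b = 0 := fun ρ hρ b hb =>
      roth_shift_supp b ξ V (fun ρ hρ => hVs ρ hρ b hb) ρ hρ
    have hmem : μ1 + ν1 ∈ (shift ξ Wm.det).support := by
      rw [hW, map_mul, mem_support_iff, roth_eq_single a ν1 (hsV ν1 hν1),
        coeff_mul_disjoint a _ _ hsU hsV μ1 (hsU μ1 hμ1), ← roth_eq_single a ν1 (hsV ν1 hν1)]
      exact mul_ne_zero (mem_support_iff.mp hμ1) (mem_support_iff.mp hν1)
    have hlow : InFil ω (∑ j, max 0 (θ * D - ε * D - (ν j a : ℝ) * ω a)) (shift ξ Wm.det) := by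
      rw [AlgHom.map_det]
      refine inFil_det _ _ fun i j => ?_
      have h2 := inFil_shift_hd hω ξ hfil (μ i + Finsupp.single a (ν j a))
      have h3 : Finsupp.weight ω (μ i) ≤ ε * D := by
        rw [Finsupp.weight_eq_sum]
        calc ∑ b, μ i b • ω b ≤ ∑ b, (μ i b : ℝ) * (ε * ω a) := by
              refine Finset.sum_le_sum fun b _ => ?_
              rw [nsmul_eq_mul]
              by_cases hb : b ∈ s.erase a
              · exact mul_le_mul_of_nonneg_left (hsmall b hb) (Nat.cast_nonneg _)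
              · rw [hμs i b hb, Nat.cast_zero, zero_mul, zero_mul]
          _ = ((μ i).degree : ℝ) * (ε * ω a) := by
              rw [← Finset.sum_mul, Finsupp.degree_eq_sum, Nat.cast_sum]
          _ ≤ ((r : ℝ) - 1) * (ε * ω a) := by
              refine mul_le_mul_of_nonneg_right ?_ (by positivity)
              have : (((μ i).degree + 1 : ℕ) : ℝ) ≤ r := by exact_mod_cast hμdeg i
              push_cast at this
              linarith
          _ ≤ ε * D := by nlinarith
      rw [map_add, Finsupp.weight_single, nsmul_eq_mul] at h2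
      have h4 : InFil ω (θ * D - ε * D - (ν j a : ℝ) * ω a)
          (shift ξ (hd (μ i + Finsupp.single a (ν j a)) P)) := h2.mono (by linarith)
      intro ρ hρ
      exact max_le (inFil_of_nonpos hω le_rfl _ ρ hρ) (h4 ρ hρ)
    have h2 := hlow _ hmem
    have h3 := roth_sum_lower r hr1 θ D (ω a) ε hθ hθ1 hD hωa.le hrD hε3 (fun j => ν j a) hk hkinj
    rw [map_add] at h2
    linarith

theorem roth {σ : Type*} [Fintype σ] (n : ℕ) (θ γ : ℝ) (hθ : 0 < θ) (hγ : 0 < γ) :
    ∃ ε : ℝ, 0 < ε ∧ ∀ (s : Finset σ), s.card = n → ∀ (ω : σ → ℝ), (∀ a, 0 ≤ ω a) →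
      (∀ a ∈ s, 1 ≤ ε * ω a) →
      (∀ a ∈ s, ∀ b ∈ s, a ≠ b → ω a ≤ ε * ω b ∨ ω b ≤ ε * ω a) →
      ∀ (ξ : σ → ℚ), (∀ a ∈ s, γ * ω a ≤ Real.log (ξ a).den) →
      ∀ (D : ℝ), 0 < D → ∀ (P : MvPolynomial σ ℚ), P ≠ 0 → IsInt P →
      (∀ μ ∈ P.support, ∀ a, a ∉ s → μ a = 0) →
      (∀ μ ∈ P.support, ∀ a, ω a * μ a ≤ D) →
      len P ≤ Real.exp (ε * D) → ¬ InFil ω (θ * D) (shift ξ P) := by
  obtain ⟨ε, hε, h⟩ := roth_aux (σ := σ) γ hγ n (min θ 1) (lt_min hθ one_pos) (min_le_right _ _)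
  refine ⟨ε, hε, ?_⟩
  intro s hs ω hω h1 hsep ξ hξ D hD P hP0 hint hsupp hdeg hlen hfil
  exact h s hs ω hω h1 hsep ξ hξ D hD P hP0 hint hsupp hdeg hlen
    (hfil.mono (mul_le_mul_of_nonneg_right (min_le_left _ _) hD.le))

end Pool.Agent.Lib.Common.Subspace
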