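import Pool.Agent.Lib.Common.Subspace.Main

/-! Sums of `{2, a}`-units and one almost unit that are 2-adically small vanish. -/

namespace Pool.Agent.Lib.Common.Subspace

open Finset Filter Matrix

theorem sunit_pow (p : ℕ) (hp : p.Prime) (x : ℚ) (k : ℕ) :
    padicNorm p (x ^ k) = padicNorm p x ^ k := by
  have := Fact.mk hp
  induction k with
  | zero => simp
  | succ k ih => rw [pow_succ, padicNorm.mul, ih, pow_succ]

theorem sunit_prod_self (a : ℕ) (ha : a ≠ 0) :
    ∏ p ∈ a.primeFactors, padicNorm p (a : ℚ) = (a : ℚ)⁻¹ := by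
  have h1 : (a : ℚ) = ∏ p ∈ a.primeFactors, (p : ℚ) ^ a.factorization p := by
    have := Nat.prod_primeFactors_pow_factorization ha
    exact_mod_cast this
  have h2 : ∀ p ∈ a.primeFactors, padicNorm p (a : ℚ) = ((p : ℚ) ^ a.factorization p)⁻¹ := by
    intro p hp
    rw [padicNorm.eq_zpow_of_nonzero (by exact_mod_cast ha), padicValRat.of_nat,
      Nat.factorization_def a (Nat.prime_of_mem_primeFactors hp), _root_.zpow_neg, zpow_natCast]
  rw [prod_congr rfl h2, prod_inv_distrib, ← h1]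

theorem sunit_prod_two (a : ℕ) (ha : Odd a) :
    ∏ p ∈ a.primeFactors, padicNorm p (2 : ℚ) = 1 := by
  refine prod_eq_one fun p hp => ?_
  have hpp := Nat.prime_of_mem_primeFactors hp
  have := Fact.mk hpp
  have h : ¬ p ∣ 2 := by
    intro h
    have h2 : p = 2 := (Nat.prime_dvd_prime_iff_eq hpp Nat.prime_two).mp h
    exact ha.not_two_dvd_nat (h2 ▸ Nat.dvd_of_mem_primeFactors hp)
  exact_mod_cast (padicNorm.nat_eq_one_iff (p := p) 2).mpr h

/-- Product formula for a `{2, a}`-unit. -/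
theorem sunit_unit (a : ℕ) (ha : Odd a) (e b : ℕ) :
    |(((a : ℤ) ^ e * 2 ^ b : ℤ) : ℝ)| * ∏ p ∈ insert 2 a.primeFactors,
      ((padicNorm p (((a : ℤ) ^ e * 2 ^ b : ℤ) : ℚ) : ℚ) : ℝ) = 1 := by
  have ha0 : a ≠ 0 := ha.pos.ne'
  have h2 : 2 ∉ a.primeFactors := fun h => ha.not_two_dvd_nat (Nat.dvd_of_mem_primeFactors h)
  have hq : ∏ p ∈ insert 2 a.primeFactors, padicNorm p (((a : ℤ) ^ e * 2 ^ b : ℤ) : ℚ) =
      ((a : ℚ) ^ e * 2 ^ b)⁻¹ := by
    have h3 : ∀ p : ℕ, p.Prime → padicNorm p (((a : ℤ) ^ e * 2 ^ b : ℤ) : ℚ) =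
        padicNorm p a ^ e * padicNorm p 2 ^ b := by
      intro p hp
      have := Fact.mk hp
      push_cast
      rw [padicNorm.mul, sunit_pow p hp, sunit_pow p hp]
    have := Fact.mk Nat.prime_two
    have h4 : padicNorm 2 (a : ℚ) = 1 := (padicNorm.nat_eq_one_iff a).mpr ha.not_two_dvd_nat
    have h5 : padicNorm 2 (2 : ℚ) = 2⁻¹ := by
      exact_mod_cast padicNorm.padicNorm_p (p := 2) (by norm_num)
    rw [prod_insert h2, h3 2 Nat.prime_two,
      prod_congr rfl (fun p hp => h3 p (Nat.prime_of_mem_primeFactors hp)), prod_mul_distrib,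
      prod_pow, prod_pow, sunit_prod_self a ha0, sunit_prod_two a ha, h4, h5]
    simp only [one_pow, one_mul, mul_one, mul_inv, inv_pow]
    ring
  rw [← Rat.cast_prod, hq]
  have hpos : (0 : ℝ) < (a : ℝ) ^ e * 2 ^ b := by
    have : (0 : ℝ) < a := by exact_mod_cast ha.pos
    positivity
  push_cast
  rw [abs_of_pos hpos]
  exact mul_inv_cancel₀ hpos.ne'

/-- The odd places of the almost unit. -/
theorem sunit_almost (a : ℕ) (ha : Odd a) (A : ℕ) (u : ℤ) :
    |(((a : ℤ) ^ A * u : ℤ) : ℝ)| * ∏ p ∈ a.primeFactors,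
      ((padicNorm p (((a : ℤ) ^ A * u : ℤ) : ℚ) : ℚ) : ℝ) ≤ |(u : ℝ)| := by
  have ha0 : a ≠ 0 := ha.pos.ne'
  have hq : ∏ p ∈ a.primeFactors, padicNorm p (((a : ℤ) ^ A * u : ℤ) : ℚ) ≤ ((a : ℚ) ^ A)⁻¹ := by
    rw [← inv_pow, ← sunit_prod_self a ha0, ← prod_pow]
    refine prod_le_prod (fun p _ => padicNorm.nonneg _) fun p hp => ?_
    have hpp := Nat.prime_of_mem_primeFactors hp
    have := Fact.mk hpp
    push_cast
    rw [padicNorm.mul, sunit_pow p hpp]
    exact mul_le_of_le_one_right (pow_nonneg (padicNorm.nonneg _) _) (padicNorm.of_int u)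
  have hr : ((∏ p ∈ a.primeFactors, padicNorm p (((a : ℤ) ^ A * u : ℤ) : ℚ) : ℚ) : ℝ) ≤
      ((a : ℝ) ^ A)⁻¹ := by
    have h := (Rat.cast_le (K := ℝ)).mpr hq
    rwa [Rat.cast_inv, Rat.cast_pow, Rat.cast_natCast] at h
  rw [← Rat.cast_prod]
  have hpos : (0 : ℝ) < (a : ℝ) ^ A := by
    have : (0 : ℝ) < a := by exact_mod_cast ha.pos
    positivity
  refine (mul_le_mul_of_nonneg_left hr (abs_nonneg _)).trans (le_of_eq ?_)
  push_cast
  rw [abs_mul, abs_of_pos hpos]
  field_simp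

theorem sunit_size (a : ℕ) (ha : Odd a) (K : ℝ) (n A : ℕ) (hA : (A : ℝ) ≤ K * n) (u : ℝ)
    (hu : |u| ≤ 2 ^ n) :
    |(a : ℝ) ^ A * u| ≤ Real.exp ((K * Real.log a + Real.log 2) * n) := by
  have ha1 : (1 : ℝ) ≤ a := by exact_mod_cast ha.pos
  have hl : 0 ≤ Real.log a := Real.log_nonneg ha1
  have h1 : (a : ℝ) ^ A = Real.exp (A * Real.log a) := by
    rw [Real.exp_nat_mul, Real.exp_log (by linarith)]
  have h2 : (2 : ℝ) ^ n = Real.exp (n * Real.log 2) := by
    rw [Real.exp_nat_mul, Real.exp_log (by norm_num)]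
  have h3 : (K * Real.log a + Real.log 2) * n = K * n * Real.log a + n * Real.log 2 := by ring
  rw [abs_mul, abs_of_pos (by positivity), h3, Real.exp_add, h1, ← h2]
  exact mul_le_mul (Real.exp_le_exp.mpr (mul_le_mul_of_nonneg_right hA hl)) hu (abs_nonneg _)
    (Real.exp_pos _).le

theorem sunit_unit' (a : ℕ) (ha : Odd a) (c : ℤ) (e b : ℕ) :
    |((c * (a : ℤ) ^ e * 2 ^ b : ℤ) : ℝ)| * ∏ p ∈ insert 2 a.primeFactors,
      ((padicNorm p ((c * (a : ℤ) ^ e * 2 ^ b : ℤ) : ℚ) : ℚ) : ℝ) ≤ |(c : ℝ)| := by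
  have h1 : ∏ p ∈ insert 2 a.primeFactors,
      ((padicNorm p ((c * (a : ℤ) ^ e * 2 ^ b : ℤ) : ℚ) : ℚ) : ℝ) ≤
      ∏ p ∈ insert 2 a.primeFactors,
        ((padicNorm p (((a : ℤ) ^ e * 2 ^ b : ℤ) : ℚ) : ℚ) : ℝ) := by
    refine prod_le_prod (fun p _ => by exact_mod_cast padicNorm.nonneg _) fun p hp => ?_
    have hpp : p.Prime := by
      rcases mem_insert.mp hp with rfl | hp
      · exact Nat.prime_two
      · exact Nat.prime_of_mem_primeFactors hp
    have := Fact.mk hpp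
    rw [mul_assoc, Int.cast_mul, padicNorm.mul]
    exact_mod_cast mul_le_of_le_one_left (padicNorm.nonneg _) (padicNorm.of_int c)
  refine (mul_le_mul_of_nonneg_left h1 (abs_nonneg _)).trans (le_of_eq ?_)
  rw [mul_assoc c, Int.cast_mul, abs_mul, mul_assoc, sunit_unit a ha, mul_one]

/-- One application of the Subspace Theorem: a nontrivial linear relation between the terms. -/
theorem sunit_relation (a : ℕ) (ha : Odd a) {τ J : Type*} (U : Ultrafilter τ) (n : τ → ℕ)
    (hn : Tendsto n U atTop) (η K C : ℝ) (hη : 0 < η) (s : Finset J) (γ₀ : ℚ) (hγ : γ₀ ≠ 0)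
    (γ : J → ℚ) (u : τ → ℤ) (A : τ → ℕ) (k : τ → J → ℤ) (e b : τ → J → ℕ)
    (hu : ∀ᶠ t in U, |(u t : ℝ)| ≤ (2 : ℝ) ^ ((1 - η) * n t))
    (hA : ∀ᶠ t in U, (A t : ℝ) ≤ K * n t)
    (hk : ∀ ε : ℝ, 0 < ε → ∀ᶠ t in U, ∀ j ∈ s, |(k t j : ℝ)| ≤ (2 : ℝ) ^ (ε * n t))
    (he : ∀ᶠ t in U, ∀ j ∈ s, (e t j : ℝ) ≤ K * n t)
    (hb : ∀ᶠ t in U, ∀ j ∈ s, (b t j : ℝ) ≤ (1 - η) * n t)
    (hs : ∀ᶠ t in U, ((padicNorm 2 (γ₀ * (a : ℚ) ^ A t * u t +
      ∑ j ∈ s, γ j * (k t j * (a : ℚ) ^ e t j * 2 ^ b t j)) : ℚ) : ℝ) ≤ C / 2 ^ n t) :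
    ∃ w : Option s → ℤ, w ≠ 0 ∧ ∀ᶠ t in U, w none * ((a : ℤ) ^ A t * u t) +
      ∑ j : s, w (some j) * (k t j * (a : ℤ) ^ e t j * 2 ^ b t j) = 0 := by
  classical
  let g : Option s → ℚ := fun i => i.elim γ₀ (fun j => γ j)
  obtain ⟨d, hd⟩ := IsLocalization.exist_integer_multiples (nonZeroDivisors ℤ)
    (univ : Finset (Option s)) g
  choose c hc using fun i => hd i (mem_univ i)
  have hd0 : ((d : ℤ) : ℚ) ≠ 0 := by exact_mod_cast nonZeroDivisors.coe_ne_zero d
  have hc' : ∀ i, (c i : ℚ) = (d : ℤ) * g i := by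
    intro i
    have := hc i
    simpa using this
  let M : Matrix (Option s) (Option s) ℤ := (1 : Matrix (Option s) (Option s) ℤ).updateRow none c
  have hM : M.det ≠ 0 := by
    have h1 : c = ∑ k, c k • (1 : Matrix (Option s) (Option s) ℤ) k := by
      ext i
      simp [Finset.sum_apply, Matrix.one_apply]
    have h2 : M.det = c none := by
      simp only [M]
      rw [h1, det_updateRow_sum, det_one, ← h1, smul_eq_mul, mul_one]
    rw [h2]
    intro h0
    have h3 := hc' none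
    rw [h0] at h3
    exact mul_ne_zero hd0 hγ (by simpa [g] using h3.symm)
  let x : τ → Option s → ℤ := fun t i =>
    i.elim ((a : ℤ) ^ A t * u t) (fun j => k t j * (a : ℤ) ^ e t j * 2 ^ b t j)
  let L : ℕ → Matrix (Option s) (Option s) ℤ := fun p => if p = 2 then M else 1
  have h2 : 2 ∉ a.primeFactors := fun h => ha.not_two_dvd_nat (Nat.dvd_of_mem_primeFactors h)
  have hnr : Tendsto (fun t => (n t : ℝ)) U atTop := tendsto_natCast_atTop_atTop.comp hn
  have hl2 : 0 < Real.log 2 := Real.log_pos (by norm_num)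
  have hle : ∀ (m : ℕ) (y : ℝ), y ≤ (1 - η) * m → (2 : ℝ) ^ y ≤ 2 ^ m := by
    intro m y hy
    rw [← Real.rpow_natCast]
    refine Real.rpow_le_rpow_of_exponent_le (by norm_num) (hy.trans ?_)
    have : (0 : ℝ) ≤ η * m := by positivity
    linarith
  have key := subspace (ι := Option s) (insert 2 a.primeFactors)
    (fun p hp => by
      rcases mem_insert.mp hp with rfl | hp
      · exact Nat.prime_two
      · exact Nat.prime_of_mem_primeFactors hp)
    1 (by simp) L
    (fun p _ => by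
      simp only [L]
      split_ifs
      · exact hM
      · simp)
    U (fun t => (n t : ℝ)) hnr x (K * Real.log a + Real.log 2) (η * Real.log 2 / 4)
    (by positivity) ?_ ?_
  · obtain ⟨w, hw, hw'⟩ := key
    refine ⟨w, hw, hw'.mono fun t ht => ?_⟩
    simpa [dotProduct, Fintype.sum_option, x] using ht
  · filter_upwards [hu, hA, he, hb, hk η hη] with t hu hA he hb hk i
    cases i with
    | none =>
      simp only [x, Option.elim]
      push_cast
      exact sunit_size a ha K _ _ hA _ (hu.trans (hle _ _ le_rfl))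
    | some j =>
      simp only [x, Option.elim]
      push_cast
      rw [mul_comm (k t j : ℝ), mul_assoc]
      refine sunit_size a ha K _ _ (he j j.2) _ ?_
      rw [abs_mul, abs_of_pos (a := (2 : ℝ) ^ b t j) (by positivity), ← Real.rpow_natCast,
        ← Real.rpow_natCast]
      refine (mul_le_mul (hk j j.2) (Real.rpow_le_rpow_of_exponent_le (by norm_num) (hb j j.2))
        (by positivity) (by positivity)).trans (le_of_eq ?_)
      rw [← Real.rpow_add (by norm_num)]
      congr 1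
      ring
  · have hbig : ∀ᶠ t in U, C ≤ Real.exp (η * Real.log 2 / 2 * n t) :=
      (Real.tendsto_exp_atTop.comp (hnr.const_mul_atTop (by positivity))).eventually_ge_atTop C
    filter_upwards [hu, hs, hbig, hk (η / (4 * (s.card + 1))) (by positivity)] with t hu hs hbig hk
    rw [Finset.prod_comm (s := insert 2 a.primeFactors), ← prod_mul_distrib, Fintype.prod_option]
    have hsome : ∀ j : s, |((((1 : Matrix (Option s) (Option s) ℤ) *ᵥ x t) (some j) : ℤ) : ℝ)| *
        ∏ p ∈ insert 2 a.primeFactors,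
          ((padicNorm p (((L p *ᵥ x t) (some j) : ℤ) : ℚ) : ℚ) : ℝ) ≤
          (2 : ℝ) ^ (η / (4 * (s.card + 1)) * n t) := by
      intro j
      have h3 : ∀ p, (L p *ᵥ x t) (some j) = k t j * (a : ℤ) ^ e t j * 2 ^ b t j := by
        intro p
        have h4 : (L p *ᵥ x t) (some j) =
            ((1 : Matrix (Option s) (Option s) ℤ) *ᵥ x t) (some j) := by
          simp only [L]
          split_ifs
          · simp only [M, mulVec, updateRow_ne (Option.some_ne_none j)]
          · rfl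
        rw [h4, one_mulVec]
        rfl
      simp only [h3, one_mulVec]
      exact (sunit_unit' a ha _ _ _).trans (hk j j.2)
    have hsome' : ∏ j : s,
        (|((((1 : Matrix (Option s) (Option s) ℤ) *ᵥ x t) (some j) : ℤ) : ℝ)| *
        ∏ p ∈ insert 2 a.primeFactors,
          ((padicNorm p (((L p *ᵥ x t) (some j) : ℤ) : ℚ) : ℚ) : ℝ)) ≤
        Real.exp (η * Real.log 2 / 4 * n t) := by
      refine (prod_le_prod (fun j _ => mul_nonneg (abs_nonneg _) (prod_nonneg fun p _ => by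
        exact_mod_cast padicNorm.nonneg _)) fun j _ => hsome j).trans ?_
      rw [prod_const, card_univ, Fintype.card_coe, Real.rpow_def_of_pos (by norm_num),
        ← Real.exp_nat_mul, Real.exp_le_exp]
      have h3 : (s.card : ℝ) * (η / (4 * (s.card + 1))) ≤ η / 4 := by
        rw [mul_div_assoc', div_le_div_iff₀ (by positivity) (by norm_num)]
        nlinarith [(Nat.cast_nonneg s.card : (0 : ℝ) ≤ s.card)]
      have h4 : (0 : ℝ) ≤ Real.log 2 * n t := by positivity
      nlinarith [mul_le_mul_of_nonneg_right h3 h4]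
    refine (mul_le_mul_of_nonneg_left hsome' (mul_nonneg (abs_nonneg _) (prod_nonneg fun p _ => by
      exact_mod_cast padicNorm.nonneg _))).trans ?_
    rw [prod_insert h2, one_mulVec]
    have h5 : ∏ p ∈ a.primeFactors, ((padicNorm p (((L p *ᵥ x t) none : ℤ) : ℚ) : ℚ) : ℝ) =
        ∏ p ∈ a.primeFactors, ((padicNorm p (((a : ℤ) ^ A t * u t : ℤ) : ℚ) : ℚ) : ℝ) := by
      refine prod_congr rfl fun p hp => ?_
      have hp2 : p ≠ 2 := fun h => h2 (h ▸ hp)
      simp only [L, if_neg hp2, one_mulVec]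
      rfl
    have h6 : (((L 2 *ᵥ x t) none : ℤ) : ℚ) = (d : ℤ) * (γ₀ * (a : ℚ) ^ A t * u t +
        ∑ j ∈ s, γ j * (k t j * (a : ℚ) ^ e t j * 2 ^ b t j)) := by
      simp only [L, if_true, M, mulVec, updateRow_self, dotProduct, Fintype.sum_option, x,
        Option.elim]
      push_cast
      simp only [hc', g, Option.elim]
      rw [← sum_coe_sort s, mul_add, mul_sum]
      refine congrArg₂ _ (by ring) (sum_congr rfl fun j _ => by ring)
    have h7 : ((padicNorm 2 (((L 2 *ᵥ x t) none : ℤ) : ℚ) : ℚ) : ℝ) ≤ C / 2 ^ n t := by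
      have := Fact.mk Nat.prime_two
      refine le_trans ?_ hs
      rw [h6, padicNorm.mul]
      exact_mod_cast mul_le_of_le_one_left (padicNorm.nonneg _) (padicNorm.of_int _)
    have h8 := sunit_almost a ha (A t) (u t)
    have h9 : (0 : ℝ) ≤ ((padicNorm 2 (((L 2 *ᵥ x t) none : ℤ) : ℚ) : ℚ) : ℝ) := by
      exact_mod_cast padicNorm.nonneg _
    have h10 : (2 : ℝ) ^ ((1 - η) * n t) * (Real.exp (η * Real.log 2 / 2 * n t) / 2 ^ n t) *
        Real.exp (η * Real.log 2 / 4 * n t) = Real.exp (-(η * Real.log 2 / 4) * n t) := by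
      have h11 : (2 : ℝ) ^ n t = Real.exp (n t * Real.log 2) := by
        rw [Real.exp_nat_mul, Real.exp_log (by norm_num)]
      rw [Real.rpow_def_of_pos (by norm_num), h11, ← Real.exp_sub, ← Real.exp_add,
        ← Real.exp_add]
      refine congrArg Real.exp ?_
      ring
    rw [h5, ← h10]
    refine mul_le_mul_of_nonneg_right ?_ (Real.exp_pos _).le
    rw [mul_left_comm, mul_comm]
    refine mul_le_mul (h8.trans hu) (h7.trans ?_) h9 (by positivity)
    exact div_le_div_of_nonneg_right hbig (by positivity)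

theorem sunit_vanish (a : ℕ) (ha : Odd a) {τ J : Type*} (U : Ultrafilter τ) (n : τ → ℕ)
    (hn : Tendsto n U atTop) (η K C : ℝ) (hη : 0 < η) (s : Finset J) (γ₀ : ℚ) (γ : J → ℚ)
    (u : τ → ℤ) (A : τ → ℕ) (c : τ → J → ℤ) (e b : τ → J → ℕ)
    (hu : ∀ᶠ t in U, |(u t : ℝ)| ≤ (2 : ℝ) ^ ((1 - η) * n t))
    (hA : ∀ᶠ t in U, (A t : ℝ) ≤ K * n t)
    (hc : ∀ ε : ℝ, 0 < ε → ∀ᶠ t in U, ∀ j ∈ s, |(c t j : ℝ)| ≤ (2 : ℝ) ^ (ε * n t))
    (he : ∀ᶠ t in U, ∀ j ∈ s, (e t j : ℝ) ≤ K * n t)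
    (hb : ∀ᶠ t in U, ∀ j ∈ s, (b t j : ℝ) ≤ (1 - η) * n t)
    (hs : ∀ᶠ t in U, ((padicNorm 2 (γ₀ * (a : ℚ) ^ A t * u t +
      ∑ j ∈ s, γ j * (c t j * (a : ℚ) ^ e t j * 2 ^ b t j)) : ℚ) : ℝ) ≤ C / 2 ^ n t) :
    ∀ᶠ t in U, γ₀ * (a : ℚ) ^ A t * u t +
      ∑ j ∈ s, γ j * (c t j * (a : ℚ) ^ e t j * 2 ^ b t j) = 0 := by
  classical
  induction hm : s.card using Nat.strong_induction_on generalizing η s γ₀ γ u A with
  | _ m ih =>
  have hsub : ∀ j, ∀ {P : τ → J → Prop}, (∀ᶠ t in U, ∀ i ∈ s, P t i) →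
      ∀ᶠ t in U, ∀ i ∈ s.erase j, P t i :=
    fun j _ h => h.mono fun t ht i hi => ht i (mem_of_mem_erase hi)
  by_cases h0 : ∀ᶠ t in U, γ₀ * (a : ℚ) ^ A t * u t = 0
  · rcases s.eq_empty_or_nonempty with rfl | ⟨j, hj⟩
    · exact h0.mono fun t ht => by rw [ht]; simp
    · have heq : ∀ᶠ t in U, γ₀ * (a : ℚ) ^ A t * u t +
          ∑ j ∈ s, γ j * (c t j * (a : ℚ) ^ e t j * 2 ^ b t j) =
          γ j * (a : ℚ) ^ e t j * ((c t j * 2 ^ b t j : ℤ) : ℚ) +
          ∑ i ∈ s.erase j, γ i * (c t i * (a : ℚ) ^ e t i * 2 ^ b t i) := by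
        filter_upwards [h0] with t ht
        rw [ht, zero_add, ← add_sum_erase s _ hj]
        push_cast
        ring
      have := ih _ (hm ▸ card_erase_lt_of_mem hj) (η / 2) (by positivity) (s.erase j) (γ j) γ
        (fun t => c t j * 2 ^ b t j) (fun t => e t j) ?_ (he.mono fun t ht => ht j hj)
        (fun ε hε => hsub j (hc ε hε)) (hsub j he) (hsub j (hb.mono fun t ht i hi => by
          have h1 := ht i hi
          have h2 : (0 : ℝ) ≤ η * n t := by positivity
          linarith)) ?_ rfl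
      · filter_upwards [heq, this] with t h1 h2
        rw [h1, h2]
      · filter_upwards [hb, hc (η / 2) (by positivity)] with t ht ht'
        push_cast
        rw [abs_mul, abs_of_pos (a := (2 : ℝ) ^ b t j) (by positivity), ← Real.rpow_natCast]
        refine (mul_le_mul (ht' j hj) (Real.rpow_le_rpow_of_exponent_le (by norm_num) (ht j hj))
          (by positivity) (by positivity)).trans (le_of_eq ?_)
        rw [← Real.rpow_add (by norm_num)]
        congr 1
        ring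
      · filter_upwards [heq, hs] with t h1 h2
        rwa [h1] at h2
  · have h1 : ∀ᶠ t in U, ¬ γ₀ * (a : ℚ) ^ A t * u t = 0 := Ultrafilter.eventually_not.mpr h0
    have hγ : γ₀ ≠ 0 := by
      rintro rfl
      exact h0 (Eventually.of_forall fun t => by simp)
    obtain ⟨w, hw, hrel⟩ := sunit_relation a ha U n hn η K C hη s γ₀ hγ γ u A c e b hu hA hc he hb
      hs
    have hex : ∃ j : s, w (some j) ≠ 0 := by
      by_contra hne
      push Not at hne
      have hn0 : w none ≠ 0 := by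
        intro hn0
        refine hw (funext fun i => ?_)
        cases i with
        | none => exact hn0
        | some j => exact hne j
      obtain ⟨t, h2, h3⟩ := (h1.and hrel).exists
      simp only [hne, zero_mul, sum_const_zero, add_zero] at h3
      have h4 : (((a : ℤ) ^ A t * u t : ℤ) : ℚ) = 0 := by
        exact_mod_cast (mul_eq_zero.mp h3).resolve_left hn0
      push_cast at h4
      exact h2 (by rw [mul_assoc, h4, mul_zero])
    obtain ⟨⟨j, hj⟩, hwj⟩ := hex
    let w' : J → ℚ := fun i => if h : i ∈ s then w (some ⟨i, h⟩) else 0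
    have hwj' : w' j ≠ 0 := by
      simp only [w', dif_pos hj]
      exact_mod_cast hwj
    have heq : ∀ᶠ t in U, γ₀ * (a : ℚ) ^ A t * u t +
        ∑ j ∈ s, γ j * (c t j * (a : ℚ) ^ e t j * 2 ^ b t j) =
        (γ₀ - γ j / w' j * w none) * (a : ℚ) ^ A t * u t +
        ∑ i ∈ s.erase j, (γ i - γ j / w' j * w' i) * (c t i * (a : ℚ) ^ e t i * 2 ^ b t i) := by
      filter_upwards [hrel] with t ht
      have h2 : (w none : ℚ) * ((a : ℚ) ^ A t * u t) +
          ∑ i ∈ s, w' i * (c t i * (a : ℚ) ^ e t i * 2 ^ b t i) = 0 := by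
        rw [← sum_coe_sort s]
        have h3 := congrArg (Int.cast : ℤ → ℚ) ht
        push_cast at h3
        rw [← h3]
        refine congrArg _ (sum_congr rfl fun i _ => ?_)
        simp only [w', dif_pos i.2]
      have h4 : ∑ i ∈ s.erase j, (γ i - γ j / w' j * w' i) * (c t i * (a : ℚ) ^ e t i * 2 ^ b t i) =
          ∑ i ∈ s, (γ i - γ j / w' j * w' i) * (c t i * (a : ℚ) ^ e t i * 2 ^ b t i) := by
        refine sum_erase s ?_
        rw [div_mul_cancel₀ _ hwj', sub_self, zero_mul]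
      have h5 : ∑ i ∈ s, (γ i - γ j / w' j * w' i) * (c t i * (a : ℚ) ^ e t i * 2 ^ b t i) =
          ∑ i ∈ s, γ i * (c t i * (a : ℚ) ^ e t i * 2 ^ b t i) -
          γ j / w' j * ∑ i ∈ s, w' i * (c t i * (a : ℚ) ^ e t i * 2 ^ b t i) := by
        rw [mul_sum, ← sum_sub_distrib]
        exact sum_congr rfl fun i _ => by ring
      rw [h4, h5]
      linear_combination (γ j / w' j) * h2
    have := ih _ (hm ▸ card_erase_lt_of_mem hj) η hη (s.erase j) (γ₀ - γ j / w' j * w none)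
      (fun i => γ i - γ j / w' j * w' i) u A hu hA (fun ε hε => hsub j (hc ε hε)) (hsub j he)
      (hsub j hb) ?_ rfl
    · filter_upwards [heq, this] with t h1 h2
      rw [h1, h2]
    · filter_upwards [heq, hs] with t h1 h2
      rwa [h1] at h2

end Pool.Agent.Lib.Common.Subspace
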