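import Pool.Agent.Lib.Common.Subspace.Main

/-! The Subspace Theorem with exceptional hyperplanes independent of the set of places. -/

namespace Pool.Agent.Lib.Common.Subspace

open Finset Matrix Filter Topology

theorem penult_gen {Pl κ : Type*} [Fintype Pl] [Fintype κ] [DecidableEq κ]
    (v : Pl → AbsoluteValue ℚ ℝ) (hv : Places v) (M : Pl → Matrix κ κ ℤ)
    (hM : ∀ p, (M p).det ≠ 0) {τ : Type*} (U : Ultrafilter τ) (q : τ → ℝ)
    (hq : Tendsto q U atTop) (b : τ → Pl → κ → ℝ) (Γ δ : ℝ) (hδ : 0 < δ)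
    (hb : ∀ᶠ t in U, ∀ p j, |b t p j| ≤ Γ * q t)
    (hsum : ∀ᶠ t in U, ∑ p, ∑ j, b t p j ≤ -δ * q t)
    (Y : τ → Matrix κ κ ℤ) (j₀ : κ) (hY : ∀ᶠ t in U, (Y t).det ≠ 0)
    (hbd : ∀ᶠ t in U, ∀ p i j, i ≠ j₀ →
      v p (((M p *ᵥ Y t i) j : ℤ) : ℚ) ≤ Real.exp (b t p j)) :
    ∃ w₀ : κ → ℤ, w₀ ≠ 0 ∧ ∀ w' : κ → ℤ,
      (∀ p j, (w' ᵥ* (M p).adjugate) j ≠ 0 → (w₀ ᵥ* (M p).adjugate) j ≠ 0) →
      ∀ᶠ t in U, ∀ i, i ≠ j₀ → w' ⬝ᵥ Y t i = 0 := by
  classical
  have : Nonempty κ := ⟨j₀⟩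
  have hq0 : ∀ᶠ t in U, 0 < q t := hq.eventually (eventually_gt_atTop 0)
  have hN : (0 : ℝ) < Fintype.card κ := by exact_mod_cast Fintype.card_pos
  have hs : (0 : ℝ) < Fintype.card Pl := by
    rcases isEmpty_or_nonempty Pl with hE | hE
    · obtain ⟨t, h1, h2⟩ := (hq0.and hsum).exists
      rw [univ_eq_empty, sum_empty] at h2
      nlinarith
    · exact_mod_cast Fintype.card_pos
  choose g w hgw using fun t => penult_prim (Y t) j₀
  have hα : ∀ t, ∃ α, ∀ l, |w t l| ≤ |w t α| := fun t => by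
    obtain ⟨α, -, h⟩ := exists_max_image univ (fun l => |w t l|) univ_nonempty
    exact ⟨α, fun l => h l (mem_univ _)⟩
  choose α hα using hα
  have hwα : ∀ t, (Y t).det ≠ 0 → w t (α t) ≠ 0 := fun t ht h0 => by
    have h1 : ∀ l, w t l = 0 := fun l => by simpa [h0] using hα t l
    have h2 := (hgw t ht).2.2.1
    rw [(Finset.gcd_eq_zero_iff).mpr fun l _ => h1 l] at h2
    exact zero_ne_one h2
  set d2 := δ / (2 * Fintype.card Pl) with hd2
  have hd20 : 0 < d2 := by positivity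
  rcases U.eventually_or.mp (Eventually.of_forall fun t =>
    le_or_gt |(w t (α t) : ℝ)| (Real.exp (d2 * q t))) with hA | hB
  · obtain ⟨Z, hZ⟩ := penult_const U fun t => fun p j => decide ((w t ᵥ* (M p).adjugate) j ≠ 0)
    obtain ⟨t₀, ht₀, hZ₀⟩ := (hY.and hZ).exists
    refine ⟨w t₀, fun h0 => hwα t₀ ht₀ (by rw [h0]; rfl), fun w' hw' => ?_⟩
    set B : ℝ := 1 + ∑ p, ∑ l, ∑ j, |((M p).adjugate l j : ℝ)| with hB
    have hB0 : 0 < B := by positivity
    have hBle : ∀ p j, ∑ l, |((M p).adjugate l j : ℝ)| ≤ B := fun p j => by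
      have h1 : ∑ l, |((M p).adjugate l j : ℝ)| ≤ ∑ l, ∑ j, |((M p).adjugate l j : ℝ)| :=
        sum_le_sum fun l _ => single_le_sum (f := fun j => |((M p).adjugate l j : ℝ)|)
          (fun _ _ => abs_nonneg _) (mem_univ j)
      have h2 : ∑ l, ∑ j, |((M p).adjugate l j : ℝ)| ≤
          ∑ p, ∑ l, ∑ j, |((M p).adjugate l j : ℝ)| :=
        single_le_sum (f := fun p => ∑ l, ∑ j, |((M p).adjugate l j : ℝ)|)
          (fun _ _ => by positivity) (mem_univ p)
      linarith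
    set K : Pl → ℝ := fun p => |((M p).det : ℝ)| * Fintype.card κ *
      (∑ j, |(((w' ᵥ* (M p).adjugate) j : ℤ) : ℝ)|) * ((Fintype.card κ).factorial * B) with hK
    have hsmall : ∀ᶠ t in U, (∏ p, K p) * Real.exp (-(δ / 2) * q t) < 1 := by
      have h1 : Tendsto (fun t => (∏ p, K p) * Real.exp (-(δ / 2) * q t)) U
          (𝓝 ((∏ p, K p) * 0)) :=
        Tendsto.const_mul _ (Real.tendsto_exp_atBot.comp
          (hq.const_mul_atTop_of_neg (by linarith)))
      rw [mul_zero] at h1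
      exact h1.eventually (gt_mem_nhds one_pos)
    filter_upwards [hY, hZ, hA, hbd, hsum, hsmall] with t ht hZt hAt hbt hst hsm i hi
    by_contra hne
    obtain ⟨hg0, hadj, -, -⟩ := hgw t ht
    have hp : ∀ p, v p (g t) * v p ((w' ⬝ᵥ Y t i : ℤ) : ℚ) ≤
        K p * Real.exp (d2 * q t + ∑ l, b t p l) := fun p => by
      obtain ⟨j, hj, hle⟩ := penult_pick (v p) (M p) (hM p) (b t p) w' (Y t i) hne
        fun j => hbt p i j hi
      have hj' : (w t ᵥ* (M p).adjugate) j ≠ 0 := by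
        have h1 := congrFun (congrFun (hZt.trans hZ₀.symm) p) j
        simpa [hw' p j hj] using h1
      have h2 := penult_minor (v p) (M p) (Y t) j₀ (b t p) hadj (fun i j hi => hbt p i j hi) j
      have h3 := hv.2.1 p _ hj'
      have h4 := hv.2.1 p _ (hM p)
      have h5 : |(((w t ᵥ* (M p).adjugate) j : ℤ) : ℝ)| ≤ B * Real.exp (d2 * q t) := by
        rw [vecMul, dotProduct, Int.cast_sum]
        refine (abs_sum_le_sum_abs _ _).trans ?_
        refine le_trans ?_ (mul_le_mul_of_nonneg_right (hBle p j) (Real.exp_pos _).le)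
        rw [sum_mul]
        refine sum_le_sum fun l _ => ?_
        rw [Int.cast_mul, abs_mul, mul_comm]
        refine mul_le_mul_of_nonneg_left (le_trans ?_ hAt) (abs_nonneg _)
        exact_mod_cast hα t l
      have h6 : v p (((w' ᵥ* (M p).adjugate) j : ℤ) : ℚ) ≤
          ∑ j, |(((w' ᵥ* (M p).adjugate) j : ℤ) : ℝ)| :=
        (hv.1 p _).trans (single_le_sum
          (f := fun j => |(((w' ᵥ* (M p).adjugate) j : ℤ) : ℝ)|)
          (fun _ _ => abs_nonneg _) (mem_univ j))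
      have ha0 := (v p).nonneg ((w' ⬝ᵥ Y t i : ℤ) : ℚ)
      have hg1 := (v p).nonneg (g t : ℚ)
      have h7 : v p ((w' ⬝ᵥ Y t i : ℤ) : ℚ) ≤ |((M p).det : ℝ)| * (Fintype.card κ *
          ((∑ j, |(((w' ᵥ* (M p).adjugate) j : ℤ) : ℝ)|) * Real.exp (b t p j))) := by
        calc _ ≤ (v p (M p).det * |((M p).det : ℝ)|) * v p ((w' ⬝ᵥ Y t i : ℤ) : ℚ) :=
              le_mul_of_one_le_left ha0 h4
          _ = |((M p).det : ℝ)| * (v p (M p).det * v p ((w' ⬝ᵥ Y t i : ℤ) : ℚ)) := by ring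
          _ ≤ _ := by
              refine mul_le_mul_of_nonneg_left (hle.trans ?_) (abs_nonneg _)
              gcongr
      have h8 : v p (g t) ≤ (B * Real.exp (d2 * q t)) * ((Fintype.card κ).factorial *
          (Real.exp (-b t p j) * Real.exp (∑ l, b t p l))) := by
        calc _ ≤ (v p (((w t ᵥ* (M p).adjugate) j : ℤ) : ℚ) *
              |(((w t ᵥ* (M p).adjugate) j : ℤ) : ℝ)|) * v p (g t) :=
              le_mul_of_one_le_left hg1 h3
          _ = |(((w t ᵥ* (M p).adjugate) j : ℤ) : ℝ)| *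
              (v p (g t) * v p (((w t ᵥ* (M p).adjugate) j : ℤ) : ℚ)) := by ring
          _ ≤ _ := mul_le_mul h5 h2 (mul_nonneg hg1 ((v p).nonneg _))
              (mul_pos hB0 (Real.exp_pos _)).le
      refine (mul_le_mul h8 h7 ha0 (hg1.trans h8)).trans (le_of_eq ?_)
      have h9 : Real.exp (-b t p j) * Real.exp (b t p j) = 1 := by
        rw [← Real.exp_add]; simp
      rw [Real.exp_add, hK]
      linear_combination (B * Real.exp (d2 * q t) * (Fintype.card κ).factorial *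
        Real.exp (∑ l, b t p l) * |((M p).det : ℝ)| * Fintype.card κ *
        (∑ j, |(((w' ᵥ* (M p).adjugate) j : ℤ) : ℝ)|)) * h9
    have h1 : (1 : ℝ) ≤ ∏ p, v p (g t) * v p ((w' ⬝ᵥ Y t i : ℤ) : ℚ) := by
      rw [prod_mul_distrib]
      exact one_le_mul_of_one_le_of_one_le (hv.2.2 _ hg0) (hv.2.2 _ hne)
    have h2 : ∏ p, v p (g t) * v p ((w' ⬝ᵥ Y t i : ℤ) : ℚ) ≤
        ∏ p, K p * Real.exp (d2 * q t + ∑ l, b t p l) :=
      prod_le_prod (fun p _ => mul_nonneg ((v p).nonneg _) ((v p).nonneg _)) fun p _ => hp p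
    rw [prod_mul_distrib (f := K), ← Real.exp_sum, sum_add_distrib, sum_const, card_univ,
      nsmul_eq_mul] at h2
    have h3 : (Fintype.card Pl : ℝ) * (d2 * q t) = δ / 2 * q t := by rw [hd2]; field_simp
    have h4 : (∏ p, K p) * Real.exp (Fintype.card Pl * (d2 * q t) + ∑ p, ∑ l, b t p l) ≤
        (∏ p, K p) * Real.exp (-(δ / 2) * q t) := by
      refine mul_le_mul_of_nonneg_left (Real.exp_le_exp.mpr (by linarith)) ?_
      exact prod_nonneg fun p _ => mul_nonneg (mul_nonneg (mul_nonneg (abs_nonneg _) hN.le)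
        (sum_nonneg fun _ _ => abs_nonneg _)) (mul_nonneg (Nat.cast_nonneg _) hB0.le)
    linarith
  · exfalso
    have hβ : ∀ t, ∃ β, ∀ l, ((w t l : ℚ) / w t (α t)).den ≤ ((w t β : ℚ) / w t (α t)).den :=
      fun t => by
        obtain ⟨β, -, h⟩ := exists_max_image univ (fun l => ((w t l : ℚ) / w t (α t)).den)
          univ_nonempty
        exact ⟨β, fun l => h l (mem_univ _)⟩
    choose β hβ using hβ
    obtain ⟨α₀, hα₀⟩ := penult_const U α
    obtain ⟨β₀, hβ₀⟩ := penult_const U β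
    have hden : ∀ᶠ t in U, d2 / Fintype.card κ * q t ≤
        Real.log ((w t β₀ : ℚ) / w t α₀).den := by
      filter_upwards [hY, hB, hα₀, hβ₀] with t ht hBt h1 h2
      have h3 := hBt.le.trans (penult_den (hgw t ht).2.2.1 (hwα t ht) (hβ t))
      rw [h1, h2] at h3
      have h4 := Real.log_le_log (Real.exp_pos _) h3
      rw [Real.log_exp, Real.log_pow] at h4
      rw [div_mul_eq_mul_div, div_le_iff₀' hN]
      exact h4
    have hαβ : α₀ ≠ β₀ := by
      rintro rfl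
      obtain ⟨t, h1, h2, h3, h4⟩ := (hden.and (hY.and (hα₀.and hq0))).exists
      have h5 : (w t α₀ : ℚ) ≠ 0 := by rw [← h3]; exact_mod_cast hwα t h2
      rw [div_self h5] at h1
      have : 0 < d2 / Fintype.card κ * q t := by positivity
      simp only [Rat.den_ofNat, Nat.cast_one, Real.log_one] at h1
      linarith
    have hc : ∀ p j, ∃ c : ℝ, Tendsto (fun t => b t p j / q t) U (𝓝 c) := fun p j => by
      have h1 : (↑(U.map fun t => b t p j / q t) : Filter ℝ) ≤ 𝓟 (Set.Icc (-Γ) Γ) := by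
        rw [le_principal_iff]
        refine mem_map.mpr ?_
        filter_upwards [hb, hq0] with t h1 h2
        have h3 : |b t p j / q t| ≤ Γ := by
          rw [abs_div, abs_of_pos h2, div_le_iff₀ h2]; exact h1 p j
        exact abs_le.mp h3
      obtain ⟨c, -, hc⟩ := isCompact_Icc.ultrafilter_le_nhds _ h1
      exact ⟨c, hc⟩
    choose c hc using hc
    set η := δ / (2 * Fintype.card Pl * Fintype.card κ) with hη
    have hη0 : 0 < η := by positivity
    have hcs : ∑ p, ∑ j, c p j ≤ -δ := by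
      have h1 : Tendsto (fun t => ∑ p, ∑ j, b t p j / q t) U (𝓝 (∑ p, ∑ j, c p j)) :=
        tendsto_finsetSum _ fun p _ => tendsto_finsetSum _ fun j _ => hc p j
      refine le_of_tendsto h1 ?_
      filter_upwards [hsum, hq0] with t h2 h3
      simp only [← sum_div]
      rwa [div_le_iff₀ h3]
    have hcs' : ∑ p, ∑ j, (c p j + η) ≤ -(δ / 2) := by
      simp only [sum_add_distrib, sum_const, card_univ, nsmul_eq_mul]
      have : (Fintype.card Pl : ℝ) * (Fintype.card κ * η) = δ / 2 := by rw [hη]; field_simp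
      linarith
    have hbc : ∀ᶠ t in U, ∀ p j, b t p j ≤ (c p j + η) * q t := by
      simp only [eventually_all]
      intro p j
      filter_upwards [(hc p j).eventually (gt_mem_nhds (lt_add_of_pos_right _ hη0)), hq0]
        with t h1 h2
      rw [div_lt_iff₀ h2] at h1
      exact h1.le
    obtain ⟨m, ε, hε, hcore⟩ := core v hv M hM (fun p j => c p j + η) (δ / 2) (by positivity) hcs'
      (d2 / Fintype.card κ) (by positivity) j₀ α₀ β₀ hαβ
    obtain ⟨t, hG, h1, h2⟩ := penult_seq (q := q) (fun R =>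
      ((hY.and (hα₀.and (hden.and (hbd.and hbc)))).and (hq.eventually_ge_atTop R)).exists) hε
    have hne : ∀ n, (w (t n) α₀ : ℚ) ≠ 0 := fun n => by
      rw [← (hG n).2.1]; exact_mod_cast hwα _ (hG n).1
    refine hcore (fun h => q (t h)) (fun h => Y (t h)) (fun h l => (w (t h) l : ℚ) / w (t h) α₀)
      (fun h => h1 h) (fun h h' hh => ?_) (fun h => (hG h).1) (fun h => div_self (hne h))
      (fun h i hi => ?_) (fun h => (hG h).2.2.1) fun h p i j hi => ?_
    · rcases lt_or_gt_of_ne hh with h3 | h3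
      · exact Or.inl (h2 _ _ h3)
      · exact Or.inr (h2 _ _ h3)
    · have h3 := (hgw _ (hG h).1).2.2.2 i hi
      have h4 : ∑ l, (w (t h) l : ℚ) * (Y (t h) i l : ℚ) = 0 := by
        rw [dotProduct] at h3
        exact_mod_cast h3
      simp only [div_mul_eq_mul_div, ← sum_div, h4, zero_div]
    · exact ((hG h).2.2.2.1 p i j hi).trans (Real.exp_le_exp.mpr ((hG h).2.2.2.2 p j))

/-- Finitely many representatives realise all vanishing patterns. -/
theorem exists_pattern_reps {κ : Type*} [Fintype κ] [DecidableEq κ]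
    (MM : Finset (Matrix κ κ ℤ)) :
    ∃ W : Finset (κ → ℤ), (∀ w ∈ W, w ≠ 0) ∧ ∀ w₀ : κ → ℤ, w₀ ≠ 0 → ∃ w ∈ W, ∀ M ∈ MM, ∀ j,
      (w ᵥ* M.adjugate) j ≠ 0 → (w₀ ᵥ* M.adjugate) j ≠ 0 := by
  classical
  let pat : {w : κ → ℤ // w ≠ 0} → (MM → κ → Bool) := fun w M j =>
    decide ((w.1 ᵥ* M.1.adjugate) j ≠ 0)
  have h : ∀ P : Set.range pat, ∃ w, pat w = P.1 := fun P => P.2
  choose r hr using h
  refine ⟨univ.image fun P => (r P).1, ?_, fun w₀ h0 => ?_⟩
  · intro w hw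
    obtain ⟨P, -, rfl⟩ := mem_image.1 hw
    exact (r P).2
  · refine ⟨(r ⟨pat ⟨w₀, h0⟩, ⟨_, rfl⟩⟩).1, mem_image_of_mem _ (mem_univ _), fun M hM j hj => ?_⟩
    have h1 := congrFun (congrFun (hr ⟨pat ⟨w₀, h0⟩, ⟨_, rfl⟩⟩) ⟨M, hM⟩) j
    simp only [pat, decide_eq_decide] at h1
    exact h1.1 hj

theorem wedge_gen {Pl : Type*} [Fintype Pl] [DecidableEq Pl] (v : Pl → AbsoluteValue ℚ ℝ)
    (hv : Places v) {n : ℕ} (N : Pl → Matrix (Fin n) (Fin n) ℤ) (hN : ∀ p, (N p).det ≠ 0)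
    (o : Pl) {τ : Type*} (U : Ultrafilter τ) (q : τ → ℝ) (hq : Tendsto q U atTop)
    (X : τ → Matrix (Fin n) (Fin n) ℤ) (β : τ → Pl → Fin n → ℝ) (δ c₀ : ℝ) (hδ : 0 < δ)
    (j₀ : Fin n) (hX : ∀ᶠ t in U, (X t).det ≠ 0) (hβ : ∀ p l, BQ U q (fun t => β t p l))
    (hsum : ∀ᶠ t in U, ∑ p, ∑ l, β t p l ≤ c₀)
    (hent : ∀ᶠ t in U, ∀ p i l, v p (((N p *ᵥ X t i) l : ℤ) : ℚ) ≤ Real.exp (β t p l))
    (hgap : ∀ᶠ t in U, ∀ i l, i < j₀ → j₀ ≤ l →
      v o (((N o *ᵥ X t i) l : ℤ) : ℚ) ≤ Real.exp (β t o l - δ * q t)) :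
    ∃ w₀ : PS n (n - j₀) → ℤ, w₀ ≠ 0 ∧ ∀ w' : PS n (n - j₀) → ℤ,
      (∀ p J, (w' ᵥ* (comp (n - j₀) (N p)).adjugate) J ≠ 0 →
        (w₀ ᵥ* (comp (n - j₀) (N p)).adjugate) J ≠ 0) →
      ∀ᶠ t in U, ∀ I, I ≠ (⟨Finset.Ici j₀, Fin.card_Ici j₀⟩ : PS n (n - j₀)) →
        w' ⬝ᵥ comp (n - j₀) (X t) I = 0 := by
  classical
  set k : ℕ := n - j₀ with hk
  have hk0 : 0 < k := by have := j₀.2; omega
  let top : PS n k := ⟨Finset.Ici j₀, Fin.card_Ici j₀⟩
  let b : τ → Pl → PS n k → ℝ := fun t p J =>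
    Real.log k.factorial + ∑ a, β t p (enum J a) - if p = o ∧ J = top then δ * q t else 0
  obtain ⟨c, hc⟩ := sum_sum_enum n k
  have hbq : ∀ pJ : Pl × PS n k, BQ U q (fun t => b t pJ.1 pJ.2) := by
    rintro ⟨p, J⟩
    refine ((bq_const hq _).add (bq_sum hq _ _ fun a _ => hβ p _)).sub ?_
    by_cases h : p = o ∧ J = top
    · simp only [if_pos h]; exact bq_mul_self hq δ
    · simp only [if_neg h]; exact bq_const hq 0
  obtain ⟨Γ, hΓ⟩ := bq_uniform hq _ hbq
  set c₁ : ℝ := Fintype.card Pl * (Fintype.card (PS n k) * Real.log k.factorial) + c * c₀ with hc₁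
  have hs : ∀ᶠ t in U, ∑ p, ∑ J, b t p J ≤ -(δ / 2) * q t := by
    filter_upwards [hsum, hq.eventually_ge_atTop (2 * c₁ / δ)] with t h1 h2
    have h3 : ∑ p, ∑ J, b t p J =
        Fintype.card Pl * (Fintype.card (PS n k) * Real.log k.factorial) +
          c * ∑ p, ∑ l, β t p l - δ * q t := by
      simp only [b, Finset.sum_sub_distrib, Finset.sum_add_distrib, hc, Finset.sum_const,
        card_univ, nsmul_eq_mul, ← Finset.mul_sum]
      congr 1
      rw [Finset.sum_eq_single o, Finset.sum_eq_single top] <;> simp +contextual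
    have h4 : (c : ℝ) * ∑ p, ∑ l, β t p l ≤ c * c₀ :=
      mul_le_mul_of_nonneg_left h1 (Nat.cast_nonneg c)
    have h5 : 2 * c₁ ≤ δ * q t := by rwa [div_le_iff₀ hδ, mul_comm (q t)] at h2
    rw [h3]
    linarith
  exact penult_gen v hv (fun p => comp k (N p))
    (fun p => det_comp_ne_zero k _ (hN p)) U q hq b Γ (δ / 2) (by positivity)
    (hΓ.mono fun t ht p J => ht (p, J)) hs (fun t => comp k (X t)) top
    (hX.mono fun t ht => det_comp_ne_zero k _ ht) (by
      filter_upwards [hent, hgap] with t h1 h2 p I J hI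
      rw [comp_mulVec]
      have hfac : (0 : ℝ) < k.factorial := by exact_mod_cast k.factorial_pos
      by_cases h : p = o ∧ J = top
      · obtain ⟨rfl, rfl⟩ := h
        have : ∃ l ∈ I.1, l ∉ top.1 := by
          by_contra hcon
          push Not at hcon
          exact hI (Subtype.ext (Finset.eq_of_subset_of_card_le hcon (by rw [I.2, top.2])))
        obtain ⟨l, hl, hl'⟩ := this
        obtain ⟨a₀, rfl⟩ := exists_enum_eq I hl
        have hlt : enum I a₀ < j₀ := by simpa [top] using hl'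
        refine (abv_int_det_le (v p) _ (fun a => if a = a₀ then Real.exp (-(δ * q t)) else 1)
          (fun a => Real.exp (β t p (enum top a))) ?_).trans (le_of_eq ?_)
        · intro a a'
          by_cases ha : a = a₀
          · subst ha
            have hm : j₀ ≤ enum top a' := by simpa [top] using enum_mem top a'
            simp only [if_true, of_apply, ← Real.exp_add]
            refine (h2 _ _ hlt hm).trans (le_of_eq ?_)
            congr 1; ring
          · simp only [if_neg ha, one_mul, of_apply]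
            exact h1 _ _ _
        · simp only [b, and_self, if_true, Finset.prod_ite_eq', mem_univ, Fintype.card_fin,
            ← Real.exp_sum]
          rw [Real.exp_sub, Real.exp_add, Real.exp_log hfac, Real.exp_neg]
          field_simp
      · refine (abv_int_det_le (v p) _ (fun _ => 1)
          (fun a => Real.exp (β t p (enum J a))) ?_).trans (le_of_eq ?_)
        · intro a a'
          simp only [one_mul, of_apply]
          exact h1 _ _ _
        · simp only [b, if_neg h, Finset.prod_const_one, Fintype.card_fin, ← Real.exp_sum,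
            sub_zero, one_mul]
          rw [Real.exp_add, Real.exp_log hfac])

theorem wedge_fin {n : ℕ} (MM : Finset (Matrix (Fin n) (Fin n) ℤ)) :
    ∃ W : Finset (Fin n → ℤ), (∀ w ∈ W, w ≠ 0) ∧
    ∀ {Pl : Type} [Fintype Pl] [DecidableEq Pl] (v : Pl → AbsoluteValue ℚ ℝ)
    (_ : Places v) (N : Pl → Matrix (Fin n) (Fin n) ℤ) (_ : ∀ p, (N p).det ≠ 0)
    (_ : ∀ p, N p ∈ MM)
    (o : Pl) {τ : Type} (U : Ultrafilter τ) (q : τ → ℝ) (_ : Tendsto q U atTop)
    (X : τ → Matrix (Fin n) (Fin n) ℤ) (β : τ → Pl → Fin n → ℝ) (δ c₀ : ℝ) (_ : 0 < δ)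
    (j₀ : Fin n) (_ : ∀ᶠ t in U, (X t).det ≠ 0) (_ : ∀ p l, BQ U q (fun t => β t p l))
    (_ : ∀ᶠ t in U, ∑ p, ∑ l, β t p l ≤ c₀)
    (_ : ∀ᶠ t in U, ∀ p i l, v p (((N p *ᵥ X t i) l : ℤ) : ℚ) ≤ Real.exp (β t p l))
    (_ : ∀ᶠ t in U, ∀ i l, i < j₀ → j₀ ≤ l →
      v o (((N o *ᵥ X t i) l : ℤ) : ℚ) ≤ Real.exp (β t o l - δ * q t)),
    ∃ w ∈ W, ∀ᶠ t in U, ∀ (y : Fin n → ℤ) (g : Fin n → ℚ),
      (∀ l, j₀ ≤ l → g l = 0) → (∀ j, (y j : ℚ) = ∑ l, g l * X t l j) → w ⬝ᵥ y = 0 := by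
  classical
  have hk0 : ∀ j₀ : Fin n, 0 < n - j₀ := fun j₀ => by have := j₀.2; omega
  choose W hW0 hW using fun j₀ : Fin n => exists_pattern_reps (MM.image (comp (n - j₀)))
  choose f hf0 hf using fun (j₀ : Fin n) (w : W j₀) =>
    exists_functional (hk0 j₀) w.1 (hW0 j₀ w.1 w.2)
  refine ⟨univ.biUnion fun j₀ => univ.image (f j₀), ?_, ?_⟩
  · intro w hw
    obtain ⟨j₀, -, hw⟩ := mem_biUnion.1 hw
    obtain ⟨w', -, rfl⟩ := mem_image.1 hw
    exact hf0 j₀ w'
  · intro Pl _ _ v hv N hN hNM o τ U q hq X β δ c₀ hδ j₀ hX hβ hsum hent hgap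
    obtain ⟨w₀, hw₀, h⟩ := wedge_gen v hv N hN o U q hq X β δ c₀ hδ j₀ hX hβ hsum hent hgap
    obtain ⟨w, hw, hpat⟩ := hW j₀ w₀ hw₀
    refine ⟨f j₀ ⟨w, hw⟩, mem_biUnion.2 ⟨j₀, mem_univ _, mem_image_of_mem _ (mem_univ _)⟩, ?_⟩
    filter_upwards [h w (fun p J => hpat _ (mem_image_of_mem _ (hNM p)) J), hX]
      with t h1 h2 y g hg hy
    exact hf j₀ ⟨w, hw⟩ (X t) h2 _ h1 y g (fun l hl => hg l (by simpa using hl)) hy

theorem subspace_fin_unif (n : ℕ) (LL : Finset (Matrix (Fin n) (Fin n) ℤ))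
    (hLL : ∀ M ∈ LL, M.det ≠ 0) :
    ∃ W : Finset (Fin n → ℤ), (∀ w ∈ W, w ≠ 0) ∧
    ∀ (S : Finset ℕ) (_ : ∀ p ∈ S, p.Prime)
    (L₀ : Matrix (Fin n) (Fin n) ℤ) (_ : L₀ ∈ LL) (L : ℕ → Matrix (Fin n) (Fin n) ℤ)
    (_ : ∀ p ∈ S, L p ∈ LL) {τ : Type} (U : Ultrafilter τ) (q : τ → ℝ)
    (_ : Tendsto q U atTop) (x : τ → Fin n → ℤ) (K δ : ℝ) (_ : 0 < δ)
    (_ : ∀ᶠ t in U, ∀ i, |(x t i : ℝ)| ≤ Real.exp (K * q t))
    (_ : ∀ᶠ t in U, (∏ i, |(((L₀ *ᵥ x t) i : ℤ) : ℝ)|) *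
      ∏ p ∈ S, ∏ i, ((padicNorm p (((L p *ᵥ x t) i : ℤ) : ℚ) : ℚ) : ℝ) ≤
        Real.exp (-δ * q t)),
    ∃ w ∈ W, ∀ᶠ t in U, w ⬝ᵥ x t = 0 := by
  classical
  obtain ⟨W, hW0, hW⟩ := wedge_fin
    ((LL ×ˢ (univ : Finset (Equiv.Perm (Fin n)))).image fun a => a.1.submatrix a.2 id)
  refine ⟨W ∪ (LL ×ˢ (univ : Finset (Fin n))).image fun a => a.1 a.2, ?_, ?_⟩
  · intro w hw
    rcases mem_union.1 hw with h | h
    · exact hW0 w h
    · obtain ⟨a, ha, rfl⟩ := mem_image.1 h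
      exact row_ne_zero (hLL _ (mem_product.1 ha).1) _
  intro S hS L₀ hL₀ L hLS τ U q hq x K δ hδ hx hprod
  have h₀ := hLL _ hL₀
  have hL : ∀ p ∈ S, (L p).det ≠ 0 := fun p hp => hLL _ (hLS p hp)
  by_contra hcon
  have hne : ∀ M ∈ LL, ∀ i, ∀ᶠ t in U, M i ⬝ᵥ x t ≠ 0 := fun M hM i =>
    Ultrafilter.eventually_not.2 fun h => hcon ⟨M i, mem_union_right _
      (mem_image.2 ⟨(M, i), mem_product.2 ⟨hM, mem_univ _⟩, rfl⟩), h⟩
  have hz0 : ∀ᶠ t in U, ∀ i, (L₀ *ᵥ x t) i ≠ 0 :=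
    eventually_all.2 fun i => hne _ hL₀ i
  have hz1 : ∀ᶠ t in U, ∀ k : S × Fin n, (L k.1 *ᵥ x t) k.2 ≠ 0 :=
    eventually_all.2 fun k => hne _ (hLS k.1 k.1.2) k.2
  obtain ⟨C, hC1, hmin⟩ := exists_minima n
  let A : τ → Fin n → ℝ := fun t i => max 1 |(((L₀ *ᵥ x t) i : ℤ) : ℝ)|
  have hA1 : ∀ t i, 1 ≤ A t i := fun t i => le_max_left _ _
  have hA0 : ∀ t i, 0 < A t i := fun t i => one_pos.trans_le (hA1 t i)
  let e : τ → S × Fin n → ℕ := fun t k => padicValInt k.1 ((L k.1 *ᵥ x t) k.2)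
  have hp0 : ∀ p : S, (0 : ℝ) < (p.1 : ℝ) := fun p => by exact_mod_cast (hS p.1 p.2).pos
  choose X lam π hX hdvd hlam hmono hbd hprodl hspan using fun t =>
    hmin (κ := S × Fin n) L₀ h₀ (A t) (hA0 t) (fun k => L k.1 k.2) (fun k => k.1.1 ^ e t k)
      (fun k => pow_pos (hS k.1.1 k.1.2).pos _)
  obtain ⟨π₀, hπ⟩ := ultra_const U π
  have hC0 : 0 < C := by linarith
  let N : Option S → Matrix (Fin n) (Fin n) ℤ := fun o =>
    match o with
    | none => L₀.submatrix π₀ id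
    | some p => L p
  have hN : ∀ o, (N o).det ≠ 0 := by
    rintro (_ | p)
    · simp only [N]
      rw [Matrix.det_permute]
      exact mul_ne_zero (by simp) h₀
    · exact hL p p.2
  have hNnone : ∀ (y : Fin n → ℤ) l, (N none *ᵥ y) l = (L₀ *ᵥ y) (π₀ l) := fun y l => rfl
  let β : τ → Option S → Fin n → ℝ := fun t o l =>
    match o with
    | none => Real.log C + Real.log (A t (π₀ l)) + Real.log (lam t l)
    | some p => -(e t (p, l) * Real.log p.1)
  have hexpβ : ∀ t l, Real.exp (β t none l) = C * A t (π₀ l) * lam t l := fun t l => by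
    simp only [β]
    rw [Real.exp_add, Real.exp_add, Real.exp_log hC0, Real.exp_log (hA0 t _),
      Real.exp_log (hlam t l)]
  have hent : ∀ᶠ t in U, ∀ o i l,
      place S hS o (((N o *ᵥ X t i) l : ℤ) : ℚ) ≤ Real.exp (β t o l) := by
    filter_upwards [hπ] with t ht
    rintro (_ | p) i l
    · rw [place_none, hNnone, hexpβ]
      have := hbd t i l
      rw [ht] at this
      exact this.trans (mul_le_mul_of_nonneg_left (min_le_right _ _)
        (mul_pos hC0 (hA0 t _)).le)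
    · rw [place_some]
      have h1 := hdvd t i (p, l)
      refine (padicNorm_le_of_dvd (hS p.1 p.2) (e := e t (p, l)) (by exact_mod_cast h1)).trans
        (le_of_eq ?_)
      simp only [β]
      rw [Real.exp_neg, ← Real.log_pow, Real.exp_log (pow_pos (hp0 p) _)]
  have hsumβ : ∀ t, ∑ o, ∑ l, β t o l = n * Real.log C + ∑ l, Real.log (lam t l) +
      (∑ l, Real.log (A t l) - ∑ k : S × Fin n, e t k * Real.log k.1.1) := by
    intro t
    rw [Fintype.sum_option, Fintype.sum_prod_type]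
    simp only [β, Finset.sum_add_distrib, Finset.sum_neg_distrib, Finset.sum_const, card_univ,
      Fintype.card_fin, nsmul_eq_mul]
    rw [Equiv.sum_comp π₀ (fun l => Real.log (A t l))]
    ring
  have hdet0 : (0 : ℝ) < |(L₀.det : ℝ)| := abs_pos.2 (by exact_mod_cast h₀)
  have hup : ∀ t, ∑ l, Real.log (lam t l) + ∑ l, Real.log (A t l) ≤
      Real.log (C * |(L₀.det : ℝ)|) + ∑ k : S × Fin n, e t k * Real.log k.1.1 := by
    intro t
    have h1 := Real.log_le_log (mul_pos (Finset.prod_pos fun i _ => hlam t i)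
      (Finset.prod_pos fun i _ => hA0 t i)) (hprodl t)
    rw [Real.log_mul (Finset.prod_pos fun i _ => hlam t i).ne'
      (Finset.prod_pos fun i _ => hA0 t i).ne', Real.log_prod (fun i _ => (hlam t i).ne'),
      Real.log_prod (fun i _ => (hA0 t i).ne'), Real.log_mul (mul_pos hC0 hdet0).ne'
        (Finset.prod_pos fun k _ => by push_cast; exact pow_pos (hp0 k.1) _).ne',
      Real.log_prod (fun k _ => by push_cast; exact (pow_pos (hp0 k.1) _).ne')] at h1
    simpa only [Nat.cast_pow, Real.log_pow] using h1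
  have hAeq : ∀ᶠ t in U, ∀ i, A t i = |(((L₀ *ᵥ x t) i : ℤ) : ℝ)| := by
    filter_upwards [hz0] with t ht i
    exact max_eq_right (by exact_mod_cast Int.one_le_abs (ht i))
  have hsmall : ∀ᶠ t in U,
      ∑ l, Real.log (A t l) - ∑ k : S × Fin n, e t k * Real.log k.1.1 ≤ -δ * q t := by
    filter_upwards [hprod, hAeq, hz1] with t h1 h2 h3
    rw [← Real.exp_le_exp]
    refine le_trans (le_of_eq ?_) h1
    rw [Real.exp_sub, Real.exp_sum, Real.exp_sum, div_eq_mul_inv, ← Finset.prod_inv_distrib,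
      Fintype.prod_prod_type, ← Finset.prod_coe_sort S]
    congr 1
    · exact Finset.prod_congr rfl fun i _ => by rw [Real.exp_log (hA0 t i), h2]
    · refine Finset.prod_congr rfl fun p _ => Finset.prod_congr rfl fun i _ => ?_
      rw [padicNorm_int_eq (hS p.1 p.2) (h3 (p, i)), ← Real.log_pow,
        Real.exp_log (pow_pos (hp0 p) _)]
  obtain ⟨c, hc⟩ := sum_lower (place S hS) (places_place S hS) N hN
  have hxmem : ∀ t (k : S × Fin n), ((k.1.1 ^ e t k : ℕ) : ℤ) ∣ L k.1 k.2 ⬝ᵥ x t := fun t k => by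
    push_cast; exact padicValInt_dvd _
  have hspan' : ∀ᶠ t in U, ∀ i, 0 < Real.log (lam t i) →
      ∃ g : Fin n → ℚ, (∀ l, i ≤ l → g l = 0) ∧ ∀ j, (x t j : ℚ) = ∑ l, g l * X t l j := by
    filter_upwards [hAeq] with t ht i hi
    refine hspan t (x t) (hxmem t) i fun l => ?_
    rw [← ht l]
    exact lt_mul_of_one_lt_right (hA0 t l) ((Real.log_pos_iff (hlam t i).le).1 hi)
  set δ' : ℝ := δ / (2 * (n * n + 1)) with hδ'
  have hδ'0 : 0 < δ' := by positivity
  have hgap : ∀ᶠ t in U, ∃ ij : Fin n × Fin n, (ij.2 : ℕ) = ij.1 + 1 ∧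
      0 < Real.log (lam t ij.2) ∧ Real.log (lam t ij.1) + δ' * q t ≤ Real.log (lam t ij.2) := by
    filter_upwards [hent, hsmall, hspan', hz0, hq.eventually_ge_atTop 0,
      hq.eventually_gt_atTop (2 * (c + n * Real.log C) / δ)] with t h1 h2 h3 h4 h5 h6
    have h7 := hc (X t) (hX t) (β t) h1
    rw [hsumβ] at h7
    rw [div_lt_iff₀ hδ] at h6
    obtain ⟨i, j, hij⟩ := exists_gap (fun i => Real.log (lam t i)) (δ' * q t) (by positivity)
      (fun i hi => by
        by_contra hpos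
        obtain ⟨g, hg, hxg⟩ := h3 i (not_le.1 hpos)
        have hx0 : x t = 0 := funext fun j => by
          have := hxg j
          rw [Finset.sum_eq_zero (fun l _ => by
            rw [hg l (Fin.le_def.2 (by omega)), zero_mul])] at this
          exact_mod_cast this
        exact h4 i (by simp [hx0]))
      (by
        have h8 : (n : ℝ) * (n * (δ' * q t)) ≤ δ / 2 * q t := by
          have h9 : (n : ℝ) * n * δ' ≤ δ / 2 := by
            rw [hδ', mul_div_assoc', div_le_div_iff₀ (by positivity) (by positivity)]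
            nlinarith
          nlinarith
        linarith)
    exact ⟨(i, j), hij⟩
  obtain ⟨⟨i₀, j₀⟩, hij⟩ := Ultrafilter.eventually_exists_iff.1 hgap
  have hbA : ∀ l, BQ U q (fun t => Real.log (A t l)) := fun l => bq_log_mulVec hq x K hx (L₀ l)
  have hbe : ∀ k : S × Fin n, BQ U q (fun t => e t k * Real.log k.1.1) := by
    intro k
    refine BQ.of_le (bq_const hq 0) (bq_log_mulVec hq x K hx (L k.1 k.2)) ?_
    filter_upwards [hz1] with t ht
    refine ⟨mul_nonneg (Nat.cast_nonneg _) (Real.log_natCast_nonneg _), ?_⟩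
    rw [← Real.log_pow]
    refine Real.log_le_log (pow_pos (hp0 k.1) _) (le_max_of_le_right ?_)
    have h1 := prod_pow_padicVal_le {k.1.1} (by simpa using hS k.1.1 k.1.2) (ht k)
    rwa [Finset.prod_singleton] at h1
  have hlow : ∀ t i, -(Real.log C + ∑ l, Real.log (A t l)) ≤ Real.log (lam t i) := by
    intro t i
    have h1 : L₀ *ᵥ X t i ≠ 0 := fun h =>
      row_ne_zero (hX t) i (Matrix.eq_zero_of_mulVec_eq_zero h₀ h)
    obtain ⟨l, hl⟩ := Function.ne_iff.1 h1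
    have h2 := hbd t i ((π t).symm l)
    rw [Equiv.apply_symm_apply] at h2
    have h3 : (1 : ℝ) ≤ |(((L₀ *ᵥ X t i) l : ℤ) : ℝ)| := by exact_mod_cast Int.one_le_abs hl
    have h4 : (1 : ℝ) ≤ C * A t l * lam t i := h3.trans (h2.trans
      (mul_le_mul_of_nonneg_left (min_le_left _ _) (mul_pos hC0 (hA0 t _)).le))
    have h5 := Real.log_nonneg h4
    rw [Real.log_mul (mul_pos hC0 (hA0 t _)).ne' (hlam t i).ne',
      Real.log_mul hC0.ne' (hA0 t _).ne'] at h5
    have h6 : Real.log (A t l) ≤ ∑ l, Real.log (A t l) :=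
      Finset.single_le_sum (f := fun l => Real.log (A t l))
        (fun l _ => Real.log_nonneg (hA1 t l)) (mem_univ l)
    linarith
  have hbs : BQ U q (fun t => Real.log C + ∑ l, Real.log (A t l)) :=
    (bq_const hq _).add (bq_sum hq _ _ fun l _ => hbA l)
  have hbl : ∀ i, BQ U q (fun t => Real.log (lam t i)) := by
    intro i
    refine BQ.of_le hbs.neg (((bq_const hq (Real.log (C * |(L₀.det : ℝ)|))).add
      (bq_sum hq univ _ fun k _ => hbe k)).add (bq_sum hq (univ.erase i) _ fun _ _ => hbs))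
      (Eventually.of_forall fun t => ⟨hlow t i, ?_⟩)
    have h1 := hup t
    rw [← Finset.add_sum_erase _ _ (mem_univ i)] at h1
    have h2 : 0 ≤ ∑ l, Real.log (A t l) :=
      Finset.sum_nonneg fun l _ => Real.log_nonneg (hA1 t l)
    have h3 := Finset.sum_le_sum (s := univ.erase i) fun l _ => hlow t l
    rw [Finset.sum_neg_distrib] at h3
    linarith
  obtain ⟨w, hw0, hw⟩ := hW (place S hS) (places_place S hS) N hN
    (by
      rintro (_ | p)
      · exact mem_image.2 ⟨(L₀, π₀), mem_product.2 ⟨hL₀, mem_univ _⟩, rfl⟩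
      · exact mem_image.2 ⟨(L p, 1), mem_product.2 ⟨hLS p p.2, mem_univ _⟩, rfl⟩)
    none U q hq X β δ'
    (n * Real.log C + Real.log (C * |(L₀.det : ℝ)|)) hδ'0 j₀ (Eventually.of_forall hX)
    (by
      rintro (_ | p) l
      · exact ((bq_const hq _).add (hbA _)).add (hbl l)
      · exact (hbe (p, l)).neg)
    (Eventually.of_forall fun t => by have := hup t; rw [hsumβ]; linarith) hent
    (by
      filter_upwards [hπ, hij] with t ht h1 i l hi hl
      obtain ⟨h1, -, h2⟩ := h1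
      change (j₀ : ℕ) = i₀ + 1 at h1
      change Real.log (lam t i₀) + δ' * q t ≤ Real.log (lam t j₀) at h2
      rw [place_none, hNnone, Real.exp_sub, hexpβ]
      have h3 := hbd t i l
      rw [ht] at h3
      refine h3.trans ?_
      rw [mul_div_assoc]
      refine mul_le_mul_of_nonneg_left ((min_le_left _ _).trans ?_) (mul_pos hC0 (hA0 t _)).le
      have h4 : lam t i ≤ lam t i₀ := hmono t (Fin.le_def.2 (by have := Fin.lt_def.1 hi; omega))
      have h5 : lam t j₀ ≤ lam t l := hmono t hl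
      have h6 := Real.exp_le_exp.2 h2
      rw [Real.exp_add, Real.exp_log (hlam t _), Real.exp_log (hlam t _)] at h6
      rw [le_div_iff₀ (Real.exp_pos _)]
      exact (mul_le_mul_of_nonneg_right h4 (Real.exp_pos _).le).trans (h6.trans h5))
  refine hcon ⟨w, mem_union_left _ hw0, ?_⟩
  filter_upwards [hw, hij, hspan'] with t h1 h2 h3
  obtain ⟨g, hg, hxg⟩ := h3 j₀ h2.2.1
  exact h1 (x t) g hg hxg

/-- The Subspace Theorem along an ultrafilter, with a finite set of hyperplanes that depends only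
on the finite set of admissible systems of linear forms (and not on `S`). -/
theorem subspace_unif {ι : Type*} [Fintype ι] [DecidableEq ι] (LL : Finset (Matrix ι ι ℤ))
    (hLL : ∀ M ∈ LL, M.det ≠ 0) :
    ∃ W : Finset (ι → ℤ), (∀ w ∈ W, w ≠ 0) ∧
    ∀ (S : Finset ℕ) (_ : ∀ p ∈ S, p.Prime)
    (L₀ : Matrix ι ι ℤ) (_ : L₀ ∈ LL) (L : ℕ → Matrix ι ι ℤ)
    (_ : ∀ p ∈ S, L p ∈ LL) {τ : Type} (U : Ultrafilter τ) (q : τ → ℝ)
    (_ : Tendsto q U atTop) (x : τ → ι → ℤ) (K δ : ℝ) (_ : 0 < δ)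
    (_ : ∀ᶠ t in U, ∀ i, |(x t i : ℝ)| ≤ Real.exp (K * q t))
    (_ : ∀ᶠ t in U, (∏ i, |(((L₀ *ᵥ x t) i : ℤ) : ℝ)|) *
      ∏ p ∈ S, ∏ i, ((padicNorm p (((L p *ᵥ x t) i : ℤ) : ℚ) : ℚ) : ℝ) ≤
        Real.exp (-δ * q t)),
    ∃ w ∈ W, ∀ᶠ t in U, w ⬝ᵥ x t = 0 := by
  classical
  let e : Fin (Fintype.card ι) ≃ ι := (Fintype.equivFin ι).symm
  have hmv : ∀ (M : Matrix ι ι ℤ) (y : ι → ℤ) i,
      (M.submatrix e e *ᵥ (y ∘ e)) i = (M *ᵥ y) (e i) := fun M y i => by
    simp only [Matrix.mulVec, dotProduct, submatrix_apply, Function.comp]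
    exact Equiv.sum_comp e (fun j => M (e i) j * y j)
  obtain ⟨W, hW0, hW⟩ := subspace_fin_unif _ (LL.image fun M => M.submatrix e e) (by
    intro M hM
    obtain ⟨M', hM', rfl⟩ := mem_image.1 hM
    rw [Matrix.det_submatrix_equiv_self]
    exact hLL _ hM')
  refine ⟨W.image fun w => w ∘ e.symm, ?_, ?_⟩
  · intro w hw
    obtain ⟨w', hw', rfl⟩ := mem_image.1 hw
    exact fun h => hW0 w' hw' (funext fun i => by simpa using congrFun h (e i))
  intro S hS L₀ hL₀ L hL τ U q hq x K δ hδ hx hprod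
  obtain ⟨w, hw0, hw⟩ := hW S hS (L₀.submatrix e e) (mem_image_of_mem _ hL₀)
    (fun p => (L p).submatrix e e) (fun p hp => mem_image_of_mem _ (hL p hp)) U q hq
    (fun t => x t ∘ e) K δ hδ (hx.mono fun t ht i => ht _) (hprod.mono fun t ht => by
      simp only [hmv]
      rw [Equiv.prod_comp e (fun i => |(((L₀ *ᵥ x t) i : ℤ) : ℝ)|)]
      refine le_trans (le_of_eq ?_) ht
      congr 1
      exact Finset.prod_congr rfl fun p _ => Equiv.prod_comp e
        (fun i => ((padicNorm p (((L p *ᵥ x t) i : ℤ) : ℚ) : ℚ) : ℝ)))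
  refine ⟨w ∘ e.symm, mem_image_of_mem _ hw0, hw.mono fun t ht => ?_⟩
  rw [← ht, dotProduct, dotProduct, ← Equiv.sum_comp e]
  simp

end Pool.Agent.Lib.Common.Subspace
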