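import Pool.Agent.Lib.Common.Subspace.Penult
import Pool.Agent.Lib.Common.Subspace.Compound

/-! Passage to an exterior power. -/

namespace Pool.Agent.Lib.Common.Subspace

open Finset Matrix Filter

theorem ultra_const {τ β : Type*} [Finite β] (U : Ultrafilter τ) (f : τ → β) :
    ∃ b, ∀ᶠ t in U, f t = b :=
  Ultrafilter.eventually_exists_iff.1 (Eventually.of_forall fun t => ⟨f t, rfl⟩)

/-- `f` is bounded by a constant multiple of `q` along `U`. -/
def BQ {τ : Type*} (U : Filter τ) (q f : τ → ℝ) : Prop := ∃ Γ : ℝ, ∀ᶠ t in U, |f t| ≤ Γ * q t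

section BQ

variable {τ : Type*} {U : Filter τ} {q : τ → ℝ}

theorem bq_const (hq : Tendsto q U atTop) (c : ℝ) : BQ U q (fun _ => c) := by
  refine ⟨|c|, (hq.eventually_ge_atTop 1).mono fun t ht => ?_⟩
  nlinarith [abs_nonneg c]

theorem bq_mul_self (hq : Tendsto q U atTop) (c : ℝ) : BQ U q (fun t => c * q t) := by
  refine ⟨|c|, (hq.eventually_ge_atTop 0).mono fun t ht => ?_⟩
  rw [abs_mul, abs_of_nonneg ht]

theorem BQ.add {f g : τ → ℝ} (hf : BQ U q f) (hg : BQ U q g) : BQ U q (fun t => f t + g t) := by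
  obtain ⟨a, ha⟩ := hf
  obtain ⟨b, hb⟩ := hg
  refine ⟨a + b, (ha.and hb).mono fun t ht => ?_⟩
  have := abs_add_le (f t) (g t)
  linarith [ht.1, ht.2]

theorem BQ.neg {f : τ → ℝ} (hf : BQ U q f) : BQ U q (fun t => -f t) := by
  obtain ⟨a, ha⟩ := hf
  exact ⟨a, ha.mono fun t ht => by rwa [abs_neg]⟩

theorem BQ.sub {f g : τ → ℝ} (hf : BQ U q f) (hg : BQ U q g) : BQ U q (fun t => f t - g t) := by
  simpa only [sub_eq_add_neg] using hf.add hg.neg

theorem bq_sum (hq : Tendsto q U atTop) {I : Type*} (s : Finset I) (f : I → τ → ℝ)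
    (h : ∀ i ∈ s, BQ U q (f i)) : BQ U q (fun t => ∑ i ∈ s, f i t) := by
  classical
  induction s using Finset.induction_on with
  | empty => simpa using bq_const hq 0
  | insert a s ha ih =>
    simp only [Finset.sum_insert ha]
    exact (h a (mem_insert_self _ _)).add (ih fun i hi => h i (mem_insert_of_mem hi))

theorem BQ.of_le {f g k : τ → ℝ} (hg : BQ U q g) (hk : BQ U q k)
    (h : ∀ᶠ t in U, g t ≤ f t ∧ f t ≤ k t) : BQ U q f := by
  obtain ⟨a, ha⟩ := hg
  obtain ⟨b, hb⟩ := hk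
  refine ⟨a + b, ((ha.and hb).and h).mono fun t ht => ?_⟩
  obtain ⟨⟨h1, h2⟩, h3, h4⟩ := ht
  have h5 := abs_nonneg (g t)
  have h6 := abs_nonneg (k t)
  rw [abs_le] at h1 h2 ⊢
  constructor <;> nlinarith [h1.1, h1.2, h2.1, h2.2, neg_abs_le (g t), le_abs_self (k t)]

theorem bq_uniform (hq : Tendsto q U atTop) {I : Type*} [Fintype I] (f : I → τ → ℝ)
    (h : ∀ i, BQ U q (f i)) : ∃ Γ : ℝ, ∀ᶠ t in U, ∀ i, |f i t| ≤ Γ * q t := by
  choose Γ hΓ using h
  refine ⟨∑ i, |Γ i|, ?_⟩
  filter_upwards [eventually_all.2 hΓ, hq.eventually_ge_atTop 0] with t ht h0 i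
  refine (ht i).trans (mul_le_mul_of_nonneg_right ?_ h0)
  exact (le_abs_self _).trans
    (Finset.single_le_sum (f := fun i => |Γ i|) (fun _ _ => abs_nonneg _) (mem_univ i))

end BQ

theorem abv_int_det_le {n : Type*} [Fintype n] [DecidableEq n] (v : AbsoluteValue ℚ ℝ)
    (A : Matrix n n ℤ) (r c : n → ℝ) (h : ∀ i j, v ((A i j : ℤ) : ℚ) ≤ r i * c j) :
    v ((A.det : ℤ) : ℚ) ≤ (Fintype.card n).factorial * ((∏ i, r i) * ∏ j, c j) := by
  have h1 : ((A.det : ℤ) : ℚ) = (A.map (Int.cast : ℤ → ℚ)).det := by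
    have := (Int.castRingHom ℚ).map_det A
    simpa using this
  rw [h1]
  exact abv_det_le _ r c h

theorem wedge_step {Pl : Type*} [Fintype Pl] [DecidableEq Pl] (v : Pl → AbsoluteValue ℚ ℝ)
    (hv : Places v) {n : ℕ} (N : Pl → Matrix (Fin n) (Fin n) ℤ) (hN : ∀ p, (N p).det ≠ 0)
    (o : Pl) {τ : Type*} (U : Ultrafilter τ) (q : τ → ℝ) (hq : Tendsto q U atTop)
    (X : τ → Matrix (Fin n) (Fin n) ℤ) (β : τ → Pl → Fin n → ℝ) (δ c₀ : ℝ) (hδ : 0 < δ)
    (j₀ : Fin n) (hX : ∀ᶠ t in U, (X t).det ≠ 0) (hβ : ∀ p l, BQ U q (fun t => β t p l))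
    (hsum : ∀ᶠ t in U, ∑ p, ∑ l, β t p l ≤ c₀)
    (hent : ∀ᶠ t in U, ∀ p i l, v p (((N p *ᵥ X t i) l : ℤ) : ℚ) ≤ Real.exp (β t p l))
    (hgap : ∀ᶠ t in U, ∀ i l, i < j₀ → j₀ ≤ l →
      v o (((N o *ᵥ X t i) l : ℤ) : ℚ) ≤ Real.exp (β t o l - δ * q t)) :
    ∃ w : Fin n → ℤ, w ≠ 0 ∧ ∀ᶠ t in U, ∀ (y : Fin n → ℤ) (g : Fin n → ℚ),
      (∀ l, j₀ ≤ l → g l = 0) → (∀ j, (y j : ℚ) = ∑ l, g l * X t l j) → w ⬝ᵥ y = 0 := by
  classical
  set k : ℕ := n - j₀ with hk
  have hk0 : 0 < k := by have := j₀.2; omega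
  let top : PS n k := ⟨Finset.Ici j₀, Fin.card_Ici j₀⟩
  let b : τ → Pl → PS n k → ℝ := fun t p J =>
    Real.log k.factorial + ∑ a, β t p (enum J a) - if p = o ∧ J = top then δ * q t else 0
  obtain ⟨c, hc⟩ := sum_sum_enum n k
  have hbq : ∀ pJ : Pl × PS n k, BQ U q (fun t => b t pJ.1 pJ.2) := by
    rintro ⟨p, J⟩
    refine ((bq_const hq _).add (bq_sum hq _ _ fun a _ => hβ p _)).sub ?_
    by_cases h : p = o ∧ J = top
    · simp only [if_pos h]; exact bq_mul_self hq δ
    · simp only [if_neg h]; exact bq_const hq 0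
  obtain ⟨Γ, hΓ⟩ := bq_uniform hq _ hbq
  set c₁ : ℝ := Fintype.card Pl * (Fintype.card (PS n k) * Real.log k.factorial) + c * c₀ with hc₁
  have hs : ∀ᶠ t in U, ∑ p, ∑ J, b t p J ≤ -(δ / 2) * q t := by
    filter_upwards [hsum, hq.eventually_ge_atTop (2 * c₁ / δ)] with t h1 h2
    have h3 : ∑ p, ∑ J, b t p J =
        Fintype.card Pl * (Fintype.card (PS n k) * Real.log k.factorial) +
          c * ∑ p, ∑ l, β t p l - δ * q t := by
      simp only [b, Finset.sum_sub_distrib, Finset.sum_add_distrib, hc, Finset.sum_const,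
        card_univ, nsmul_eq_mul, ← Finset.mul_sum]
      congr 1
      rw [Finset.sum_eq_single o, Finset.sum_eq_single top] <;> simp +contextual
    have h4 : (c : ℝ) * ∑ p, ∑ l, β t p l ≤ c * c₀ :=
      mul_le_mul_of_nonneg_left h1 (Nat.cast_nonneg c)
    have h5 : 2 * c₁ ≤ δ * q t := by rwa [div_le_iff₀ hδ, mul_comm (q t)] at h2
    rw [h3]
    linarith
  obtain ⟨w, hw0, hw⟩ := penult v hv (fun p => comp k (N p))
    (fun p => det_comp_ne_zero k _ (hN p)) U q hq b Γ (δ / 2) (by positivity)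
    (hΓ.mono fun t ht p J => ht (p, J)) hs (fun t => comp k (X t)) top
    (hX.mono fun t ht => det_comp_ne_zero k _ ht) (by
      filter_upwards [hent, hgap] with t h1 h2 p I J hI
      rw [comp_mulVec]
      have hfac : (0 : ℝ) < k.factorial := by exact_mod_cast k.factorial_pos
      by_cases h : p = o ∧ J = top
      · obtain ⟨rfl, rfl⟩ := h
        have : ∃ l ∈ I.1, l ∉ top.1 := by
          by_contra hcon
          push Not at hcon
          exact hI (Subtype.ext (Finset.eq_of_subset_of_card_le hcon (by rw [I.2, top.2])))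
        obtain ⟨l, hl, hl'⟩ := this
        obtain ⟨a₀, rfl⟩ := exists_enum_eq I hl
        have hlt : enum I a₀ < j₀ := by simpa [top] using hl'
        refine (abv_int_det_le (v p) _ (fun a => if a = a₀ then Real.exp (-(δ * q t)) else 1)
          (fun a => Real.exp (β t p (enum top a))) ?_).trans (le_of_eq ?_)
        · intro a a'
          by_cases ha : a = a₀
          · subst ha
            have hm : j₀ ≤ enum top a' := by simpa [top] using enum_mem top a'
            simp only [if_true, of_apply, ← Real.exp_add]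
            refine (h2 _ _ hlt hm).trans (le_of_eq ?_)
            congr 1; ring
          · simp only [if_neg ha, one_mul, of_apply]
            exact h1 _ _ _
        · simp only [b, and_self, if_true, Finset.prod_ite_eq', mem_univ, Fintype.card_fin,
            ← Real.exp_sum]
          rw [Real.exp_sub, Real.exp_add, Real.exp_log hfac, Real.exp_neg]
          field_simp
      · refine (abv_int_det_le (v p) _ (fun _ => 1)
          (fun a => Real.exp (β t p (enum J a))) ?_).trans (le_of_eq ?_)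
        · intro a a'
          simp only [one_mul, of_apply]
          exact h1 _ _ _
        · simp only [b, if_neg h, Finset.prod_const_one, Fintype.card_fin, ← Real.exp_sum,
            sub_zero, one_mul]
          rw [Real.exp_add, Real.exp_log hfac])
  obtain ⟨w', hw'0, hw'⟩ := exists_functional hk0 w hw0
  refine ⟨w', hw'0, ?_⟩
  filter_upwards [hw, hX] with t h1 h2 y g hg hy
  exact hw' (X t) h2 top h1 y g (fun l hl => hg l (by simpa [top] using hl)) hy

end Pool.Agent.Lib.Common.Subspace
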