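import Pool.Agent.Lib.Common.Subspace.Fil

/-! Generalized Wronskians and minimal decompositions. -/

namespace Pool.Agent.Lib.Common.Subspace

open MvPolynomial Finset

lemma wronski_distinct {σ : Type*} (m : MonomialOrder σ) (r : ℕ) :
    ∀ (V : Submodule ℚ (MvPolynomial σ ℚ)) [FiniteDimensional ℚ V], r ≤ Module.finrank ℚ V →
      ∃ g : Fin r → MvPolynomial σ ℚ, (∀ j, g j ∈ V ∧ g j ≠ 0) ∧
        Function.Injective (fun j => m.degree (g j)) := by
  induction r with
  | zero =>
    intro V _ _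
    exact ⟨Fin.elim0, fun j => j.elim0, fun j => j.elim0⟩
  | succ r ih =>
    intro V _ hr
    have hV : V ≠ ⊥ := by
      rintro rfl
      simp at hr
    obtain ⟨g0, hg0, hg0'⟩ := (Submodule.ne_bot_iff V).1 hV
    let φ : V →ₗ[ℚ] ℚ := (lcoeff ℚ (m.degree g0)).domRestrict V
    have h1 := φ.finrank_range_add_finrank_ker
    have h2 : Module.finrank ℚ (LinearMap.range φ) ≤ 1 := by
      simpa using (LinearMap.range φ).finrank_le
    have h3 : Module.finrank ℚ ((LinearMap.ker φ).map V.subtype) =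
        Module.finrank ℚ (LinearMap.ker φ) := Submodule.finrank_map_subtype_eq V _
    obtain ⟨g, hg, hinj⟩ := ih ((LinearMap.ker φ).map V.subtype) (by omega)
    have hz : ∀ j, m.degree (g j) ≠ m.degree g0 := by
      intro j e
      obtain ⟨⟨x, hx, hx2⟩, hne⟩ := hg j
      have h4 : coeff (m.degree g0) (x : MvPolynomial σ ℚ) = 0 := hx
      have h5 : (x : MvPolynomial σ ℚ) = g j := hx2
      rw [h5, ← e] at h4
      exact hne (m.coeff_degree_eq_zero_iff.1 h4)
    refine ⟨Fin.cons g0 g, fun j => ?_, ?_⟩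
    · refine Fin.cases ⟨hg0, hg0'⟩ (fun j => ⟨?_, (hg j).2⟩) j
      obtain ⟨⟨x, -, hx2⟩, -⟩ := hg j
      have h5 : (x : MvPolynomial σ ℚ) = g j := hx2
      rw [Fin.cons_succ, ← h5]
      exact x.2
    · intro i j
      refine Fin.cases ?_ (fun i => ?_) i <;> refine Fin.cases ?_ (fun j => ?_) j
      · exact fun _ => rfl
      · intro e
        exact absurd (show m.degree g0 = m.degree (g j) from e).symm (hz j)
      · intro e
        exact absurd (show m.degree (g i) = m.degree g0 from e) (hz i)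
      · intro e
        rw [hinj (show m.degree (g i) = m.degree (g j) from e)]

lemma wronski_vanish {σ ι : Type*} (a : ι → (σ →₀ ℕ)) (ha : Function.Injective a) (n : ℕ) :
    ∀ (T : Finset ι) (lam : ι → ℚ), T.card = n →
      (∀ μ : σ →₀ ℕ, μ.degree < n → ∑ j ∈ T, lam j * (bin μ (a j) : ℚ) = 0) →
      ∀ j ∈ T, lam j = 0 := by
  classical
  induction n with
  | zero =>
    intro T lam hT _ j hj
    rw [Finset.card_eq_zero] at hT
    subst hT
    simp at hj
  | succ n ih =>
    intro T lam hT h j hj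
    by_cases h1 : ∃ j2 ∈ T, j2 ≠ j
    · obtain ⟨j2, hj2, hne⟩ := h1
      obtain ⟨s, hs⟩ : ∃ s, a j s ≠ a j2 s := by
        by_contra hc
        push Not at hc
        exact hne (ha (Finsupp.ext hc)).symm
      have h2 := ih (T.erase j2) (fun i => lam i * ((a i s : ℚ) - a j2 s))
        (by rw [Finset.card_erase_of_mem hj2, hT]; rfl) ?_ j (Finset.mem_erase.2 ⟨hne.symm, hj⟩)
      · rcases mul_eq_zero.1 h2 with h3 | h3
        · exact h3
        · exact absurd (by exact_mod_cast sub_eq_zero.1 h3) hs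
      · intro μ hμ
        rw [Finset.sum_erase _ (by simp)]
        have e1 := h μ (by omega)
        have e2 := h (μ + Finsupp.single s 1) (by rw [map_add, Finsupp.degree_single]; omega)
        have e3 : ∀ i ∈ T, lam i * ((a i s : ℚ) - a j2 s) * (bin μ (a i) : ℚ) =
            ((μ s : ℚ) + 1) * (lam i * (bin (μ + Finsupp.single s 1) (a i) : ℚ)) +
              ((μ s : ℚ) - a j2 s) * (lam i * (bin μ (a i) : ℚ)) := by
          intro i _
          have := bin_add_single μ (a i) s
          linear_combination (-lam i) * this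
        rw [Finset.sum_congr rfl e3, Finset.sum_add_distrib, ← Finset.mul_sum, ← Finset.mul_sum,
          e1, e2]
        simp
    · push Not at h1
      have e1 := h 0 (by simp)
      rw [Finset.sum_eq_single_of_mem j hj (fun i hi hne => absurd (h1 i hi) hne), bin_zero] at e1
      simpa using e1

lemma wronski_bin_det {σ : Type*} (r : ℕ) (a : Fin r → (σ →₀ ℕ)) (ha : Function.Injective a) :
    ∃ μ : Fin r → (σ →₀ ℕ), (∀ i, (μ i).degree < r) ∧
      (Matrix.of fun i j => (bin (μ i) (a j) : ℚ)).det ≠ 0 := by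
  classical
  let v : {μ : σ →₀ ℕ // μ.degree < r} → (Fin r → ℚ) := fun μ j => (bin μ.1 (a j) : ℚ)
  have hspan : Submodule.span ℚ (Set.range v) = ⊤ := by
    by_contra hc
    obtain ⟨f, hf0, hf⟩ := Submodule.exists_le_ker_of_lt_top _ (lt_top_iff_ne_top.2 hc)
    have h1 := wronski_vanish a ha r Finset.univ (fun j => f (fun i => if j = i then 1 else 0))
      (by simp) ?_
    · apply hf0
      ext x
      have := f.pi_apply_eq_sum_univ (Pi.single x 1)
      simp only [LinearMap.comp_apply, LinearMap.coe_single, LinearMap.zero_apply]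
      rw [this]
      exact Finset.sum_eq_zero fun i _ => by rw [h1 i (Finset.mem_univ i), smul_zero]
    · intro μ hμ
      have h2 : f (v ⟨μ, hμ⟩) = 0 := hf (Submodule.subset_span ⟨_, rfl⟩)
      rw [f.pi_apply_eq_sum_univ] at h2
      exact (Finset.sum_congr rfl fun i _ => by rw [smul_eq_mul, mul_comm]).trans h2
  obtain ⟨κ, b, -, hb1, hb2⟩ := exists_linearIndependent' ℚ v
  have : Finite κ := hb2.finite
  let := Fintype.ofFinite κ
  have hcard : Fintype.card κ = r := by
    have := finrank_span_eq_card hb2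
    rw [hb1, hspan] at this
    simpa using this.symm
  let e : Fin r ≃ κ := (Fintype.equivFinOfCardEq hcard).symm
  refine ⟨fun i => (b (e i)).1, fun i => (b (e i)).2, ?_⟩
  have h3 : LinearIndependent ℚ (Matrix.of fun i j => (bin (b (e i)).1 (a j) : ℚ)).row :=
    hb2.comp e e.injective
  rw [Matrix.linearIndependent_rows_iff_isUnit, Matrix.isUnit_iff_isUnit_det] at h3
  exact h3.ne_zero

lemma wronski_coeff_prod {σ ι : Type*} (m : MonomialOrder σ) (P : ι → MvPolynomial σ ℚ)
    (a : ι → (σ →₀ ℕ)) (h : ∀ i, m.toSyn (m.degree (P i)) ≤ m.toSyn (a i)) (s : Finset ι) :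
    m.toSyn (m.degree (∏ i ∈ s, P i)) ≤ m.toSyn (∑ i ∈ s, a i) ∧
      coeff (∑ i ∈ s, a i) (∏ i ∈ s, P i) = ∏ i ∈ s, coeff (a i) (P i) := by
  classical
  induction s using Finset.induction_on with
  | empty => simp
  | insert i s hi ih =>
    rw [Finset.prod_insert hi, Finset.sum_insert hi, Finset.prod_insert hi]
    refine ⟨?_, ?_⟩
    · refine m.degree_mul_le.trans ?_
      rw [map_add, map_add]
      exact add_le_add (h i) ih.1
    · rw [m.coeff_mul_of_add_of_degree_le (h i) ih.1, ih.2]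

/-- Nonvanishing of a generalized Wronskian. -/
theorem exists_hd_det_ne_zero {σ : Type*} [Fintype σ] (r : ℕ) (f : Fin r → MvPolynomial σ ℚ)
    (hf : LinearIndependent ℚ f) :
    ∃ μ : Fin r → (σ →₀ ℕ), (∀ i, (μ i).degree < r) ∧
      (Matrix.of fun i j => hd (μ i) (f j)).det ≠ 0 := by
  classical
  let : LinearOrder σ := LinearOrder.lift' (Fintype.equivFin σ) (Fintype.equivFin σ).injective
  let m : MonomialOrder σ := MonomialOrder.lex
  have : FiniteDimensional ℚ (Submodule.span ℚ (Set.range f)) :=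
    FiniteDimensional.span_of_finite ℚ (Set.finite_range f)
  obtain ⟨g, hg, hinj⟩ := wronski_distinct m r (Submodule.span ℚ (Set.range f))
    (by rw [finrank_span_eq_card hf]; simp)
  obtain ⟨μ, hμ, hdet⟩ := wronski_bin_det r _ hinj
  refine ⟨μ, hμ, fun h0 => ?_⟩
  choose G hG using fun j => (Submodule.mem_span_range_iff_exists_fun ℚ).1 (hg j).1
  have h1 : (Matrix.of fun i j => hd (μ i) (g j)) =
      (Matrix.of fun i j => hd (μ i) (f j)) * Matrix.of fun l j => C (G j l) := by
    ext1 i j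
    rw [Matrix.mul_apply, Matrix.of_apply, ← hG j, map_sum]
    refine Finset.sum_congr rfl fun l _ => ?_
    rw [map_smul, Matrix.of_apply, Matrix.of_apply, smul_eq_C_mul, mul_comm]
  have h2 : (Matrix.of fun i j => hd (μ i) (g j)).det = 0 := by
    rw [h1, Matrix.det_mul, h0, zero_mul]
  have h3 := congrArg (coeff (∑ j, m.degree (g j))) h2
  rw [Matrix.det_apply', coeff_sum, coeff_zero] at h3
  have h4 : (Matrix.of fun i j => (bin (μ i) (m.degree (g j)) : ℚ)).det *
      ∏ j, coeff (m.degree (g j)) (g j) = 0 := by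
    rw [← h3, Matrix.det_apply', Finset.sum_mul]
    refine Finset.sum_congr rfl fun π _ => ?_
    have h5 := (wronski_coeff_prod m (fun j => hd (μ (π j)) (g j)) (fun j => m.degree (g j))
      (fun j => m.degree_le_degree_of_support_subset (support_hd_subset _ _)) Finset.univ).2
    have h6 : ((Equiv.Perm.sign π : ℤ) : MvPolynomial σ ℚ) = C ((Equiv.Perm.sign π : ℤ) : ℚ) := by
      simp
    simp only [Matrix.of_apply]
    rw [h6, coeff_C_mul, h5, mul_assoc, ← Finset.prod_mul_distrib]
    simp only [coeff_hd]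
  rcases mul_eq_zero.1 h4 with h5 | h5
  · exact hdet h5
  · obtain ⟨j, -, hj⟩ := Finset.prod_eq_zero_iff.1 h5
    exact (hg j).2 (m.coeff_degree_eq_zero_iff.1 hj)

lemma wronski_shorten {A : Type*} [CommRing A] [Algebra ℚ A] (A₁ A₂ : Submodule ℚ A)
    (r : ℕ) (f g : Fin (r + 1) → A) (hf : ∀ i, f i ∈ A₁) (hg : ∀ i, g i ∈ A₂)
    (h : ¬ LinearIndependent ℚ f) :
    ∃ (f' g' : Fin r → A), (∀ i, f' i ∈ A₁) ∧ (∀ i, g' i ∈ A₂) ∧
      ∑ i, f' i * g' i = ∑ i, f i * g i := by
  obtain ⟨c, hc, k, hk⟩ := Fintype.not_linearIndependent_iff.1 h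
  refine ⟨fun i => f (k.succAbove i), fun i => g (k.succAbove i) - (c (k.succAbove i) / c k) • g k,
    fun i => hf _, fun i => A₂.sub_mem (hg _) (A₂.smul_mem _ (hg _)), ?_⟩
  rw [Fin.sum_univ_succAbove _ k] at hc ⊢
  have h1 : f k = -∑ i : Fin r, (c (k.succAbove i) / c k) • f (k.succAbove i) := by
    have h2 : f k = (c k)⁻¹ • (c k • f k) := by rw [smul_smul, inv_mul_cancel₀ hk, one_smul]
    rw [h2, eq_neg_of_add_eq_zero_left hc, smul_neg, Finset.smul_sum]
    simp only [smul_smul, div_eq_inv_mul]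
  rw [h1, neg_mul, Finset.sum_mul, ← Finset.sum_neg_distrib, ← Finset.sum_add_distrib]
  refine Finset.sum_congr rfl fun i _ => ?_
  rw [mul_sub, mul_smul_comm, smul_mul_assoc]
  ring

/-- A decomposition `∑ f i * g i` can be shortened until both families are independent. -/
theorem exists_min_decomp {A : Type*} [CommRing A] [Algebra ℚ A] (A₁ A₂ : Submodule ℚ A)
    (r : ℕ) (f g : Fin r → A) (hf : ∀ i, f i ∈ A₁) (hg : ∀ i, g i ∈ A₂) :
    ∃ (r' : ℕ) (f' g' : Fin r' → A), r' ≤ r ∧ (∀ i, f' i ∈ A₁) ∧ (∀ i, g' i ∈ A₂) ∧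
      LinearIndependent ℚ f' ∧ LinearIndependent ℚ g' ∧
      ∑ i, f' i * g' i = ∑ i, f i * g i := by
  induction r with
  | zero => exact ⟨0, f, g, le_rfl, hf, hg, linearIndependent_empty_type,
      linearIndependent_empty_type, rfl⟩
  | succ r ih =>
    by_cases h1 : LinearIndependent ℚ f
    · by_cases h2 : LinearIndependent ℚ g
      · exact ⟨r + 1, f, g, le_rfl, hf, hg, h1, h2, rfl⟩
      · obtain ⟨g', f', hg', hf', e⟩ := wronski_shorten A₂ A₁ r g f hg hf h2
        obtain ⟨r', f'', g'', h3, h4, h5, h6, h7, h8⟩ := ih f' g' hf' hg'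
        refine ⟨r', f'', g'', by omega, h4, h5, h6, h7, ?_⟩
        rw [h8]
        simpa only [mul_comm] using e
    · obtain ⟨f', g', hf', hg', e⟩ := wronski_shorten A₁ A₂ r f g hf hg h1
      obtain ⟨r', f'', g'', h3, h4, h5, h6, h7, h8⟩ := ih f' g' hf' hg'
      exact ⟨r', f'', g'', by omega, h4, h5, h6, h7, h8.trans e⟩

/-- Coefficients of a product of polynomials in disjoint sets of variables. -/
theorem coeff_mul_disjoint {σ : Type*} (a : σ) (U V : MvPolynomial σ ℚ)
    (hU : ∀ μ ∈ U.support, μ a = 0) (hV : ∀ μ ∈ V.support, ∀ s, s ≠ a → μ s = 0)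
    (μ : σ →₀ ℕ) (hμ : μ a = 0) (k : ℕ) :
    coeff (μ + Finsupp.single a k) (U * V) = coeff μ U * coeff (Finsupp.single a k) V := by
  classical
  rw [coeff_mul, Finset.sum_eq_single (μ, Finsupp.single a k)]
  · rintro ⟨c, d⟩ hcd hne
    rw [Finset.HasAntidiagonal.mem_antidiagonal] at hcd
    by_contra hc
    obtain ⟨h1, h2⟩ := mul_ne_zero_iff.1 hc
    have h3 := hU c (mem_support_iff.2 h1)
    have h4 := hV d (mem_support_iff.2 h2)
    have h5 : c = μ := by
      ext s
      by_cases hs : s = a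
      · rw [hs, h3, hμ]
      · have := DFunLike.congr_fun hcd s
        simpa [h4 s hs, Finsupp.single_eq_of_ne hs] using this
    subst h5
    exact hne (Prod.ext rfl (add_left_cancel hcd))
  · intro h
    exact absurd (by rw [Finset.HasAntidiagonal.mem_antidiagonal]) h

/-- `hd` of a product of polynomials in disjoint sets of variables. -/
theorem hd_mul_disjoint {σ : Type*} (a : σ) (U V : MvPolynomial σ ℚ)
    (hU : ∀ μ ∈ U.support, μ a = 0) (hV : ∀ μ ∈ V.support, ∀ s, s ≠ a → μ s = 0)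
    (μ : σ →₀ ℕ) (hμ : μ a = 0) (k : ℕ) :
    hd (μ + Finsupp.single a k) (U * V) = hd μ U * hd (Finsupp.single a k) V := by
  classical
  ext ν
  have e : ν = ν.erase a + Finsupp.single a (ν a) := (Finsupp.erase_add_single a ν).symm
  have h0 : (ν.erase a) a = 0 := Finsupp.erase_same
  rw [e, coeff_hd, coeff_mul_disjoint a U V hU hV _ h0,
    coeff_mul_disjoint a _ _ (fun x hx => hU x (support_hd_subset _ _ hx))
      (fun x hx => hV x (support_hd_subset _ _ hx)) _ h0, coeff_hd, coeff_hd, bin_add_add]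
  · push_cast
    ring
  · intro s
    by_cases hs : s = a
    · exact Or.inl ⟨hs ▸ hμ, hs ▸ h0⟩
    · exact Or.inr ⟨Finsupp.single_eq_of_ne hs, Finsupp.single_eq_of_ne hs⟩

lemma wronski_coeff_aeval {σ : Type*} (a : σ) (p : Polynomial ℚ) (k : ℕ) :
    coeff (Finsupp.single a k) (Polynomial.aeval (X a : MvPolynomial σ ℚ) p) = p.coeff k := by
  classical
  induction p using Polynomial.induction_on' with
  | add p q hp hq => rw [map_add, coeff_add, hp, hq, Polynomial.coeff_add]
  | monomial n c =>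
    rw [Polynomial.aeval_monomial, algebraMap_eq, C_mul_X_pow_eq_monomial, coeff_monomial,
      Polynomial.coeff_monomial]
    simp only [(Finsupp.single_injective a).eq_iff]

/-- The one-variable case of Roth's lemma (Gauss's lemma). -/
theorem one_var {σ : Type*} (a : σ) (ω : σ → ℝ) (hω : 0 < ω a) (ξ : σ → ℚ) (θ : ℝ)
    (V : MvPolynomial σ ℚ) (hV0 : V ≠ 0) (hV : ∀ μ ∈ V.support, ∀ s, s ≠ a → μ s = 0)
    (hint : IsInt V) (hfil : InFil ω θ (shift ξ V)) :
    θ * Real.log (ξ a).den ≤ ω a * Real.log (len V) := by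
  classical
  obtain ⟨p, rfl⟩ : ∃ p : Polynomial ℚ, Polynomial.aeval (X a : MvPolynomial σ ℚ) p = V := by
    refine ⟨∑ μ ∈ V.support, Polynomial.monomial (μ a) (coeff μ V), ?_⟩
    rw [map_sum]
    conv_rhs => rw [V.as_sum]
    refine Finset.sum_congr rfl fun μ hμ => ?_
    rw [Polynomial.aeval_monomial, algebraMap_eq, C_mul_X_pow_eq_monomial]
    congr 2
    ext s
    by_cases hs : s = a
    · rw [hs, Finsupp.single_eq_same]
    · rw [Finsupp.single_eq_of_ne hs, hV μ hμ s hs]
  have hp0 : p ≠ 0 := by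
    rintro rfl
    exact hV0 (map_zero _)
  have hshift : shift ξ (Polynomial.aeval (X a : MvPolynomial σ ℚ) p) =
      Polynomial.aeval (X a : MvPolynomial σ ℚ) (p.comp (Polynomial.X + Polynomial.C (ξ a))) := by
    rw [← Polynomial.aeval_algHom_apply, Polynomial.aeval_comp]
    simp [shift]
  set k := ⌈θ / ω a⌉₊ with hk
  have h1 : (Polynomial.X - Polynomial.C (ξ a)) ^ k ∣ p := by
    rw [Polynomial.X_sub_C_pow_dvd_iff, Polynomial.X_pow_dvd_iff]
    intro d hd
    by_contra hc
    rw [← wronski_coeff_aeval a, ← hshift] at hc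
    have h2 := hfil _ (mem_support_iff.2 hc)
    rw [Finsupp.weight_single, nsmul_eq_mul] at h2
    have h3 : (d : ℝ) < θ / ω a := Nat.lt_ceil.1 hd
    rw [lt_div_iff₀ hω] at h3
    linarith
  obtain ⟨q, rfl⟩ : p ∈ Polynomial.lifts (Int.castRingHom ℚ) := by
    rw [Polynomial.lifts_iff_coeff_lifts]
    intro n
    obtain ⟨z, hz⟩ := hint (Finsupp.single a n)
    rw [wronski_coeff_aeval] at hz
    exact ⟨z, hz.symm⟩
  simp only [Polynomial.coe_mapRingHom] at *
  have hq0 : q ≠ 0 := by
    rintro rfl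
    exact hp0 (Polynomial.map_zero _)
  let L : Polynomial ℤ := Polynomial.C ((ξ a).den : ℤ) * Polynomial.X - Polynomial.C (ξ a).num
  have hL : L.IsPrimitive := by
    intro r hr
    rw [Polynomial.C_dvd_iff_dvd_coeff] at hr
    have e0 := hr 0
    have e1 := hr 1
    simp only [L, Polynomial.coeff_sub, Polynomial.coeff_C_mul, Polynomial.coeff_X_zero,
      Polynomial.coeff_X_one, Polynomial.coeff_C_zero, mul_zero, mul_one, zero_sub, dvd_neg,
      Polynomial.coeff_C_succ, sub_zero] at e0 e1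
    exact (Rat.isCoprime_num_den (ξ a)).isUnit_of_dvd' e0 e1
  have hLk : ∀ n : ℕ, (L ^ n).IsPrimitive := by
    intro n
    induction n with
    | zero => simp
    | succ n ih => rw [pow_succ]; exact ih.mul hL
  have hden : ((ξ a).den : ℚ) ≠ 0 := by exact_mod_cast (ξ a).den_nz
  have h2 : L ^ k ∣ q := by
    rw [Polynomial.IsPrimitive.Int.dvd_iff_map_cast_dvd_map_cast _ _ (hLk k), Polynomial.map_pow]
    have e : L.map (Int.castRingHom ℚ) =
        Polynomial.C ((ξ a).den : ℚ) * (Polynomial.X - Polynomial.C (ξ a)) := by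
      rw [mul_sub, ← Polynomial.C_mul, Rat.den_mul_eq_num]
      simp [L]
    rw [e, mul_pow, ← Polynomial.C_pow]
    exact (IsUnit.mul_left_dvd (Polynomial.isUnit_C.2 (pow_ne_zero k hden).isUnit)).2 h1
  have h3 : L.leadingCoeff = (ξ a).den := by
    have : L = Polynomial.C ((ξ a).den : ℤ) * Polynomial.X + Polynomial.C (-(ξ a).num) := by
      simp [L, sub_eq_add_neg]
    rw [this, Polynomial.leadingCoeff_linear (by exact_mod_cast (ξ a).den_nz)]
  have h4 : (((ξ a).den : ℤ)) ^ k ∣ q.leadingCoeff := by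
    have := Polynomial.leadingCoeff_dvd_leadingCoeff h2
    rwa [Polynomial.leadingCoeff_pow, h3] at this
  have h5 := Int.le_of_dvd (abs_pos.2 (Polynomial.leadingCoeff_ne_zero.2 hq0)) ((dvd_abs _ _).2 h4)
  have h6 := abs_coeff_le_len (Polynomial.aeval (X a : MvPolynomial σ ℚ)
    (q.map (Int.castRingHom ℚ))) (Finsupp.single a q.natDegree)
  rw [wronski_coeff_aeval, Polynomial.coeff_map] at h6
  have h7 : (((ξ a).den : ℝ)) ^ k ≤ len (Polynomial.aeval (X a : MvPolynomial σ ℚ)
      (q.map (Int.castRingHom ℚ))) := by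
    refine le_trans ?_ h6
    have : ((((ξ a).den : ℤ) ^ k : ℤ) : ℝ) ≤ ((|q.leadingCoeff| : ℤ) : ℝ) := by exact_mod_cast h5
    simpa using this
  have hd1 : (1 : ℝ) ≤ (ξ a).den := by exact_mod_cast (ξ a).den_pos
  have h8 := Real.log_le_log (by positivity) h7
  rw [Real.log_pow] at h8
  have h9 : θ ≤ k * ω a := by
    have := Nat.le_ceil (θ / ω a)
    rwa [div_le_iff₀ hω] at this
  have h10 := Real.log_nonneg hd1
  calc θ * Real.log (ξ a).den ≤ (k * ω a) * Real.log (ξ a).den := by gcongr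
    _ = ω a * (k * Real.log (ξ a).den) := by ring
    _ ≤ _ := by gcongr

end Pool.Agent.Lib.Common.Subspace
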